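import Pool.Agent.Lib.MP_ded8ec_lc.SG.SpecA

/-!
# Seymour graphs (MP_ded8ec_lc), module OBS (helper46)
-/

set_option autoImplicit false

namespace Pool.Agent.Lib.MPded8ec.SG

universe u v

namespace OBSM

open Classical in
/-- indicator of a vertex -/
noncomputable def w {V : Type u} (S : Set V) (x : V) : ℕ := if x ∈ S then 1 else 0

open Classical in
/-- indicator of a separated pair -/
noncomputable def b {V : Type u} (S : Set V) (p : V × V) : ℕ :=
  if (p.1 ∈ S ↔ p.2 ∈ S) then 0 else 1

theorem b_le {V : Type u} (S : Set V) (p : V × V) : b S p ≤ 1 := by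
  unfold b
  split_ifs <;> omega

theorem w_add {V : Type u} (S : Set V) (p : V × V) :
    (w S p.1 + w S p.2) % 2 = b S p % 2 := by
  unfold w b
  by_cases h1 : p.1 ∈ S <;> by_cases h2 : p.2 ∈ S <;> simp [h1, h2]

theorem mem_vl {V : Type u} (M : List (V × V)) (x : V) :
    x ∈ vl M ↔ ∃ p ∈ M, x = p.1 ∨ x = p.2 := by
  induction M with
  | nil => simp [vl]
  | cons p M ih => simp only [vl, List.mem_cons, ih, exists_eq_or_imp, or_assoc]

theorem len_vl {V : Type u} (M : List (V × V)) : (vl M).length = 2 * M.length := by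
  induction M with
  | nil => rfl
  | cons p M ih => simp only [vl, List.length_cons, ih]; omega

theorem sum_vl {V : Type u} (S : Set V) (M : List (V × V)) :
    ((vl M).map (w S)).sum % 2 = (M.map (b S)).sum % 2 := by
  induction M with
  | nil => rfl
  | cons p M ih =>
    simp only [vl, List.map_cons, List.sum_cons]
    have := w_add S p
    omega

theorem inj_vl {V : Type u} (M : List (V × V)) (h : (vl M).Nodup) : ∀ p ∈ M, ∀ q ∈ M,
    (p.1 = q.1 ∨ p.1 = q.2) → p = q := by
  induction M with
  | nil => intro p hp; simp at hp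
  | cons r M ih =>
    simp only [vl, List.nodup_cons, List.mem_cons, not_or] at h
    obtain ⟨⟨h1, h2⟩, h3, h4⟩ := h
    rw [mem_vl] at h2 h3
    push Not at h2 h3
    intro p hp q hq he
    rcases List.mem_cons.1 hp with hp' | hp'
    · rcases List.mem_cons.1 hq with hq' | hq'
      · rw [hp', hq']
      · rw [hp'] at he
        rcases he with he | he
        · exact absurd he (h2 q hq').1
        · exact absurd he (h2 q hq').2
    · rcases List.mem_cons.1 hq with hq' | hq'
      · rw [hq'] at he
        rcases he with he | he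
        · exact absurd he.symm (h2 p hp').1
        · exact absurd he.symm (h3 p hp').1
      · exact ih h4 p hp' q hq' he

theorem nodup_of {V : Type u} (M : List (V × V)) (h : (vl M).Nodup) : M.Nodup := by
  induction M with
  | nil => exact List.nodup_nil
  | cons r M ih =>
    simp only [vl, List.nodup_cons, List.mem_cons, not_or] at h
    obtain ⟨⟨h1, h2⟩, h3, h4⟩ := h
    rw [List.nodup_cons]
    refine ⟨fun hr => h2 ?_, ih h4⟩
    rw [mem_vl]
    exact ⟨r, hr, Or.inl rfl⟩

theorem vl_sub {V : Type u} (q : V × V → Bool) (M : List (V × V)) :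
    (vl (M.filter q)).Sublist (vl M) := by
  induction M with
  | nil => exact List.Sublist.refl _
  | cons r M ih =>
    rw [List.filter_cons]
    split_ifs
    · exact (ih.cons_cons _).cons_cons _
    · exact (ih.cons _).cons _

theorem b_iff {V : Type u} (G : SimpleGraph V) (S : Set V) (p : V × V) (h : G.Adj p.1 p.2) :
    b S p = 1 ↔ s(p.1, p.2) ∈ cut G S := by
  unfold b cut
  constructor
  · intro hb
    by_cases h1 : p.1 ∈ S <;> by_cases h2 : p.2 ∈ S
    · simp [h1, h2] at hb
    · exact ⟨p.1, p.2, h1, h2, h, rfl⟩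
    · exact ⟨p.2, p.1, h2, h1, h.symm, Sym2.eq_swap⟩
    · simp [h1, h2] at hb
  · rintro ⟨x, y, hx, hy, -, he⟩
    rw [Sym2.eq_iff] at he
    rcases he with ⟨h1, h2⟩ | ⟨h1, h2⟩
    · rw [h1, h2]; simp [hx, hy]
    · rw [h1, h2]; simp [hx, hy]

/-- the edges of the matching -/
def FF {V : Type u} (M : List (V × V)) : Set (Sym2 V) := {e | ∃ p ∈ M, e = s(p.1, p.2)}

theorem adm {V : Type u} (G : SimpleGraph V) (M : List (V × V))
    (hM : ∀ p ∈ M, G.Adj p.1 p.2) (hn : (vl M).Nodup) : Admissible G (FF M) := by
  classical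
  constructor
  · rintro e ⟨p, hp, rfl⟩
    exact hM p hp
  intro v C hC
  have hA : {e | e ∈ C.edges ∧ e ∈ FF M} = ((C.edges.toFinset.filter fun e => e ∈ FF M :
      Finset (Sym2 V)) : Set (Sym2 V)) := by
    ext e; simp
  have hB : {e | e ∈ C.edges ∧ e ∉ FF M} = ((C.edges.toFinset.filter fun e => ¬ e ∈ FF M :
      Finset (Sym2 V)) : Set (Sym2 V)) := by
    ext e; simp
  rw [hA, hB, Set.ncard_coe_finset, Set.ncard_coe_finset]
  have hsum := Finset.card_filter_add_card_filter_not (s := C.edges.toFinset)
    (fun e => e ∈ FF M)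
  rw [List.toFinset_card_of_nodup hC.edges_nodup, SimpleGraph.Walk.length_edges] at hsum
  let q : V × V → Bool := fun p => decide (s(p.1, p.2) ∈ C.edges)
  have hn' : (vl (M.filter q)).Nodup := (vl_sub q M).nodup hn
  have hsub : vl (M.filter q) ⊆ C.support.tail := by
    intro x hx
    rw [mem_vl] at hx
    obtain ⟨p, hp, hx⟩ := hx
    rw [List.mem_filter] at hp
    have hpe : s(p.1, p.2) ∈ C.edges := by simpa [q] using hp.2
    have hxs : x ∈ C.support := by
      rcases hx with rfl | rfl
      · exact C.fst_mem_support_of_mem_edges hpe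
      · exact C.snd_mem_support_of_mem_edges hpe
    rw [SimpleGraph.Walk.mem_support_iff] at hxs
    rcases hxs with rfl | hxs
    · exact SimpleGraph.Walk.end_mem_tail_support hC.not_nil
    · exact hxs
  have hle : (vl (M.filter q)).length ≤ C.support.tail.length :=
    (hn'.subperm hsub).length_le
  rw [len_vl, List.length_tail, SimpleGraph.Walk.length_support] at hle
  have hle2 : (C.edges.toFinset.filter fun e => e ∈ FF M).card ≤ (M.filter q).length := by
    have h1 : (C.edges.toFinset.filter fun e => e ∈ FF M) ⊆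
        ((M.filter q).map fun p => s(p.1, p.2)).toFinset := by
      intro e he
      rw [Finset.mem_filter, List.mem_toFinset] at he
      obtain ⟨he, p, hp, rfl⟩ := he
      rw [List.mem_toFinset, List.mem_map]
      exact ⟨p, List.mem_filter.2 ⟨hp, by simpa [q] using he⟩, rfl⟩
    refine (Finset.card_le_card h1).trans ((List.toFinset_card_le _).trans ?_)
    rw [List.length_map]
  omega

end OBSM

open OBSM in
theorem specOBS : SpecOBS.{u} := by
  classical
  intro V _ G hG M hM hn
  have : Fintype V := Fintype.ofFinite V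
  obtain ⟨X, hX1, hX2⟩ := hG (FF M) (adm G M hM hn)
  have hfin : Fintype (FF M) := Fintype.ofFinite _
  refine ⟨fun x => decide (Odd (∑ f : FF M, w (X f) x)), ?_⟩
  intro M' hM' hperm
  have hn' : (vl M').Nodup := hperm.nodup_iff.2 hn
  have hMn := nodup_of M hn
  have hMn' := nodup_of M' hn'
  -- one pair of `M` is separated
  have h1 : ∀ f : FF M, (M.map (b (X f))).sum = 1 := by
    intro f
    obtain ⟨e, ⟨he1, he2⟩, heu⟩ := hX2 f
    obtain ⟨p, hp, rfl⟩ := he2
    rw [← List.sum_toFinset _ hMn, Finset.sum_eq_single p]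
    · exact (b_iff G (X f) p (hM p hp)).2 he1
    · intro q hq hqp
      rw [List.mem_toFinset] at hq
      by_contra hb
      have hb1 : b (X f) q = 1 := by
        have := b_le (X f) q
        omega
      have := heu _ ⟨(b_iff G (X f) q (hM q hq)).1 hb1, q, hq, rfl⟩
      apply hqp
      apply inj_vl M hn q hq p hp
      rw [Sym2.eq_iff] at this
      rcases this with h | h
      · exact Or.inl h.1
      · exact Or.inr h.1
    · intro h
      exact absurd (List.mem_toFinset.2 hp) h
  -- at least one pair of `M'` is separated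
  have h2 : ∀ f : FF M, 1 ≤ ∑ p ∈ M'.toFinset, b (X f) p := by
    intro f
    rw [List.sum_toFinset _ hMn']
    have e1 := sum_vl (X f) M
    have e2 := sum_vl (X f) M'
    have e3 : ((vl M').map (w (X f))).sum = ((vl M).map (w (X f))).sum :=
      (hperm.map _).sum_eq
    rw [h1 f] at e1
    rw [e3, e1] at e2
    by_contra hcon
    push Not at hcon
    have e4 : (List.map (b (X f)) M').sum = 0 := Nat.lt_one_iff.1 hcon
    rw [e4] at e2
    omega
  have hcard : M'.toFinset.card ≤ Fintype.card (FF M) := by
    have hl : M'.length = M.length := by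
      have := hperm.length_eq
      rw [len_vl, len_vl] at this
      omega
    rw [List.toFinset_card_of_nodup hMn', hl, ← List.toFinset_card_of_nodup hMn]
    rw [← Fintype.card_coe]
    let g : M.toFinset → FF M := fun p => ⟨s(p.1.1, p.1.2), p.1, List.mem_toFinset.1 p.2, rfl⟩
    apply Fintype.card_le_of_injective g
    intro p q hpq
    have h3 : s(p.1.1, p.1.2) = s(q.1.1, q.1.2) := congrArg Subtype.val hpq
    apply Subtype.ext
    apply inj_vl M hn p.1 (List.mem_toFinset.1 p.2) q.1 (List.mem_toFinset.1 q.2)
    rw [Sym2.eq_iff] at h3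
    rcases h3 with h | h
    · exact Or.inl h.1
    · exact Or.inr h.1
  -- at most one cut contains a pair
  have h3 : ∀ p ∈ M'.toFinset, ∑ f : FF M, b (X f) p ≤ 1 := by
    intro p hp
    rw [List.mem_toFinset] at hp
    by_contra hlt
    push Not at hlt
    have hex : ∃ f : FF M, b (X f) p ≠ 0 := by
      by_contra hcon
      push Not at hcon
      rw [Finset.sum_eq_zero fun f _ => hcon f] at hlt
      omega
    obtain ⟨f, hf⟩ := hex
    have hf1 : b (X f) p = 1 := by
      have := b_le (X f) p
      omega
    have : ∑ g : FF M, b (X g) p = b (X f) p := by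
      apply Finset.sum_eq_single f
      · intro g _ hgf
        by_contra hg
        have hg1 : b (X g) p = 1 := by
          have := b_le (X g) p
          omega
        exact Set.disjoint_left.1 (hX1 g f hgf) ((b_iff G (X g) p (hM' p hp)).1 hg1)
          ((b_iff G (X f) p (hM' p hp)).1 hf1)
      · intro h
        exact absurd (Finset.mem_univ f) h
    omega
  have h4 : ∑ p ∈ M'.toFinset, ∑ f : FF M, b (X f) p = ∑ p ∈ M'.toFinset, 1 := by
    apply le_antisymm (Finset.sum_le_sum h3)
    rw [Finset.sum_comm, Finset.sum_const, smul_eq_mul, mul_one]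
    refine hcard.trans ?_
    have := Finset.sum_le_sum (fun f (_ : f ∈ (Finset.univ : Finset (FF M))) => h2 f)
    rwa [Finset.sum_const, smul_eq_mul, mul_one, Finset.card_univ] at this
  have h5 := (Finset.sum_eq_sum_iff_of_le h3).1 h4
  intro p hp
  have h6 := h5 p (List.mem_toFinset.2 hp)
  have h7 : (∑ f : FF M, w (X f) p.1 + ∑ f : FF M, w (X f) p.2) % 2 = 1 := by
    rw [← Finset.sum_add_distrib]
    have h8 : ∀ T : Finset (FF M), (∑ f ∈ T, (w (X f) p.1 + w (X f) p.2)) % 2 =
        (∑ f ∈ T, b (X f) p) % 2 := by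
      intro T
      induction T using Finset.induction_on with
      | empty => rfl
      | insert f T hf ih =>
        rw [Finset.sum_insert hf, Finset.sum_insert hf]
        have := w_add (X f) p
        omega
    rw [h8, h6]
  intro hd
  rw [decide_eq_decide] at hd
  rcases Nat.even_or_odd (∑ f : FF M, w (X f) p.1) with he | ho
  · rcases Nat.even_or_odd (∑ f : FF M, w (X f) p.2) with he' | ho'
    · rw [Nat.even_iff] at he he'
      omega
    · have := hd.2 ho'
      rw [Nat.even_iff] at he
      rw [Nat.odd_iff] at this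
      omega
  · have := hd.1 ho
    rw [Nat.odd_iff] at ho this
    omega

end Pool.Agent.Lib.MPded8ec.SG
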