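import Pool.Agent.Lib.MP_ded8ec_lc.SG.SpecB

/-! # Seymour graphs (MP_ded8ec_lc), module WKL: walks as lists -/

set_option autoImplicit false

namespace Pool.Agent.Lib.MPded8ec.SG

universe u

namespace WKLM

theorem app {V : Type u} (r : V → V → Prop) (x b : V) (l' : List V) (l : List V) :
    ∀ a : V, Wk r a (l ++ x :: l') b ↔ Wk r a l x ∧ Wk r x l' b := by
  induction l with
  | nil =>
    intro a
    exact Iff.rfl
  | cons y l ih =>
    intro a
    show r a y ∧ Wk r y (l ++ x :: l') b ↔ (r a y ∧ Wk r y l x) ∧ Wk r x l' b
    rw [ih y, and_assoc]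

theorem rev {V : Type u} (r : V → V → Prop) (hr : ∀ x y, r x y → r y x) (b : V) (l : List V) :
    ∀ a : V, Wk r a l b → Wk r b l.reverse a := by
  induction l with
  | nil =>
    intro a h
    exact hr a b h
  | cons y l ih =>
    intro a h
    rw [List.reverse_cons, app r y a [] l.reverse b]
    exact ⟨ih y h.2, hr a y h.1⟩

theorem mono {V : Type u} (r r' : V → V → Prop) (hr : ∀ x y, r x y → r' x y) (b : V)
    (l : List V) : ∀ a : V, Wk r a l b → Wk r' a l b := by
  induction l with
  | nil =>
    intro a h
    exact hr a b h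
  | cons y l ih =>
    intro a h
    exact ⟨hr a y h.1, ih y h.2⟩

theorem dec_even (n m : ℕ) :
    decide (Even (n + (m + 1))) = xor (decide (Even n)) (decide (Even m)) := by
  rw [← add_assoc]
  by_cases hn : Even n <;> by_cases hm : Even m <;> simp [Nat.even_add_one, Nat.even_add, hn, hm]

theorem sgapp {V : Type u} (c : V → Bool) (a x b : V) (l l' : List V) :
    sg c a (l ++ x :: l') b = xor (sg c a l x) (sg c x l' b) := by
  unfold sg
  rw [List.length_append, List.length_cons, dec_even]
  cases c a <;> cases c x <;> cases c b <;> cases decide (Even l.length) <;>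
    cases decide (Even l'.length) <;> rfl

theorem sgrev {V : Type u} (c : V → Bool) (a b : V) (l : List V) :
    sg c b l.reverse a = sg c a l b := by
  unfold sg
  rw [List.length_reverse, Bool.xor_comm (c b) (c a)]

theorem sgone {V : Type u} (c : V → Bool) (a b : V) (h : c a ≠ c b) : sg c a [] b = false := by
  unfold sg
  have h0 : decide (Even ([] : List V).length) = true := by simp
  rw [h0]
  cases ha : c a <;> cases hb : c b
  · exact absurd (ha.trans hb.symm) h
  · rfl
  · rfl
  · exact absurd (ha.trans hb.symm) h

theorem ok {V : Type u} (c : V → Bool) (r : V → V → Prop) (hr : ∀ x y, r x y → c x ≠ c y) (b : V)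
    (l : List V) : ∀ a : V, Wk r a l b → sg c a l b = false := by
  induction l with
  | nil =>
    intro a h
    exact sgone c a b (hr a b h)
  | cons y l ih =>
    intro a h
    have h1 := sgapp c a y b [] l
    rw [List.nil_append] at h1
    rw [h1, ih y h.2, sgone c a y (hr a y h.1)]
    rfl

theorem short {V : Type u} (r : V → V → Prop) (b : V) (l : List V) :
    ∀ a : V, l ≠ [] → Wk r a l b →
      ∃ l' : List V, l' ≠ [] ∧ (∀ x ∈ l', x ∈ l) ∧ l'.Nodup ∧ Wk r a l' b := by
  induction l with
  | nil =>
    intro a h
    exact absurd rfl h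
  | cons y l ih =>
    intro a _ h
    by_cases hl : l = []
    · subst hl
      exact ⟨[y], by simp, fun x hx => hx, List.nodup_singleton y, h⟩
    · obtain ⟨l', h1, h2, h3, h4⟩ := ih y hl h.2
      by_cases hy : y ∈ l'
      · obtain ⟨p, q, hpq⟩ := List.append_of_mem hy
        subst hpq
        refine ⟨y :: q, by simp, ?_, ?_, h.1, ((app r y b q p y).1 h4).2⟩
        · intro x hx
          rcases List.mem_cons.1 hx with hx | hx
          · exact hx ▸ List.mem_cons_self
          · exact List.mem_cons_of_mem y
              (h2 x (List.mem_append_right p (List.mem_cons_of_mem y hx)))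
        · exact h3.sublist (List.sublist_append_right p (y :: q))
      · refine ⟨y :: l', by simp, ?_, List.nodup_cons.2 ⟨hy, h3⟩, h.1, h4⟩
        intro x hx
        rcases List.mem_cons.1 hx with hx | hx
        · exact hx ▸ List.mem_cons_self
        · exact List.mem_cons_of_mem y (h2 x hx)

end WKLM

theorem specWKL : SpecWKL.{u} where
  app _ r a x b l l' := WKLM.app r x b l' l a
  rev _ r hr a b l := WKLM.rev r hr b l a
  mono _ r r' hr a b l := WKLM.mono r r' hr b l a
  sgapp _ c a x b l l' := WKLM.sgapp c a x b l l'
  sgrev _ c a b l := WKLM.sgrev c a b l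
  ok _ c r hr a b l := WKLM.ok c r hr b l a
  short _ r a b l := WKLM.short r b l a

end Pool.Agent.Lib.MPded8ec.SG
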