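import Pool.Agent.Lib.MP_ded8ec_lc.SG.SpecA

/-!
# Seymour graphs (MP_ded8ec_lc), module APX: graphs with a vertex meeting all odd circuits (helper9)
-/

set_option autoImplicit false

namespace Pool.Agent.Lib.MPded8ec.SG

universe u v

namespace APXM

variable {V : Type u} [DecidableEq V]

/-- the copy of `x` to which the edge `x y` is attached -/
def lift (v : V) (c : V → Bool) (x y : V) : Option V :=
  if x = v then (if c y = true then some v else none) else some x

/-- one end of an edge -/
noncomputable def e1 (e : Sym2 V) : V := (Quot.out e).1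

/-- the other end of an edge -/
noncomputable def e2' (e : Sym2 V) : V := (Quot.out e).2

omit [DecidableEq V] in
theorem e12 (e : Sym2 V) : s(e1 e, e2' e) = e := Quot.out_eq e

/-- source -/
noncomputable def S (v : V) (c : V → Bool) : Option (Sym2 V) → Option V
  | none => some v
  | some e => lift v c (e1 e) (e2' e)

/-- target -/
noncomputable def T (v : V) (c : V → Bool) : Option (Sym2 V) → Option V
  | none => none
  | some e => lift v c (e2' e) (e1 e)

/-- the colouring -/
def col (v : V) (c : V → Bool) : Option V → Bool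
  | none => true
  | some x => if x = v then false else c x

theorem col_lift_v (v : V) (c : V → Bool) (y : V) : col v c (lift v c v y) = !c y := by
  unfold lift
  rw [if_pos rfl]
  cases h : c y
  · rfl
  · rw [if_pos rfl]
    show (if v = v then false else c v) = false
    rw [if_pos rfl]

theorem col_lift_ne {v x : V} (c : V → Bool) (y : V) (h : x ≠ v) : col v c (lift v c x y) = c x := by
  unfold lift
  rw [if_neg h]
  show (if x = v then false else c x) = c x
  rw [if_neg h]

theorem col_ne {G : SimpleGraph V} {v : V} {c : V → Bool}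
    (hc : ∀ x y, x ≠ v → y ≠ v → G.Adj x y → c x ≠ c y) {a b : V} (h : G.Adj a b) :
    col v c (lift v c a b) ≠ col v c (lift v c b a) := by
  by_cases ha : a = v
  · subst ha
    rw [col_lift_v, col_lift_ne c a h.ne']
    cases c b <;> simp
  · by_cases hb : b = v
    · subst hb
      rw [col_lift_v, col_lift_ne c b ha]
      cases c a <;> simp
    · rw [col_lift_ne c b ha, col_lift_ne c a hb]
      exact hc a b ha hb h

theorem ind_lift {v x : V} (c : V → Bool) (a b : V) (h : x ≠ v) :
    ind (lift v c a b) (some x) = ind a x := by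
  unfold lift ind
  by_cases ha : a = v
  · rw [if_pos ha]
    have h1 : (if c b = true then some v else none) ≠ some x := by
      split_ifs
      · intro e
        exact h (Option.some.inj e).symm
      · exact nofun
    rw [if_neg h1, if_neg (fun e => h (e.symm.trans ha))]
  · rw [if_neg ha]
    by_cases hx : a = x
    · rw [if_pos hx, if_pos (by rw [hx])]
    · rw [if_neg hx, if_neg (fun e => hx (Option.some.inj e))]

theorem ind_lift_v (v : V) (c : V → Bool) (a b : V) :
    ind (lift v c a b) (some v) + ind (lift v c a b) none = ind a v := by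
  unfold lift ind
  by_cases ha : a = v
  · simp only [if_pos ha]
    cases h : c b
    · simp
    · simp
  · simp only [if_neg ha]
    simp [ha]

theorem mem_ind {a b : V} (h : a ≠ b) (x : V) :
    ind a x + ind b x = if x ∈ s(a, b) then (1 : ZMod 2) else 0 := by
  unfold ind
  by_cases ha : a = x
  · subst ha
    rw [if_pos rfl, if_neg (fun e => h e.symm), if_pos (Sym2.mem_mk_left a b), add_zero]
  · by_cases hb : b = x
    · subst hb
      rw [if_pos rfl, if_neg ha, if_pos (Sym2.mem_mk_right a b), zero_add]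
    · rw [if_neg ha, if_neg hb, if_neg, add_zero]
      rw [Sym2.mem_iff]
      rintro (e | e)
      · exact ha e.symm
      · exact hb e.symm

theorem sum_opt {α M : Type*} [DecidableEq α] [AddCommMonoid M] (J : Finset (Option α))
    (g : Option α → M) : ∑ e ∈ J, g e = (if none ∈ J then g none else 0) +
      ∑ e ∈ Finset.eraseNone J, g (some e) := by
  have h1 : ∑ e ∈ J.erase none, g e = ∑ e ∈ Finset.eraseNone J, g (some e) := by
    rw [← Finset.map_some_eraseNone, Finset.sum_map]
    rfl
  rw [← h1]
  split_ifs with h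
  · rw [Finset.add_sum_erase J g h]
  · rw [Finset.erase_eq_of_notMem h, zero_add]

theorem len_sum {α : Type*} [DecidableEq α] (F J : Finset α) :
    len F J = ∑ e ∈ J, (if e ∈ F then (-1 : ℤ) else 1) := by
  unfold len
  rw [Finset.sum_ite, Finset.filter_mem_eq_inter, ← Finset.sdiff_eq_filter]
  simp
  ring

theorem len_opt {α : Type*} [DecidableEq α] (F : Finset α) (J : Finset (Option α)) :
    len (Finset.insertNone F) J = (if none ∈ J then (-1 : ℤ) else 0) +
      len F (Finset.eraseNone J) := by
  rw [len_sum, len_sum, sum_opt]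
  congr 1
  · rw [if_pos Finset.none_mem_insertNone]
  · refine Finset.sum_congr rfl fun e _ => ?_
    simp only [Finset.some_mem_insertNone]

theorem deg_even {G : SimpleGraph V} {v : V} {c : V → Bool} (J : Finset (Option (Sym2 V)))
    (hJ : ∀ e ∈ Finset.eraseNone J, e ∈ G.edgeSet) (hp : ∀ z, par (S v c) (T v c) J z = 0) (x : V) :
    Even ((Finset.eraseNone J).filter fun e => x ∈ e).card := by
  have hne : ∀ e ∈ Finset.eraseNone J, e1 e ≠ e2' e := by
    intro e he
    have h1 := hJ e he
    rw [← e12 e, SimpleGraph.mem_edgeSet] at h1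
    exact h1.ne
  rw [← ZMod.natCast_eq_zero_iff_even, Finset.card_filter, Nat.cast_sum]
  have h0 : ∀ e ∈ Finset.eraseNone J, (((if x ∈ e then 1 else 0 : ℕ)) : ZMod 2) =
      ind (e1 e) x + ind (e2' e) x := by
    intro e he
    rw [mem_ind (hne e he) x, e12 e]
    split_ifs <;> simp
  rw [Finset.sum_congr rfl h0]
  by_cases hx : x = v
  · subst hx
    have h1 := hp (some x)
    have h2 := hp none
    unfold par at h1 h2
    rw [sum_opt] at h1 h2
    have h3 : ∑ e ∈ Finset.eraseNone J, (ind (e1 e) x + ind (e2' e) x) =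
        ∑ e ∈ Finset.eraseNone J, (ind (S x c (some e)) (some x) + ind (T x c (some e)) (some x)) +
        ∑ e ∈ Finset.eraseNone J, (ind (S x c (some e)) none + ind (T x c (some e)) none) := by
      rw [← Finset.sum_add_distrib]
      refine Finset.sum_congr rfl fun e _ => ?_
      rw [← ind_lift_v x c (e1 e) (e2' e), ← ind_lift_v x c (e2' e) (e1 e)]
      show _ = (ind (lift x c (e1 e) (e2' e)) (some x) + ind (lift x c (e2' e) (e1 e)) (some x)) +
        (ind (lift x c (e1 e) (e2' e)) none + ind (lift x c (e2' e) (e1 e)) none)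
      ring
    have h4 : ∀ z : Option V, ind (S x c none) z + ind (T x c none) z =
        ind (some x) z + ind none z := fun _ => rfl
    rw [h4] at h1 h2
    have h5 : ind (some x) (some x) + ind (none : Option V) (some x) = (1 : ZMod 2) := by
      unfold ind
      simp
    have h6 : ind (some x) (none : Option V) + ind (none : Option V) none = (1 : ZMod 2) := by
      unfold ind
      simp
    rw [h5] at h1
    rw [h6] at h2
    rw [h3]
    have h7 := congrArg₂ (· + ·) h1 h2
    simp only [add_zero] at h7
    rw [← h7]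
    have h8 : ∀ a : ZMod 2, a + a = 0 := by decide
    have h9 : ∀ a b d : ZMod 2, a + b + (a + d) = b + d := by
      intro a b d
      rw [show a + b + (a + d) = (a + a) + (b + d) by ring, h8, zero_add]
    rw [h9]
  · have h1 := hp (some x)
    unfold par at h1
    rw [sum_opt] at h1
    have h2 : ind (S v c none) (some x) + ind (T v c none) (some x) = (0 : ZMod 2) := by
      show ind (some v) (some x) + ind none (some x) = (0 : ZMod 2)
      unfold ind
      rw [if_neg (fun e => hx (Option.some.inj e).symm), if_neg (nofun), add_zero]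
    rw [h2, ite_self, zero_add] at h1
    rw [← h1]
    refine Finset.sum_congr rfl fun e _ => ?_
    show _ = ind (lift v c (e1 e) (e2' e)) (some x) + ind (lift v c (e2' e) (e1 e)) (some x)
    rw [ind_lift c _ _ hx, ind_lift c _ _ hx]

theorem lift_mem {v : V} (c : V → Bool) {X : Set (Option V)} (h : some v ∈ X ↔ none ∈ X) (x y : V) :
    lift v c x y ∈ X ↔ some x ∈ X := by
  unfold lift
  by_cases hx : x = v
  · rw [if_pos hx, hx]
    split_ifs
    · exact Iff.rfl
    · exact h.symm
  · rw [if_neg hx]

omit [DecidableEq V] in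
theorem mem_cut {G : SimpleGraph V} (Y : Set V) {e : Sym2 V} (he : e ∈ G.edgeSet) :
    e ∈ cut G Y ↔ ¬ (e1 e ∈ Y ↔ e2' e ∈ Y) := by
  have h12 := e12 e
  constructor
  · rintro ⟨x, y, hx, hy, -, hxy⟩ hiff
    rw [← h12] at hxy
    rcases Sym2.eq_iff.1 hxy with ⟨h1, h2⟩ | ⟨h1, h2⟩
    · rw [h1, h2] at hiff
      exact hy (hiff.1 hx)
    · rw [h1, h2] at hiff
      exact hy (hiff.2 hx)
  · intro h
    have hadj : G.Adj (e1 e) (e2' e) := by
      rw [← SimpleGraph.mem_edgeSet, h12]
      exact he
    by_cases h1 : e1 e ∈ Y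
    · exact ⟨e1 e, e2' e, h1, fun h2 => h ⟨fun _ => h2, fun _ => h1⟩, hadj, h12.symm⟩
    · have h2 : e2' e ∈ Y := by
        by_contra h2
        exact h ⟨fun h3 => absurd h3 h1, fun h3 => absurd h3 h2⟩
      exact ⟨e2' e, e1 e, h2, h1, hadj.symm, by rw [Sym2.eq_swap]; exact h12.symm⟩

end APXM

open APXM

theorem specAPX (hP : SpecPAR.{u, u}) (hE : SpecEVN.{u}) (hB : SpecBIP.{u, u}) : SpecAPX.{u} := by
  classical
  intro V _ G hG F hF
  have : Fintype V := Fintype.ofFinite V
  obtain ⟨v, c, hc⟩ := hG
  set Ef : Finset (Sym2 V) := G.edgeSet.toFinset with hEf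
  set Ff : Finset (Sym2 V) := F.toFinset with hFf
  have memE : ∀ e, e ∈ Ef ↔ e ∈ G.edgeSet := fun e => Set.mem_toFinset
  have memF : ∀ e, e ∈ Ff ↔ e ∈ F := fun e => Set.mem_toFinset
  have hadj : ∀ e ∈ G.edgeSet, G.Adj (e1 e) (e2' e) := by
    intro e he
    rw [← SimpleGraph.mem_edgeSet, e12]
    exact he
  have hcol : ∀ e ∈ Finset.insertNone Ef, col v c (S v c e) ≠ col v c (T v c e) := by
    intro e he
    rcases e with _ | e
    · show (if v = v then false else c v) ≠ true
      rw [if_pos rfl]
      exact Bool.false_ne_true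
    · exact col_ne hc (hadj e ((memE e).1 (Finset.some_mem_insertNone.1 he)))
  have hsub : Finset.insertNone Ff ⊆ Finset.insertNone Ef := by
    intro e he
    rcases e with _ | e
    · exact Finset.none_mem_insertNone
    · rw [Finset.some_mem_insertNone] at he ⊢
      exact (memE e).2 (hF.1 ((memF e).1 he))
  have hcons : Cons (S v c) (T v c) (Finset.insertNone Ef) (Finset.insertNone Ff) := by
    intro J hJ hpar
    have hJ0 : ∀ e ∈ Finset.eraseNone J, e ∈ G.edgeSet := by
      intro e he
      rw [Finset.mem_eraseNone] at he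
      exact (memE e).1 (Finset.some_mem_insertNone.1 (hJ he))
    have h1 := hE V G F hF (Finset.eraseNone J) hJ0 (fun x => deg_even J hJ0 hpar x)
    have h2 : 0 ≤ len Ff (Finset.eraseNone J) := by
      unfold len
      have e1 : {e | e ∈ Finset.eraseNone J ∧ e ∈ F} = ↑(Finset.eraseNone J ∩ Ff) := by
        ext e
        simp only [Set.mem_ofPred_eq, Finset.coe_inter, Set.mem_inter_iff, Finset.mem_coe, memF]
      have e2 : {e | e ∈ Finset.eraseNone J ∧ e ∉ F} = ↑(Finset.eraseNone J \ Ff) := by
        ext e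
        simp only [Set.mem_ofPred_eq, Finset.coe_sdiff, Set.mem_sdiff, Finset.mem_coe, memF]
      rw [e1, e2, Set.ncard_coe_finset, Set.ncard_coe_finset] at h1
      omega
    have h3 := hP.even (Option V) (Option (Sym2 V)) (S v c) (T v c) (col v c)
      (Finset.insertNone Ff) J (fun e he => hcol e (hJ he)) hpar
    rw [len_opt] at h3 ⊢
    obtain ⟨k, hk⟩ := h3
    split_ifs at hk ⊢ <;> omega
  obtain ⟨X, hX1, hX2⟩ := hB (Option V) (Option (Sym2 V)) (S v c) (T v c) (col v c)
    (Finset.insertNone Ef) (Finset.insertNone Ff) hcol hsub hcons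
  have hmem : ∀ f ∈ F, some f ∈ Finset.insertNone Ff := fun f hf =>
    Finset.some_mem_insertNone.2 ((memF f).2 hf)
  have hvn : ∀ f ∈ F, (some v ∈ X (some f) ↔ none ∈ X (some f)) := by
    intro f hf
    have h1 := hX2 (some f) (hmem f hf) none Finset.none_mem_insertNone
    have h2 : ¬ sep (S v c) (T v c) (X (some f)) none := fun h => nomatch (h1.1 h)
    by_contra h3
    exact h2 h3
  have hsep : ∀ f ∈ F, ∀ e ∈ G.edgeSet, (e ∈ cut G {x | some x ∈ X (some f)} ↔
      sep (S v c) (T v c) (X (some f)) (some e)) := by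
    intro f hf e he
    rw [mem_cut _ he]
    show ¬ (some (e1 e) ∈ X (some f) ↔ some (e2' e) ∈ X (some f)) ↔
      ¬ (lift v c (e1 e) (e2' e) ∈ X (some f) ↔ lift v c (e2' e) (e1 e) ∈ X (some f))
    rw [lift_mem c (hvn f hf), lift_mem c (hvn f hf)]
  have hcut : ∀ (Y : Set V) (e : Sym2 V), e ∈ cut G Y → e ∈ G.edgeSet := by
    rintro Y e ⟨x, y, -, -, h, rfl⟩
    exact h
  refine ⟨fun f => {x | some x ∈ X (some f.1)}, ?_, ?_⟩
  · intro f g hfg
    rw [Set.disjoint_left]
    intro e h1 h2
    have he := hcut _ _ h1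
    refine hX1 (some f.1) (hmem f.1 f.2) (some g.1) (hmem g.1 g.2) ?_ (some e)
      (Finset.some_mem_insertNone.2 ((memE e).2 he)) ⟨(hsep f.1 f.2 e he).1 h1,
        (hsep g.1 g.2 e he).1 h2⟩
    intro h
    exact hfg (Subtype.ext (Option.some.inj h))
  · intro f
    refine ⟨f.1, ⟨?_, f.2⟩, ?_⟩
    · exact (hsep f.1 f.2 f.1 (hF.1 f.2)).2 ((hX2 _ (hmem f.1 f.2) _ (hmem f.1 f.2)).2 rfl)
    · rintro e ⟨h1, h2⟩
      exact Option.some.inj ((hX2 _ (hmem f.1 f.2) _ (hmem e h2)).1
        ((hsep f.1 f.2 e (hF.1 h2)).1 h1))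

end Pool.Agent.Lib.MPded8ec.SG
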