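import Pool.Agent.Lib.MP_ded8ec_lc.SG.SpecC

/-!
# Seymour graphs (MP_ded8ec_lc), module ASM: the totally odd K4
-/

set_option autoImplicit false

namespace Pool.Agent.Lib.MPded8ec.SG

universe u

namespace ASMM

section atoms

variable {V : Type u}

/-- `x` is in the atom `(i, j)` of `W`. -/
def At {s : ℕ} (B : Bool × Fin s → V) (L : Bool × Fin s → Bool × Fin s → List V)
    (i j : Bool × Fin s) (x : V) : Prop :=
  (i = j ∧ x = B i) ∨ (i.1 ≠ j.1 ∧ x ∈ L i j)

theorem at_dis {G : SimpleGraph V} {c : V → Bool} {s : ℕ} {B : Bool × Fin s → V}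
    {L : Bool × Fin s → Bool × Fin s → List V} (h : KS G c s B L) {i j i' j' : Bool × Fin s}
    {x : V} (h1 : At B L i j x) (h2 : At B L i' j' x) :
    (i = i' ∧ j = j') ∨ (i = j' ∧ j = i') := by
  rcases h1 with ⟨rfl, rfl⟩ | ⟨hij, hx⟩
  · rcases h2 with ⟨rfl, h3⟩ | ⟨hij', hx'⟩
    · have := h.inj h3
      exact Or.inl ⟨this, this⟩
    · exact absurd rfl (h.av _ _ hij' _ hx' _)
  · rcases h2 with ⟨rfl, rfl⟩ | ⟨hij', hx'⟩
    · exact absurd rfl (h.av _ _ hij _ hx _)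
    · exact h.dis _ _ _ _ hij hij' _ hx hx'

end atoms

/-! ### the keys of the pieces -/

/-- Indices: good indices of the two sides, the four ends. -/
abbrev Ix := (Bool × Fin 4) ⊕ Fin 4

/-- Keys: pairs of indices (atoms), or one of the two breaking paths. -/
abbrev Key := (Ix × Ix) ⊕ Bool

/-- The same atom. -/
def same : Key → Key → Bool
  | .inl p, .inl q => decide ((p.1 = q.1 ∧ p.2 = q.2) ∨ (p.1 = q.2 ∧ p.2 = q.1))
  | .inr s, .inr t => decide (s = t)
  | .inl _, .inr _ => false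
  | .inr _, .inl _ => false

/-- The first index is good. -/
def good : Key → Bool
  | .inl p => p.1.isLeft
  | .inr _ => true

/-- Keys of a route. -/
def rk (f g i : Ix) : List Key := [.inl (f, i), .inl (f, g), .inl (g, g), .inl (g, i)]

/-- good indices of side `false` -/
abbrev ff (k : Fin 4) : Ix := .inl (false, k)
/-- good indices of side `true` -/
abbrev gg (k : Fin 4) : Ix := .inl (true, k)
/-- the ends -/
abbrev ee (k : Fin 4) : Ix := .inr k

/-- The keys of the 14 pieces. -/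
def A : Fin 14 → List Key :=
  ![[.inl (ff 0, ff 0)], [.inl (ff 1, ff 1)], [.inl (gg 0, gg 0)], [.inl (gg 1, gg 1)],
    rk (ff 0) (gg 2) (ee 0), [.inr false], rk (ff 1) (gg 3) (ee 1),
    rk (gg 0) (ff 2) (ee 2), [.inr true], rk (gg 1) (ff 3) (ee 3),
    [.inl (ff 0, gg 0)], [.inl (ff 1, gg 1)], [.inl (ff 0, gg 1)], [.inl (ff 1, gg 0)]]

set_option maxRecDepth 10000 in
theorem sameA : ∀ m n : Fin 14, m ≠ n → ∀ k ∈ A m, ∀ k' ∈ A n, same k k' = false := by decide

theorem goodA : ∀ m : Fin 14, ∀ k ∈ A m, good k = true := by decide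

theorem even_true {V : Type u} {c : V → Bool} {a b : V} {l : List V} (h : sg c a l b = true)
    (hc : c a = c b) : Even l.length := by
  unfold sg at h
  rw [hc, Bool.xor_self, Bool.false_xor, decide_eq_true_eq] at h
  exact h

theorem even_false {V : Type u} {c : V → Bool} {a b : V} {l : List V} (h : sg c a l b = false)
    (hc : c a ≠ c b) : Even l.length := by
  unfold sg at h
  have h1 : (xor (c a) (c b)) = true := by
    revert hc
    cases c a <;> cases c b <;> simp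
  rw [h1, Bool.true_xor] at h
  simpa using h

/-- Four good indices on each side. -/
theorem exists_good (D : Finset (Bool × Fin 12)) (hD : D.card ≤ 8) (t : Bool) :
    ∃ φ : Fin 4 → Fin 12, Function.Injective φ ∧ ∀ k, (t, φ k) ∉ D := by
  classical
  have h1 : (Finset.univ.filter fun i : Fin 12 => (t, i) ∈ D).card ≤ D.card := by
    refine Finset.card_le_card_of_injOn (fun i => (t, i)) ?_ ?_
    · intro i hi
      exact (Finset.mem_filter.1 hi).2
    · intro i _ j _ hij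
      exact (Prod.mk.inj hij).2
  have h2 := Finset.card_filter_add_card_filter_not (s := (Finset.univ : Finset (Fin 12)))
    (fun i : Fin 12 => (t, i) ∈ D)
  rw [Finset.card_univ, Fintype.card_fin] at h2
  obtain ⟨S, hS⟩ : ∃ S : Finset (Fin 12), S = Finset.univ.filter fun i : Fin 12 => ¬ (t, i) ∈ D :=
    ⟨_, rfl⟩
  rw [← hS] at h2
  have h3 : Fintype.card (Fin 4) ≤ Fintype.card ↥S := by
    rw [Fintype.card_coe, Fintype.card_fin]
    omega
  obtain ⟨φ⟩ := Function.Embedding.nonempty_of_card_le h3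
  refine ⟨fun k => (φ k).1, fun i j hij => φ.injective (Subtype.ext hij), fun k => ?_⟩
  have h5 : ∀ i ∈ S, (t, i) ∉ D := by
    intro i hi
    rw [hS] at hi
    exact (Finset.mem_filter.1 hi).2
  exact h5 _ (φ k).2

end ASMM

open ASMM

theorem specASM (hW : SpecWKL.{u}) (hR : SpecRTE.{u}) : SpecASM.{u} := by
  intro V _ G c B L hKS a b a' b' l l' hBP D hD hgd
  obtain ⟨hP, hP', hPP⟩ := hBP
  obtain ⟨φ₀, hφ₀, hφD₀⟩ := exists_good D hD false
  obtain ⟨φ₁, hφ₁, hφD₁⟩ := exists_good D hD true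
  obtain ⟨ia, -, hia⟩ := Finset.mem_image.1 hP.ha
  obtain ⟨ib, -, hib⟩ := Finset.mem_image.1 hP.hb
  obtain ⟨ia', -, hia'⟩ := Finset.mem_image.1 hP'.ha
  obtain ⟨ib', -, hib'⟩ := Finset.mem_image.1 hP'.hb
  have haP : a ∈ a :: (l ++ [b]) := List.mem_cons_self
  have hbP : b ∈ a :: (l ++ [b]) := by simp
  have haP' : a' ∈ a' :: (l' ++ [b']) := List.mem_cons_self
  have hbP' : b' ∈ a' :: (l' ++ [b']) := by simp
  have hab : a ≠ b := by
    rintro rfl
    have := hP.nd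
    simp at this
  have hab' : a' ≠ b' := by
    rintro rfl
    have := hP'.nd
    simp at this
  -- the indices
  set ends : Fin 4 → Bool × Fin 12 := ![ia, ib, ia', ib'] with hends
  set ev : Fin 4 → V := ![a, b, a', b'] with hev
  have hBe : ∀ k, B (ends k) = ev k := by
    intro k
    fin_cases k
    · exact hia
    · exact hib
    · exact hia'
    · exact hib'
  have hevP : ∀ k, ev k ∈ a :: (l ++ [b]) ∨ ev k ∈ a' :: (l' ++ [b']) := by
    intro k
    fin_cases k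
    · exact Or.inl haP
    · exact Or.inl hbP
    · exact Or.inr haP'
    · exact Or.inr hbP'
  have hevi : Function.Injective ev := by
    rw [← List.nodup_ofFn]
    have h1 : List.ofFn ev = [a, b, a', b'] := by simp [hev, List.ofFn_succ]
    rw [h1]
    have h2 : a ≠ a' := fun h => hPP a haP (h ▸ haP')
    have h3 : a ≠ b' := fun h => hPP a haP (h ▸ hbP')
    have h4 : b ≠ a' := fun h => hPP b hbP (h ▸ haP')
    have h5 : b ≠ b' := fun h => hPP b hbP (h ▸ hbP')
    simp [hab, hab', h2, h3, h4, h5]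
  set e : Ix → Bool × Fin 12 := Sum.elim
    (fun p => (p.1, (if p.1 then φ₁ p.2 else φ₀ p.2 : Fin 12))) ends with he
  have hgD : ∀ p : Bool × Fin 4, e (.inl p) ∉ D := by
    rintro ⟨t, k⟩
    cases t
    · exact hφD₀ k
    · exact hφD₁ k
  have hBg : ∀ p : Bool × Fin 4, B (e (.inl p)) ∉ a :: (l ++ [b]) ∧
      B (e (.inl p)) ∉ a' :: (l' ++ [b']) := fun p => (hgd _ (hgD p)).1
  have hei : Function.Injective e := by
    rintro (⟨t, k⟩ | k) (⟨t', k'⟩ | k') h
    · have h1 : t = t' := congrArg Prod.fst h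
      subst h1
      have h2 : (if t then φ₁ k else φ₀ k : Fin 12) = (if t then φ₁ k' else φ₀ k' : Fin 12) :=
        congrArg Prod.snd h
      cases t
      · rw [hφ₀ h2]
      · rw [hφ₁ h2]
    · exfalso
      have h1 := hBg (t, k)
      rw [h] at h1
      have h2 : B (e (.inr k')) = ev k' := hBe k'
      rw [h2] at h1
      rcases hevP k' with h3 | h3
      · exact h1.1 h3
      · exact h1.2 h3
    · exfalso
      have h1 := hBg (t', k')
      rw [← h] at h1
      have h2 : B (e (.inr k)) = ev k := hBe k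
      rw [h2] at h1
      rcases hevP k with h3 | h3
      · exact h1.1 h3
      · exact h1.2 h3
    · have h1 : ends k = ends k' := h
      have h2 : ev k = ev k' := by rw [← hBe, ← hBe, h1]
      rw [hevi h2]
  -- side of the good indices
  have hsf : ∀ k, (e (ff k)).1 = false := fun k => rfl
  have hsg : ∀ k, (e (gg k)).1 = true := fun k => rfl
  have hfg : ∀ k k', (e (ff k)).1 ≠ (e (gg k')).1 := fun k k' => by
    rw [hsf, hsg]; exact Bool.false_ne_true
  have hgf : ∀ k k', (e (gg k)).1 ≠ (e (ff k')).1 := fun k k' => (hfg k' k).symm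
  have hne : ∀ i j : Ix, i ≠ j → e i ≠ e j := fun i j h h' => h (hei h')
  -- the routes
  obtain ⟨ρ₀, w₀, n₀, o₀⟩ := hR.route V G c 12 B L hKS (e (ff 0)) (e (gg 2)) (e (ee 0))
    (hfg 0 2) (hne _ _ (by decide)) (hne _ _ (by decide))
  obtain ⟨ρ₁, w₁, n₁, o₁⟩ := hR.route V G c 12 B L hKS (e (ff 1)) (e (gg 3)) (e (ee 1))
    (hfg 1 3) (hne _ _ (by decide)) (hne _ _ (by decide))
  obtain ⟨ρ₂, w₂, n₂, o₂⟩ := hR.route V G c 12 B L hKS (e (gg 0)) (e (ff 2)) (e (ee 2))
    (hgf 0 2) (hne _ _ (by decide)) (hne _ _ (by decide))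
  obtain ⟨ρ₃, w₃, n₃, o₃⟩ := hR.route V G c 12 B L hKS (e (gg 1)) (e (ff 3)) (e (ee 3))
    (hgf 1 3) (hne _ _ (by decide)) (hne _ _ (by decide))
  have hBe0 : B (e (ee 0)) = a := hBe 0
  have hBe1 : B (e (ee 1)) = b := hBe 1
  have hBe2 : B (e (ee 2)) = a' := hBe 2
  have hBe3 : B (e (ee 3)) = b' := hBe 3
  rw [hBe0] at w₀
  rw [hBe1] at w₁
  rw [hBe2] at w₂
  rw [hBe3] at w₃
  -- keys
  obtain ⟨In, hIn⟩ : ∃ In : Key → V → Prop, In = fun k x => match k with
    | .inl p => At B L (e p.1) (e p.2) x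
    | .inr false => x ∈ a :: (l ++ [b])
    | .inr true => x ∈ a' :: (l' ++ [b']) := ⟨_, rfl⟩
  have hIl : ∀ i j x, In (.inl (i, j)) x ↔ At B L (e i) (e j) x := by
    intro i j x; rw [hIn]
  have hIf : ∀ x, In (.inr false) x ↔ x ∈ a :: (l ++ [b]) := by
    intro x; rw [hIn]
  have hIt : ∀ x, In (.inr true) x ↔ x ∈ a' :: (l' ++ [b']) := by
    intro x; rw [hIn]
  have hgoodP : ∀ (p : Bool × Fin 4) (j : Ix) (x : V), At B L (e (.inl p)) (e j) x →
      x ∉ a :: (l ++ [b]) ∧ x ∉ a' :: (l' ++ [b']) := by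
    rintro p j x (⟨-, rfl⟩ | ⟨h1, h2⟩)
    · exact hBg p
    · exact (hgd _ (hgD p)).2 _ h1 x h2
  have hsame : ∀ k k' x, good k = true → good k' = true → In k x → In k' x →
      same k k' = true := by
    rintro (⟨i, j⟩ | s) (⟨i', j'⟩ | t) x g1 g2 h1 h2
    · rw [hIl] at h1 h2
      have := at_dis hKS h1 h2
      rw [hei.eq_iff, hei.eq_iff, hei.eq_iff, hei.eq_iff] at this
      exact decide_eq_true this
    · exfalso
      rcases i with p | k
      · rw [hIl] at h1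
        have := hgoodP p j x h1
        cases t
        · exact this.1 ((hIf x).1 h2)
        · exact this.2 ((hIt x).1 h2)
      · exact Bool.false_ne_true g1
    · exfalso
      rcases i' with p | k
      · rw [hIl] at h2
        have := hgoodP p j' x h2
        cases s
        · exact this.1 ((hIf x).1 h1)
        · exact this.2 ((hIt x).1 h1)
      · exact Bool.false_ne_true g2
    · cases s <;> cases t
      · rfl
      · exact absurd ((hIt x).1 h2) (hPP x ((hIf x).1 h1))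
      · exact absurd ((hIt x).1 h1) (hPP x ((hIf x).1 h2))
      · rfl
  -- pieces
  set pc : Fin 14 → List V := ![[B (e (ff 0))], [B (e (ff 1))], [B (e (gg 0))], [B (e (gg 1))],
    ρ₀, a :: (l ++ [b]), ρ₁.reverse, ρ₂, a' :: (l' ++ [b']), ρ₃.reverse,
    L (e (ff 0)) (e (gg 0)), L (e (ff 1)) (e (gg 1)), L (e (ff 0)) (e (gg 1)),
    L (e (ff 1)) (e (gg 0))] with hpc
  have hown : ∀ (f g i : Ix) (x : V), (e f).1 ≠ (e g).1 → Own B L (e f) (e g) (e i) x →
      ∃ k ∈ rk f g i, In k x := by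
    rintro f g i x hfg (⟨h1, h2⟩ | h | h | ⟨h1, h2⟩)
    · exact ⟨.inl (f, i), by simp [rk], (hIl _ _ _).2 (Or.inr ⟨h1, h2⟩)⟩
    · exact ⟨.inl (f, g), by simp [rk], (hIl _ _ _).2 (Or.inr ⟨hfg, h⟩)⟩
    · exact ⟨.inl (g, g), by simp [rk], (hIl _ _ _).2 (Or.inl ⟨rfl, h⟩)⟩
    · exact ⟨.inl (g, i), by simp [rk], (hIl _ _ _).2 (Or.inr ⟨h1, h2⟩)⟩
  have hB : ∀ (i : Ix) (x : V), x ∈ [B (e i)] → ∃ k ∈ [(.inl (i, i) : Key)], In k x := by
    intro i x hx
    rw [List.mem_singleton] at hx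
    exact ⟨_, List.mem_singleton_self _, (hIl _ _ _).2 (Or.inl ⟨rfl, hx⟩)⟩
  have hL : ∀ (i j : Ix) (x : V), (e i).1 ≠ (e j).1 → x ∈ L (e i) (e j) →
      ∃ k ∈ [(.inl (i, j) : Key)], In k x := by
    intro i j x hij hx
    exact ⟨_, List.mem_singleton_self _, (hIl _ _ _).2 (Or.inr ⟨hij, hx⟩)⟩
  have hA : ∀ (m : Fin 14) (x : V), x ∈ pc m → ∃ k ∈ A m, In k x := by
    intro m x hx
    fin_cases m
    · exact hB (ff 0) x hx
    · exact hB (ff 1) x hx
    · exact hB (gg 0) x hx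
    · exact hB (gg 1) x hx
    · exact hown (ff 0) (gg 2) (ee 0) x (hfg 0 2) (o₀ x hx)
    · exact ⟨.inr false, List.mem_singleton_self _, (hIf x).2 hx⟩
    · exact hown (ff 1) (gg 3) (ee 1) x (hfg 1 3) (o₁ x (List.mem_reverse.1 hx))
    · exact hown (gg 0) (ff 2) (ee 2) x (hgf 0 2) (o₂ x hx)
    · exact ⟨.inr true, List.mem_singleton_self _, (hIt x).2 hx⟩
    · exact hown (gg 1) (ff 3) (ee 3) x (hgf 1 3) (o₃ x (List.mem_reverse.1 hx))
    · exact hL (ff 0) (gg 0) x (hfg 0 0) hx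
    · exact hL (ff 1) (gg 1) x (hfg 1 1) hx
    · exact hL (ff 0) (gg 1) x (hfg 0 1) hx
    · exact hL (ff 1) (gg 0) x (hfg 1 0) hx
  have hdisj : ∀ m n : Fin 14, m ≠ n → (pc m).Disjoint (pc n) := by
    intro m n hmn x hx hx'
    obtain ⟨k, hk, h1⟩ := hA m x hx
    obtain ⟨k', hk', h2⟩ := hA n x hx'
    have := hsame k k' x (goodA m k hk) (goodA n k' hk') h1 h2
    rw [sameA m n hmn k hk k' hk'] at this
    exact Bool.false_ne_true this
  have hnd : ∀ m : Fin 14, (pc m).Nodup := by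
    intro m
    fin_cases m
    · exact List.nodup_singleton _
    · exact List.nodup_singleton _
    · exact List.nodup_singleton _
    · exact List.nodup_singleton _
    · exact n₀
    · exact hP.nd
    · exact List.nodup_reverse.2 n₁
    · exact n₂
    · exact hP'.nd
    · exact List.nodup_reverse.2 n₃
    · exact hKS.nd _ _ (hfg 0 0)
    · exact hKS.nd _ _ (hfg 1 1)
    · exact hKS.nd _ _ (hfg 0 1)
    · exact hKS.nd _ _ (hfg 1 0)
  have hall : ((([0, 1, 2, 3, 4, 5, 6, 7, 8, 9, 10, 11, 12, 13] : List (Fin 14)).map pc).flatten).Nodup := by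
    rw [List.nodup_flatten]
    refine ⟨?_, ?_⟩
    · intro q hq
      obtain ⟨m, -, rfl⟩ := List.mem_map.1 hq
      exact hnd m
    · rw [List.pairwise_map]
      refine List.Pairwise.imp (R := fun m n : Fin 14 => m ≠ n) (fun h => hdisj _ _ h) ?_
      decide
  -- walks
  have hadj : ∀ x y, G.Adj x y ∧ c x ≠ c y → G.Adj x y := fun x y h => h.1
  have hcol : ∀ x y, G.Adj x y ∧ c x ≠ c y → c x ≠ c y := fun x y h => h.2
  have hsym : ∀ x y, G.Adj x y ∧ c x ≠ c y → G.Adj y x ∧ c y ≠ c x :=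
    fun x y h => ⟨h.1.symm, h.2.symm⟩
  have r₁ := hW.rev V _ hsym _ _ _ w₁
  have r₃ := hW.rev V _ hsym _ _ _ w₃
  have hcf : ∀ k, c (B (e (ff k))) = false := fun k => (hKS.col _).trans (hsf k)
  have hcg : ∀ k, c (B (e (gg k))) = true := fun k => (hKS.col _).trans (hsg k)
  have odd01 : OddP G (B (e (ff 0))) (ρ₀ ++ a :: (l ++ b :: ρ₁.reverse)) (B (e (ff 1))) := by
    refine ⟨?_, ?_⟩
    · rw [hW.app, hW.app]
      exact ⟨hW.mono V _ _ hadj _ _ _ w₀, hP.wk, hW.mono V _ _ hadj _ _ _ r₁⟩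
    · refine even_true (c := c) (a := B (e (ff 0))) (b := B (e (ff 1))) ?_ (by rw [hcf, hcf])
      rw [hW.sgapp, hW.sgapp, hW.ok V c _ hcol _ _ _ w₀, hW.ok V c _ hcol _ _ _ r₁, hP.br]
      rfl
  have odd23 : OddP G (B (e (gg 0))) (ρ₂ ++ a' :: (l' ++ b' :: ρ₃.reverse)) (B (e (gg 1))) := by
    refine ⟨?_, ?_⟩
    · rw [hW.app, hW.app]
      exact ⟨hW.mono V _ _ hadj _ _ _ w₂, hP'.wk, hW.mono V _ _ hadj _ _ _ r₃⟩
    · refine even_true (c := c) (a := B (e (gg 0))) (b := B (e (gg 1))) ?_ (by rw [hcg, hcg])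
      rw [hW.sgapp, hW.sgapp, hW.ok V c _ hcol _ _ _ w₂, hW.ok V c _ hcol _ _ _ r₃, hP'.br]
      rfl
  have oddL : ∀ k k', OddP G (B (e (ff k))) (L (e (ff k)) (e (gg k'))) (B (e (gg k'))) := by
    intro k k'
    have h := hKS.wk _ _ (hfg k k')
    refine ⟨hW.mono V _ _ hadj _ _ _ h, ?_⟩
    refine even_false (hW.ok V c _ hcol _ _ _ h) ?_
    rw [hcf, hcg]
    exact Bool.false_ne_true
  refine ⟨B (e (ff 0)), B (e (ff 1)), B (e (gg 0)), B (e (gg 1)),
    ρ₀ ++ a :: (l ++ b :: ρ₁.reverse), L (e (ff 0)) (e (gg 0)), L (e (ff 0)) (e (gg 1)),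
    L (e (ff 1)) (e (gg 0)), L (e (ff 1)) (e (gg 1)), ρ₂ ++ a' :: (l' ++ b' :: ρ₃.reverse),
    ?_, odd01, odd23, oddL 0 0, oddL 1 1, oddL 0 1, oddL 1 0⟩
  have hfl : (([0, 1, 2, 3, 4, 5, 6, 7, 8, 9, 10, 11, 12, 13] : List (Fin 14)).map pc).flatten =
      B (e (ff 0)) :: B (e (ff 1)) :: B (e (gg 0)) :: B (e (gg 1)) ::
        ((ρ₀ ++ a :: (l ++ b :: ρ₁.reverse)) ++ ((ρ₂ ++ a' :: (l' ++ b' :: ρ₃.reverse)) ++
          (L (e (ff 0)) (e (gg 0)) ++ (L (e (ff 1)) (e (gg 1)) ++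
            (L (e (ff 0)) (e (gg 1)) ++ L (e (ff 1)) (e (gg 0))))))) := by
    change ([[B (e (ff 0))], [B (e (ff 1))], [B (e (gg 0))], [B (e (gg 1))],
      ρ₀, a :: (l ++ [b]), ρ₁.reverse, ρ₂, a' :: (l' ++ [b']), ρ₃.reverse,
      L (e (ff 0)) (e (gg 0)), L (e (ff 1)) (e (gg 1)), L (e (ff 0)) (e (gg 1)),
      L (e (ff 1)) (e (gg 0))] : List (List V)).flatten = _
    simp [List.append_assoc]
  rw [hfl] at hall
  exact hall

end Pool.Agent.Lib.MPded8ec.SG
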