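import Pool.Agent.Lib.MP_ded8ec_lc.SG.SpecB

/-! # MP_ded8ec_lc, SG, module AUG: a matching of the port graph gives two disjoint breaking paths. -/

set_option autoImplicit false

namespace Pool.Agent.Lib.MPded8ec.SG

universe u

namespace AUGM

section

variable {V : Type u} [DecidableEq V] {R : Finset V} {c : V → Bool}

/-- The involution of the ports. -/
def tau (R : Finset V) (c : V → Bool) (p : Port R c) : Port R c :=
  if h : p.1.1 ∈ R then p else ⟨(p.1.1, !p.1.2), fun h' => absurd h' h⟩

theorem tau_of_mem {p : Port R c} (h : p.1.1 ∈ R) : tau R c p = p := dif_pos h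

theorem tau_of_not_mem {p : Port R c} (h : p.1.1 ∉ R) :
    tau R c p = ⟨(p.1.1, !p.1.2), fun h' => absurd h' h⟩ := dif_neg h

theorem tau_fst (p : Port R c) : (tau R c p).1.1 = p.1.1 := by
  by_cases h : p.1.1 ∈ R
  · rw [tau_of_mem h]
  · rw [tau_of_not_mem h]

theorem tau_snd {p : Port R c} (h : p.1.1 ∉ R) : (tau R c p).1.2 = !p.1.2 := by
  rw [tau_of_not_mem h]

theorem tau_tau (p : Port R c) : tau R c (tau R c p) = p := by
  by_cases h : p.1.1 ∈ R
  · rw [tau_of_mem h, tau_of_mem h]
  · apply Subtype.ext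
    apply Prod.ext
    · rw [tau_fst, tau_fst]
    · have h1 : (tau R c p).1.1 ∉ R := by rwa [tau_fst]
      rw [tau_snd h1, tau_snd h, Bool.not_not]

theorem tau_eq_iff (p : Port R c) : tau R c p = p ↔ p.1.1 ∈ R := by
  refine ⟨fun h => ?_, tau_of_mem⟩
  by_contra h1
  have h2 := tau_snd h1
  rw [h] at h2
  exact (Bool.not_eq_self p.1.2).1 h2.symm

theorem same {p q : Port R c} (h : q.1.1 = p.1.1) : q = p ∨ q = tau R c p := by
  by_cases h1 : p.1.1 ∈ R
  · left
    apply Subtype.ext
    apply Prod.ext h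
    have h2 := p.2 h1
    have h3 := q.2 (by rw [h]; exact h1)
    rw [h3, h2, h]
  · by_cases h2 : q.1.2 = p.1.2
    · left
      exact Subtype.ext (Prod.ext h h2)
    · right
      apply Subtype.ext
      apply Prod.ext
      · rw [tau_fst, h]
      · rw [tau_snd h1]
        cases hq : q.1.2 <;> cases hp : p.1.2 <;> simp_all

/-- The list of all vertices of the path. -/
theorem list_eq {α : Type u} (v : ℕ → α) (m : ℕ) (hm : 0 < m) :
    v 0 :: ((List.range (m - 1)).map (fun i => v (i + 1)) ++ [v m]) =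
      (List.range (m + 1)).map v := by
  obtain ⟨k, rfl⟩ : ∃ k, m = k + 1 := ⟨m - 1, by omega⟩
  rw [List.range_succ, List.range_succ_eq_map, Nat.add_sub_cancel, List.map_append, List.map_cons,
    List.map_map]
  rfl

theorem walk {α : Type u} (r : α → α → Prop) (m : ℕ) : ∀ (v : ℕ → α),
    (∀ i < m + 1, r (v i) (v (i + 1))) →
    Wk r (v 0) ((List.range m).map (fun i => v (i + 1))) (v (m + 1)) := by
  induction m with
  | zero =>
    intro v h
    exact h 0 (by omega)
  | succ k ih =>
    intro v h
    rw [List.range_succ_eq_map, List.map_cons, List.map_map]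
    exact ⟨h 0 (by omega), ih (fun i => v (i + 1)) fun i hi => h (i + 1) (by omega)⟩

variable (G : SimpleGraph V) {μ : Port R c → Port R c}
  (hadj : ∀ x, μ x ≠ x → (PG G R c).Adj x (μ x))

include hadj in
theorem step {x : ℕ → Port R c} {m : ℕ} (ho : Orb (tau R c) μ x m) {i : ℕ} (hi : i < m) :
    G.Adj (x i).1.1 (x (i + 1)).1.1 ∧ (i + 1 < m → (x (i + 1)).1.2 = !(x i).1.2) ∧
      (i + 1 = m → (x (i + 1)).1.2 = (x i).1.2) := by
  have hst := ho.step i hi
  have hin := ho.inj (i + 1) (by omega) i (by omega) (by omega)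
  have h1 : μ (x i) ≠ x i := by
    intro h
    rw [h] at hst
    exact hin.2 hst
  have h2 : μ (x i) ≠ tau R c (x i) := by
    intro h
    rw [h, tau_tau] at hst
    exact hin.1 hst
  have h3 : G.Adj (x i).1.1 (μ (x i)).1.1 ∧ (x i).1.2 = (μ (x i)).1.2 := by
    rcases hadj (x i) h1 with h | h
    · rcases same h.1.symm with h4 | h4
      · exact absurd h4 h1
      · exact absurd h4 h2
    · exact h
  have hv : (x (i + 1)).1.1 = (μ (x i)).1.1 := by rw [hst, tau_fst]
  refine ⟨by rw [hv]; exact h3.1, fun h4 => ?_, fun h4 => ?_⟩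
  · have h5 := ho.mid (i + 1) (by omega) h4
    rw [ne_eq, tau_eq_iff, hv] at h5
    rw [hst, tau_snd h5, h3.2]
  · have h5 := ho.last
    rw [← h4, tau_eq_iff, hv] at h5
    rw [hst, tau_of_mem h5, h3.2]

include hadj in
theorem path {x : ℕ → Port R c} {m : ℕ} (ho : Orb (tau R c) μ x m) :
    BP G R c (x 0).1.1 ((List.range (m - 1)).map (fun i => (x (i + 1)).1.1)) (x m).1.1 := by
  have hm := ho.pos
  obtain ⟨k, rfl⟩ : ∃ k, m = k + 1 := ⟨m - 1, by omega⟩
  have h0 : (x 0).1.1 ∈ R := (tau_eq_iff _).1 ho.first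
  have hl : (x (k + 1)).1.1 ∈ R := (tau_eq_iff _).1 ho.last
  refine ⟨h0, hl, ?_, ?_, ?_, ?_⟩
  · exact walk G.Adj k (fun i => (x i).1.1) fun i hi => (step G hadj ho hi).1
  · rw [list_eq (fun i => (x i).1.1) (k + 1) hm]
    refine List.Nodup.map_on ?_ List.nodup_range
    intro i hi j hj hij
    by_contra hne
    have h1 := ho.inj i (by have := List.mem_range.1 hi; omega) j
      (by have := List.mem_range.1 hj; omega) hne
    rcases same hij with h2 | h2
    · exact h1.1 h2
    · exact h1.2 h2
  · intro y hy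
    obtain ⟨i, hi, rfl⟩ := List.mem_map.1 hy
    have h1 := ho.mid (i + 1) (by omega) (by have := List.mem_range.1 hi; omega)
    rwa [ne_eq, tau_eq_iff] at h1
  · have hk : ∀ i, i ≤ k → (x i).1.2 = xor (x 0).1.2 (!decide (Even i)) := by
      intro i
      induction i with
      | zero => intro _; simp
      | succ j ih =>
        intro hj
        rw [(step G hadj ho (i := j) (by omega)).2.1 (by omega), ih (by omega)]
        rcases Nat.even_or_odd j with he | he
        · have h2 : ¬ Even (j + 1) := by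
            rw [Nat.even_add_one]
            exact not_not.2 he
          simp [he, h2]
        · have h2 : ¬ Even j := Nat.not_even_iff_odd.2 he
          have h3 : Even (j + 1) := by
            rw [Nat.even_add_one]
            exact h2
          simp [h2, h3]
    have hkk : (x (k + 1)).1.2 = xor (x 0).1.2 (!decide (Even k)) := by
      rw [(step G hadj ho (i := k) (by omega)).2.2 rfl]
      exact hk k le_rfl
    have hc0 := (x 0).2 h0
    have hcl := (x (k + 1)).2 hl
    unfold sg
    rw [← hc0, ← hcl, hkk, List.length_map, List.length_range, Nat.add_sub_cancel]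
    cases (x 0).1.2 <;> cases decide (Even k) <;> rfl

end

end AUGM

open AUGM in
theorem specAUG (hORB : SpecORB.{u}) (_hWKL : SpecWKL.{u}) : SpecAUG.{u} := by
  intro V _ _ G R c hR μ hμ hadj hfix
  have hcard : R.card ≤ (Finset.univ.filter fun x : Port R c => tau R c x = x).card := by
    refine Finset.card_le_card_of_injOn (fun r => (⟨(r, c r), fun _ => rfl⟩ : Port R c)) ?_ ?_
    · intro r hr
      exact Finset.mem_coe.2 (Finset.mem_filter.2 ⟨Finset.mem_univ _, tau_of_mem hr⟩)
    · intro r _ r' _ h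
      exact congrArg (fun p : Port R c => p.1.1) h
  obtain ⟨x, y, m, n, hx, hy, hd⟩ := hORB (Port R c) (tau R c) μ tau_tau hμ (by omega)
  refine ⟨_, _, _, _, _, _, path G hadj hx, path G hadj hy, ?_⟩
  intro z hz hz'
  rw [list_eq (fun i => (x i).1.1) m hx.pos] at hz
  rw [list_eq (fun i => (y i).1.1) n hy.pos] at hz'
  obtain ⟨i, hi, rfl⟩ := List.mem_map.1 hz
  obtain ⟨j, hj, hij⟩ := List.mem_map.1 hz'
  have h1 := hd i (by have := List.mem_range.1 hi; omega) j
    (by have := List.mem_range.1 hj; omega)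
  rcases same hij.symm with h2 | h2
  · exact h1.1 h2
  · exact h1.2 h2

end Pool.Agent.Lib.MPded8ec.SG
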