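import Pool.Agent.Lib.MP_ded8ec_lc.SG.SpecA

/-!
# Seymour graphs (MP_ded8ec_lc), module BIP: bipartite multigraphs

helper72, for captain helper29.
-/

set_option autoImplicit false

namespace Pool.Agent.Lib.MPded8ec.SG

universe u v

namespace BIPM

section

variable {V : Type u} {ε : Type v} [DecidableEq V] [DecidableEq ε]

theorem mem_off (s t : ε → V) (v : V) (E : Finset ε) (e : ε) :
    e ∈ off s t v E ↔ e ∈ E ∧ ¬ (s e = v ∨ t e = v) := by
  unfold off
  exact Finset.mem_filter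

theorem ctr_at_s (s t : ε → V) (v : V) (E : Finset ε) (e : ε) (he : e ∈ E)
    (h : s e = v ∨ t e = v) : ctr s t v E (s e) = v := by
  unfold ctr
  rw [if_pos ⟨e, he, h, Or.inl rfl⟩]

theorem ctr_at_t (s t : ε → V) (v : V) (E : Finset ε) (e : ε) (he : e ∈ E)
    (h : s e = v ∨ t e = v) : ctr s t v E (t e) = v := by
  unfold ctr
  rw [if_pos ⟨e, he, h, Or.inr rfl⟩]

/-- The induction step. -/
theorem step (s t : ε → V) (c : V → Bool) (E F : Finset ε)
    (hc : ∀ e ∈ E, c (s e) ≠ c (t e)) (hF : F ⊆ E) (v : V) (f₀ : ε) (hf₀ : f₀ ∈ F)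
    (hv : s f₀ = v ∨ t f₀ = v) (hu : ∀ f ∈ F, (s f = v ∨ t f = v) → f = f₀)
    (X' : ε → Set V)
    (h1 : ∀ f ∈ F.erase f₀, ∀ g ∈ F.erase f₀, f ≠ g → ∀ e ∈ off s t v E,
      ¬ (sep (fun e => ctr s t v E (s e)) (fun e => ctr s t v E (t e)) (X' f) e ∧
        sep (fun e => ctr s t v E (s e)) (fun e => ctr s t v E (t e)) (X' g) e))
    (h2 : ∀ f ∈ F.erase f₀, ∀ g ∈ F.erase f₀,
      sep (fun e => ctr s t v E (s e)) (fun e => ctr s t v E (t e)) (X' f) g ↔ g = f) :
    ∃ X : ε → Set V,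
      (∀ f ∈ F, ∀ g ∈ F, f ≠ g → ∀ e ∈ E, ¬ (sep s t (X f) e ∧ sep s t (X g) e)) ∧
      ∀ f ∈ F, ∀ g ∈ F, sep s t (X f) g ↔ g = f := by
  -- the family
  have key : ∃ X : ε → Set V, X f₀ = {v} ∧
      ∀ f, f ≠ f₀ → X f = {x | ctr s t v E x ∈ X' f} := by
    refine ⟨fun f => if f = f₀ then {v} else {x | ctr s t v E x ∈ X' f}, ?_, ?_⟩
    · exact if_pos rfl
    · intro f hf
      exact if_neg hf
  obtain ⟨X, hX0, hX⟩ := key
  -- an edge at `v` is not separated by `X f`, `f ≠ f₀`
  have a1 : ∀ f, f ≠ f₀ → ∀ e ∈ E, (s e = v ∨ t e = v) → ¬ sep s t (X f) e := by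
    intro f hf e he hev hs
    rw [hX f hf] at hs
    apply hs
    show ctr s t v E (s e) ∈ X' f ↔ ctr s t v E (t e) ∈ X' f
    rw [ctr_at_s s t v E e he hev, ctr_at_t s t v E e he hev]
  -- an edge not at `v` is not separated by `{v}`
  have a2 : ∀ e, ¬ (s e = v ∨ t e = v) → ¬ sep s t (X f₀) e := by
    intro e hev hs
    rw [hX0] at hs
    apply hs
    constructor
    · intro h
      exact absurd (Or.inl h) hev
    · intro h
      exact absurd (Or.inr h) hev
  -- an edge at `v` is separated by `{v}`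
  have a3 : ∀ e ∈ E, (s e = v ∨ t e = v) → sep s t (X f₀) e := by
    intro e he hev
    rw [hX0]
    intro hs
    apply hc e he
    rcases hev with h | h
    · have h' : t e = v := hs.mp h
      rw [h, h']
    · have h' : s e = v := hs.mpr h
      rw [h, h']
  -- other edges
  have a4 : ∀ f, f ≠ f₀ → ∀ e, (sep s t (X f) e ↔
      sep (fun e => ctr s t v E (s e)) (fun e => ctr s t v E (t e)) (X' f) e) := by
    intro f hf e
    rw [hX f hf]
    exact Iff.rfl
  refine ⟨X, ?_, ?_⟩
  · intro f hf g hg hfg e he hs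
    by_cases hev : s e = v ∨ t e = v
    · by_cases hff : f = f₀
      · have hgg : g ≠ f₀ := fun h => hfg (hff.trans h.symm)
        exact a1 g hgg e he hev hs.2
      · exact a1 f hff e he hev hs.1
    · by_cases hff : f = f₀
      · rw [hff] at hs
        exact a2 e hev hs.1
      · by_cases hgg : g = f₀
        · rw [hgg] at hs
          exact a2 e hev hs.2
        · exact h1 f (Finset.mem_erase.mpr ⟨hff, hf⟩) g (Finset.mem_erase.mpr ⟨hgg, hg⟩) hfg e
            ((mem_off s t v E e).mpr ⟨he, hev⟩)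
            ⟨(a4 f hff e).mp hs.1, (a4 g hgg e).mp hs.2⟩
  · intro f hf g hg
    by_cases hff : f = f₀
    · rw [hff]
      by_cases hgg : g = f₀
      · rw [hgg]
        exact ⟨fun _ => rfl, fun _ => a3 f₀ (hF hf₀) hv⟩
      · constructor
        · intro hs
          exact absurd hs (a2 g fun h => hgg (hu g hg h))
        · intro h
          exact absurd h hgg
    · by_cases hgg : g = f₀
      · constructor
        · intro hs
          rw [hgg] at hs
          exact absurd hs (a1 f hff f₀ (hF hf₀) hv)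
        · intro h
          exact absurd (h.symm.trans hgg) hff
      · rw [a4 f hff g]
        exact h2 f (Finset.mem_erase.mpr ⟨hff, hf⟩) g (Finset.mem_erase.mpr ⟨hgg, hg⟩)

end

/-- The induction. -/
theorem main (hO : SpecONE.{u, v}) (hC : SpecCTR.{u, v}) (V : Type u) (ε : Type v) [Fintype V]
    [DecidableEq V] [DecidableEq ε] (n : ℕ) :
    ∀ (s t : ε → V) (c : V → Bool) (E F : Finset ε) (_ : ∀ e ∈ E, c (s e) ≠ c (t e))
    (_ : F ⊆ E) (_ : Cons s t E F) (_ : F.card = n), ∃ X : ε → Set V,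
      (∀ f ∈ F, ∀ g ∈ F, f ≠ g → ∀ e ∈ E, ¬ (sep s t (X f) e ∧ sep s t (X g) e)) ∧
      ∀ f ∈ F, ∀ g ∈ F, sep s t (X f) g ↔ g = f := by
  induction n with
  | zero =>
    intro s t c E F _ _ _ hn
    have hF0 : F = ∅ := Finset.card_eq_zero.mp hn
    refine ⟨fun _ => ∅, ?_, ?_⟩
    · intro f hf
      rw [hF0] at hf
      exact absurd hf (Finset.notMem_empty f)
    · intro f hf
      rw [hF0] at hf
      exact absurd hf (Finset.notMem_empty f)
  | succ n ih =>
    intro s t c E F hc hF hcons hn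
    have hne : F.Nonempty := by
      rw [← Finset.card_pos, hn]
      exact Nat.succ_pos n
    obtain ⟨v, f₀, hf₀, hv, hu, h2⟩ := hO V ε s t c E F hc hF hcons hne
    have hcol := hC.col V ε s t c E hc v
    have hco := hC.cons V ε s t c E F hc hF hcons v f₀ hf₀ hv hu h2
    have hsub : F.erase f₀ ⊆ off s t v E := by
      intro f hf
      have hf' := Finset.mem_erase.mp hf
      exact (mem_off s t v E f).mpr ⟨hF hf'.2, fun h => hf'.1 (hu f hf'.2 h)⟩
    have hcard : (F.erase f₀).card = n := by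
      rw [Finset.card_erase_of_mem hf₀, hn]
      rfl
    obtain ⟨X', hX1, hX2⟩ := ih (fun e => ctr s t v E (s e)) (fun e => ctr s t v E (t e))
      (ctc c v) (off s t v E) (F.erase f₀) hcol hsub hco hcard
    exact step s t c E F hc hF v f₀ hf₀ hv hu X' hX1 hX2

end BIPM

theorem specBIP (hO : SpecONE.{u, v}) (hC : SpecCTR.{u, v}) : SpecBIP.{u, v} := by
  intro V ε _ _ _ s t c E F hc hF hcons
  exact BIPM.main hO hC V ε F.card s t c E F hc hF hcons rfl

end Pool.Agent.Lib.MPded8ec.SG
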