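import Pool.Agent.Lib.MP_ded8ec_lc.SG.SpecB

/-!
# SG, module CLS (helper26)
-/

set_option autoImplicit false

namespace Pool.Agent.Lib.MPded8ec.SG

universe u v

theorem specCLS : SpecCLS.{u, v} := by
  intro V Q _ _ _ _ G R c hR X κ g hE
  have key : ∀ a b, a ∉ X → b ∉ X → G.Adj a b → κ a = κ b → g a = g b := fun a b ha hb =>
    hE.mono a b ha (Finset.notMem_empty _) hb (Finset.notMem_empty _)
  obtain ⟨M, hM⟩ : ∃ M : Q → Finset V, M = fun q =>
    Finset.univ.filter fun v => v ∉ X ∧ v ∉ (∅ : Finset V) ∧ g v = q := ⟨_, rfl⟩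
  have hnum : X.card + ∑ q, (M q).card / 2 ≤ 1 := by
    rw [hM]
    exact hE.num
  have memM : ∀ v q, v ∈ M q ↔ v ∉ X ∧ g v = q := by
    intro v q
    rw [hM]
    simp
  have one : ∀ q, (M q).card / 2 ≤ ∑ q, (M q).card / 2 := fun q =>
    Finset.single_le_sum (f := fun q => (M q).card / 2) (fun _ _ => Nat.zero_le _)
      (Finset.mem_univ q)
  have big : ∀ a b, a ∉ X → b ∉ X → G.Adj a b → κ a = κ b → 1 < (M (g b)).card := by
    intro a b ha hb hab hk
    exact Finset.one_lt_card.2 ⟨a, (memM _ _).2 ⟨ha, key a b ha hb hab hk⟩, b,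
      (memM _ _).2 ⟨hb, rfl⟩, hab.ne⟩
  by_cases hX : X.card = 1
  · left
    obtain ⟨x, hx⟩ := Finset.card_eq_one.1 hX
    refine ⟨x, κ, fun a b ha hb hab hk => ?_⟩
    have ha' : a ∉ X := by rw [hx, Finset.mem_singleton]; exact ha
    have hb' : b ∉ X := by rw [hx, Finset.mem_singleton]; exact hb
    have h1 := big a b ha' hb' hab hk
    have h2 := one (g b)
    omega
  have hX0 : X = ∅ := by
    rw [← Finset.card_eq_zero]
    omega
  have hnX : ∀ a, a ∉ X := fun a => by rw [hX0]; exact Finset.notMem_empty a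
  by_cases h2 : ∃ q, 2 ≤ (M q).card
  · obtain ⟨q, hq⟩ := h2
    have hq3 : (M q).card ≤ 3 := by
      have := one q
      omega
    have uniq : ∀ q', 2 ≤ (M q').card → q' = q := by
      intro q' hq'
      by_contra hne
      have h3 : ∑ q ∈ {q', q}, (M q).card / 2 ≤ ∑ q, (M q).card / 2 :=
        Finset.sum_le_sum_of_subset (Finset.subset_univ _)
      rw [Finset.sum_pair hne] at h3
      omega
    have edge : ∀ a b, G.Adj a b → κ a = κ b → a ∈ M q ∧ b ∈ M q := by
      intro a b hab hk
      have h3 := uniq _ (big a b (hnX a) (hnX b) hab hk)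
      exact ⟨(memM _ _).2 ⟨hnX a, (key a b (hnX a) (hnX b) hab hk).trans h3⟩,
        (memM _ _).2 ⟨hnX b, h3⟩⟩
    rcases (by omega : (M q).card = 2 ∨ (M q).card = 3) with h4 | h4
    · left
      obtain ⟨a, b, hab, hMq⟩ := Finset.card_eq_two.1 h4
      refine ⟨a, κ, fun x y hx hy hxy hk => ?_⟩
      obtain ⟨h5, h6⟩ := edge x y hxy hk
      rw [hMq, Finset.mem_insert, Finset.mem_singleton] at h5 h6
      exact hxy.ne ((h5.resolve_left hx).trans (h6.resolve_left hy).symm)
    · obtain ⟨a, b, d, hab, had, hbd, hMq⟩ := Finset.card_eq_three.1 h4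
      have mem3 : ∀ x, x ∈ M q ↔ x = a ∨ x = b ∨ x = d := by
        intro x
        rw [hMq, Finset.mem_insert, Finset.mem_insert, Finset.mem_singleton]
      by_cases e1 : G.Adj a b ∧ κ a = κ b
      · by_cases e2 : G.Adj a d ∧ κ a = κ d
        · by_cases e3 : G.Adj b d ∧ κ b = κ d
          · right
            exact ⟨κ, a, b, d,
              { a₁₂ := e1.1
                a₁₃ := e2.1
                a₂₃ := e3.1
                k₁₂ := e1.2
                k₁₃ := e2.2
                col := fun r hr => hE.col r hr (hnX r)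
                only := fun x y hxy hk => by
                  obtain ⟨h5, h6⟩ := edge x y hxy hk
                  exact ⟨(mem3 x).1 h5, (mem3 y).1 h6⟩ }⟩
          · left
            refine ⟨a, κ, fun x y hx hy hxy hk => ?_⟩
            obtain ⟨h5, h6⟩ := edge x y hxy hk
            rcases ((mem3 x).1 h5).resolve_left hx with rfl | rfl <;>
              rcases ((mem3 y).1 h6).resolve_left hy with rfl | rfl
            · exact hxy.ne rfl
            · exact e3 ⟨hxy, hk⟩
            · exact e3 ⟨hxy.symm, hk.symm⟩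
            · exact hxy.ne rfl
        · left
          refine ⟨b, κ, fun x y hx hy hxy hk => ?_⟩
          obtain ⟨h5, h6⟩ := edge x y hxy hk
          rcases (mem3 x).1 h5 with rfl | h7 | rfl
          · rcases (mem3 y).1 h6 with rfl | h8 | rfl
            · exact hxy.ne rfl
            · exact hy h8
            · exact e2 ⟨hxy, hk⟩
          · exact hx h7
          · rcases (mem3 y).1 h6 with rfl | h8 | rfl
            · exact e2 ⟨hxy.symm, hk.symm⟩
            · exact hy h8
            · exact hxy.ne rfl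
      · left
        refine ⟨d, κ, fun x y hx hy hxy hk => ?_⟩
        obtain ⟨h5, h6⟩ := edge x y hxy hk
        rcases (mem3 x).1 h5 with rfl | rfl | h7
        · rcases (mem3 y).1 h6 with rfl | rfl | h8
          · exact hxy.ne rfl
          · exact e1 ⟨hxy, hk⟩
          · exact hy h8
        · rcases (mem3 y).1 h6 with rfl | rfl | h8
          · exact e1 ⟨hxy.symm, hk.symm⟩
          · exact hxy.ne rfl
          · exact hy h8
        · exact hx h7
  · left
    push Not at h2
    obtain ⟨r, -⟩ := Finset.card_pos.1 (lt_of_lt_of_le (by norm_num : 0 < 4) hR)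
    refine ⟨r, κ, fun a b _ _ hab hk => ?_⟩
    have h3 := big a b (hnX a) (hnX b) hab hk
    have h4 := h2 (g b)
    omega

end Pool.Agent.Lib.MPded8ec.SG
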