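import Pool.Agent.Lib.MP_ded8ec_lc.SG.SpecB

/-!
# Seymour graphs (MP_ded8ec_lc), module CNT: counting (helper67)
-/

set_option autoImplicit false

namespace Pool.Agent.Lib.MPded8ec.SG

universe u v

namespace CNTM

section

variable {V : Type u} [Fintype V] [DecidableEq V] {R : Finset V} {c : V → Bool}

/-- The port `(v, b)` exists and is not in `S`. -/
def O (S : Finset (Port R c)) (v : V) (b : Bool) : Prop :=
  ∃ h : (v ∈ R → b = c v), (⟨(v, b), h⟩ : Port R c) ∉ S

/-- The number of ports. -/
lemma card_port (R : Finset V) (c : V → Bool) :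
    Fintype.card (Port R c) + R.card = 2 * Fintype.card V := by
  classical
  have h1 : Fintype.card (Port R c) =
      (Finset.univ.filter fun q : V × Bool => q.1 ∈ R → q.2 = c q.1).card :=
    Fintype.card_subtype _
  have h2 : (Finset.univ.filter fun q : V × Bool => ¬ (q.1 ∈ R → q.2 = c q.1)) =
      R.image fun r => (r, !c r) := by
    ext ⟨v, b⟩
    simp only [Finset.mem_filter, Finset.mem_univ, true_and, Finset.mem_image, Prod.mk.injEq]
    constructor
    · intro h
      push Not at h
      refine ⟨v, h.1, rfl, ?_⟩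
      have h3 := h.2
      cases b <;> cases hc : c v <;> simp_all
    · rintro ⟨r, hr, rfl, rfl⟩ h
      have h3 := h hr
      cases hc : c r <;> simp_all
  have h3 : (R.image fun r => (r, !c r)).card = R.card :=
    Finset.card_image_of_injective _ fun a b h => (Prod.mk.inj h).1
  have h4 := Finset.card_filter_add_card_filter_not
    (s := (Finset.univ : Finset (V × Bool))) (fun q : V × Bool => q.1 ∈ R → q.2 = c q.1)
  rw [h2, h3, Finset.card_univ, Fintype.card_prod, Fintype.card_bool, ← h1] at h4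
  omega

/-- Numbers. -/
lemma arith {Q : Type v} [Fintype Q] (m A z : Q → ℕ) (hA : ∀ q, A q = m q + 2 * z q)
    (nS nR nX nZ nV nP : ℕ) (h4 : 4 ≤ nR) (hP : nP + nR = 2 * nV)
    (hsA : nS + ∑ q, A q = nP) (hsz : ∑ q, z q = nZ) (hsm : nX + nZ + ∑ q, m q = nV)
    (hS : nS + (nR - 4) + 2 ≤ (Finset.univ.filter fun q => Odd (A q)).card) :
    nX + ∑ q, m q / 2 ≤ 1 := by
  classical
  have h1 : ∑ q, m q = 2 * ∑ q, m q / 2 + (Finset.univ.filter fun q => Odd (A q)).card := by
    rw [Finset.card_filter, Finset.mul_sum, ← Finset.sum_add_distrib]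
    refine Finset.sum_congr rfl fun q _ => ?_
    have h2 := hA q
    by_cases ho : Odd (A q)
    · rw [if_pos ho]
      obtain ⟨t, ht⟩ := ho
      omega
    · rw [if_neg ho]
      rw [Nat.not_odd_iff_even] at ho
      obtain ⟨t, ht⟩ := ho
      omega
  have h2 : ∑ q, A q = ∑ q, m q + 2 * ∑ q, z q := by
    rw [Finset.mul_sum, ← Finset.sum_add_distrib]
    exact Finset.sum_congr rfl fun q _ => hA q
  omega

end

end CNTM

open CNTM in
theorem specCNT : SpecCNT.{u} := by
  intro V _ _ G R c h4 S f hf hS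
  classical
  have hne : Nonempty (Port R c) := by
    obtain ⟨r, hr⟩ : R.Nonempty := Finset.card_pos.1 (by omega)
    exact ⟨⟨(r, c r), fun _ => rfl⟩⟩
  obtain ⟨X, hX⟩ : ∃ X : Finset V, ∀ v, v ∈ X ↔ ¬ O S v true ∧ ¬ O S v false :=
    ⟨Finset.univ.filter fun v => ¬ O S v true ∧ ¬ O S v false, fun v => by simp⟩
  obtain ⟨Z, hZ⟩ : ∃ Z : Finset V, ∀ v, v ∈ Z ↔ O S v true ∧ O S v false :=
    ⟨Finset.univ.filter fun v => O S v true ∧ O S v false, fun v => by simp⟩
  obtain ⟨κ, hκ⟩ : ∃ κ : V → Bool, ∀ v, κ v = decide (O S v true) := ⟨_, fun _ => rfl⟩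
  obtain ⟨g, hg⟩ : ∃ g : V → Port R c, ∀ v, g v =
    if h : O S v (κ v) then f ⟨(v, κ v), h.1⟩ else Classical.choice hne := ⟨_, fun _ => rfl⟩
  -- the port of the colour `κ v`
  have hO : ∀ v, v ∉ X → O S v (κ v) := by
    intro v hv
    rw [hκ]
    by_cases h : O S v true
    · rwa [decide_eq_true h]
    · rw [decide_eq_false h]
      by_contra h'
      exact hv ((hX v).2 ⟨h, h'⟩)
  have hO1 : ∀ v, v ∉ X → v ∉ Z → ∀ b, O S v b → b = κ v := by
    intro v _ hz b hb
    rw [hκ]
    cases b
    · have h : ¬ O S v true := fun h => hz ((hZ v).2 ⟨h, hb⟩)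
      rw [decide_eq_false h]
    · rw [decide_eq_true hb]
  have hOZ : ∀ v, v ∈ Z → ∀ b, O S v b := by
    intro v hv b
    cases b
    · exact ((hZ v).1 hv).2
    · exact ((hZ v).1 hv).1
  have hOX : ∀ v, v ∈ X → ∀ b, ¬ O S v b := by
    intro v hv b
    cases b
    · exact ((hX v).1 hv).2
    · exact ((hX v).1 hv).1
  have hZX : ∀ v, v ∈ Z → v ∉ X := fun v hz hx => hOX v hx true (hOZ v hz true)
  have hgv : ∀ v (h : O S v (κ v)), g v = f ⟨(v, κ v), h.1⟩ := by
    intro v h
    rw [hg, dif_pos h]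
  have hgZ : ∀ v, v ∈ Z → ∀ b (h : v ∈ R → b = c v), g v = f ⟨(v, b), h⟩ := by
    intro v hv b h
    obtain ⟨h1, h2⟩ := hO v (hZX v hv)
    rw [hgv v ⟨h1, h2⟩]
    by_cases hb : κ v = b
    · subst hb; rfl
    · obtain ⟨h3, h5⟩ := hOZ v hv b
      exact hf _ _ h2 h5 (Or.inl ⟨rfl, hb⟩)
  refine ⟨X, Z, κ, g, ?_, ?_, ?_, ?_, ?_, ?_⟩
  · intro v w hv _ hw _ hvw hk
    obtain ⟨h1, h2⟩ := hO v hv
    obtain ⟨h3, h5⟩ := hO w hw
    rw [hgv v ⟨h1, h2⟩, hgv w ⟨h3, h5⟩]
    exact hf _ _ h2 h5 (Or.inr ⟨hvw, hk⟩)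
  · intro v w hv hw hvw
    obtain ⟨h3, h5⟩ := hO w hw
    obtain ⟨h1, h2⟩ := hOZ v hv (κ w)
    rw [hgZ v hv (κ w) h1, hgv w ⟨h3, h5⟩]
    exact hf _ _ h2 h5 (Or.inr ⟨hvw, rfl⟩)
  · exact Finset.disjoint_left.2 hZX
  · rw [Finset.disjoint_left]
    intro v hz hr
    obtain ⟨h1, -⟩ := hOZ v hz true
    obtain ⟨h2, -⟩ := hOZ v hz false
    exact Bool.noConfusion ((h1 hr).trans (h2 hr).symm)
  · intro r hr hx
    exact (hO r hx).1 hr
  · -- the counting
    have hfib : ∀ q v, ((Finset.univ.filter fun x : Port R c => x ∉ S ∧ f x = q).filter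
        fun x => x.1.1 = v).card =
        (if v ∉ X ∧ v ∉ Z ∧ g v = q then 1 else 0) + 2 * (if v ∈ Z ∧ g v = q then 1 else 0) := by
      intro q v
      by_cases hx : v ∈ X
      · rw [if_neg fun h => h.1 hx, if_neg fun h => hZX v h.1 hx, Finset.card_eq_zero]
        rw [Finset.eq_empty_iff_forall_notMem]
        rintro ⟨⟨w, b⟩, hwb⟩ hm
        simp only [Finset.mem_filter, Finset.mem_univ, true_and] at hm
        obtain ⟨⟨hm1, -⟩, rfl⟩ := hm
        exact hOX w hx b ⟨hwb, hm1⟩
      by_cases hz : v ∈ Z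
      · rw [if_neg fun h => h.2.1 hz]
        obtain ⟨h1, h2⟩ := hOZ v hz true
        obtain ⟨h3, h5⟩ := hOZ v hz false
        by_cases hq : g v = q
        · rw [if_pos ⟨hz, hq⟩]
          have h6 : ((Finset.univ.filter fun x : Port R c => x ∉ S ∧ f x = q).filter
              fun x => x.1.1 = v) = {⟨(v, true), h1⟩, ⟨(v, false), h3⟩} := by
            ext ⟨⟨w, b⟩, hwb⟩
            simp only [Finset.mem_filter, Finset.mem_univ, true_and, Finset.mem_insert,
              Finset.mem_singleton, Subtype.mk.injEq, Prod.mk.injEq]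
            constructor
            · rintro ⟨-, rfl⟩
              cases b
              · exact Or.inr ⟨rfl, rfl⟩
              · exact Or.inl ⟨rfl, rfl⟩
            · rintro (⟨rfl, rfl⟩ | ⟨rfl, rfl⟩)
              · exact ⟨⟨h2, by rw [← hgZ w hz true h1, hq]⟩, rfl⟩
              · exact ⟨⟨h5, by rw [← hgZ w hz false h3, hq]⟩, rfl⟩
          rw [h6, Finset.card_pair]
          intro h
          have := congrArg (fun x : Port R c => x.1.2) h
          simp at this
        · rw [if_neg fun h => hq h.2, Finset.card_eq_zero, Finset.eq_empty_iff_forall_notMem]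
          rintro ⟨⟨w, b⟩, hwb⟩ hm
          simp only [Finset.mem_filter, Finset.mem_univ, true_and] at hm
          obtain ⟨⟨hm1, hm2⟩, rfl⟩ := hm
          exact hq (by rw [← hm2]; exact hgZ w hz b hwb)
      · rw [if_neg fun h : v ∈ Z ∧ g v = q => hz h.1]
        obtain ⟨h1, h2⟩ := hO v hx
        by_cases hq : g v = q
        · rw [if_pos ⟨hx, hz, hq⟩]
          have h6 : ((Finset.univ.filter fun x : Port R c => x ∉ S ∧ f x = q).filter
              fun x => x.1.1 = v) = {⟨(v, κ v), h1⟩} := by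
            ext ⟨⟨w, b⟩, hwb⟩
            simp only [Finset.mem_filter, Finset.mem_univ, true_and,
              Finset.mem_singleton, Subtype.mk.injEq, Prod.mk.injEq]
            constructor
            · rintro ⟨⟨hm1, -⟩, rfl⟩
              exact ⟨rfl, hO1 w hx hz b ⟨hwb, hm1⟩⟩
            · rintro ⟨rfl, rfl⟩
              exact ⟨⟨h2, by rw [← hgv w ⟨h1, h2⟩, hq]⟩, rfl⟩
          rw [h6, Finset.card_singleton]
        · rw [if_neg fun h => hq h.2.2, Finset.card_eq_zero, Finset.eq_empty_iff_forall_notMem]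
          rintro ⟨⟨w, b⟩, hwb⟩ hm
          simp only [Finset.mem_filter, Finset.mem_univ, true_and] at hm
          obtain ⟨⟨hm1, hm2⟩, rfl⟩ := hm
          have hb := hO1 w hx hz b ⟨hwb, hm1⟩
          subst hb
          exact hq (by rw [← hm2]; exact hgv w ⟨hwb, hm1⟩)
    have hA : ∀ q, (Finset.univ.filter fun x : Port R c => x ∉ S ∧ f x = q).card =
        (Finset.univ.filter fun v => v ∉ X ∧ v ∉ Z ∧ g v = q).card +
          2 * (Finset.univ.filter fun v => v ∈ Z ∧ g v = q).card := by
      intro q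
      rw [Finset.card_eq_sum_card_fiberwise (f := fun x : Port R c => x.1.1)
        (t := (Finset.univ : Finset V)) (fun x _ => Finset.mem_coe.2 (Finset.mem_univ _)),
        Finset.sum_congr rfl fun v _ => hfib q v, Finset.sum_add_distrib, ← Finset.mul_sum,
        Finset.card_filter, Finset.card_filter]
    refine arith (fun q => (Finset.univ.filter fun v => v ∉ X ∧ v ∉ Z ∧ g v = q).card)
      (fun q => (Finset.univ.filter fun x : Port R c => x ∉ S ∧ f x = q).card)
      (fun q => (Finset.univ.filter fun v => v ∈ Z ∧ g v = q).card) hA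
      S.card R.card X.card Z.card (Fintype.card V) (Fintype.card (Port R c)) h4
      (card_port R c) ?_ ?_ ?_ hS
    · have h1 : ∑ q, (Finset.univ.filter fun x : Port R c => x ∉ S ∧ f x = q).card =
          (Finset.univ.filter fun x : Port R c => x ∉ S).card := by
        rw [Finset.card_eq_sum_card_fiberwise (f := f)
          (t := (Finset.univ : Finset (Port R c))) (fun x _ => Finset.mem_coe.2 (Finset.mem_univ _))]
        refine Finset.sum_congr rfl fun q _ => ?_
        rw [Finset.filter_filter]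
      have h2 := Finset.card_filter_add_card_filter_not
        (s := (Finset.univ : Finset (Port R c))) (fun x => x ∈ S)
      rw [Finset.card_univ] at h2
      rw [h1, ← h2]
      congr 2
      ext x
      simp
    · have h1 : Z.card = ∑ q, (Z.filter fun v => g v = q).card :=
        Finset.card_eq_sum_card_fiberwise (f := g) (t := (Finset.univ : Finset (Port R c)))
          (fun x _ => Finset.mem_coe.2 (Finset.mem_univ _))
      rw [h1]
      refine Finset.sum_congr rfl fun q _ => ?_
      congr 1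
      ext v
      simp
    · have h1 : (Finset.univ.filter fun v => v ∉ X ∧ v ∉ Z).card =
          ∑ q, (Finset.univ.filter fun v => v ∉ X ∧ v ∉ Z ∧ g v = q).card := by
        rw [Finset.card_eq_sum_card_fiberwise (f := g) (t := (Finset.univ : Finset (Port R c)))
          (fun x _ => Finset.mem_coe.2 (Finset.mem_univ _))]
        refine Finset.sum_congr rfl fun q _ => ?_
        rw [Finset.filter_filter]
        congr 1
        ext v
        simp only [Finset.mem_filter, Finset.mem_univ, true_and, and_assoc]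
      have h2 : (X ∪ Z).card = X.card + Z.card := Finset.card_union_of_disjoint
        (Finset.disjoint_left.2 fun v hx hz => hZX v hz hx)
      have h3 := Finset.card_add_card_compl (X ∪ Z)
      have h5 : (X ∪ Z)ᶜ = Finset.univ.filter fun v => v ∉ X ∧ v ∉ Z := by
        ext v
        simp
      rw [h5, h2, h1] at h3
      exact h3

end Pool.Agent.Lib.MPded8ec.SG
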