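import Pool.Agent.Lib.MP_ded8ec_lc.SG.SpecA

/-!
# Seymour graphs (MP_ded8ec_lc), module CTR: the contraction is bipartite and conservative
-/

set_option autoImplicit false

namespace Pool.Agent.Lib.MPded8ec.SG

universe u v

namespace CTRM

variable {V : Type u} {ε : Type v} [DecidableEq V] [DecidableEq ε]

theorem ctr_cases (s t : ε → V) (v : V) (E : Finset ε) (x : V) :
    (ctr s t v E x = v ∧ ∃ e ∈ E, (s e = v ∨ t e = v) ∧ (s e = x ∨ t e = x)) ∨
      (ctr s t v E x = x ∧ ¬ ∃ e ∈ E, (s e = v ∨ t e = v) ∧ (s e = x ∨ t e = x)) := by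
  unfold ctr
  by_cases h : ∃ e ∈ E, (s e = v ∨ t e = v) ∧ (s e = x ∨ t e = x)
  · left
    rw [if_pos h]
    exact ⟨rfl, h⟩
  · right
    rw [if_neg h]
    exact ⟨rfl, h⟩

/-- The ends of an edge which joins `v` and `x ≠ v`. -/
theorem ends {s t : ε → V} {v x : V} {e : ε} (h1 : s e = v ∨ t e = v) (h2 : s e = x ∨ t e = x)
    (hx : x ≠ v) : (s e = v ∧ t e = x) ∨ (s e = x ∧ t e = v) := by
  rcases h1 with h1 | h1 <;> rcases h2 with h2 | h2
  · exact absurd (h2.symm.trans h1) hx
  · exact Or.inl ⟨h1, h2⟩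
  · exact Or.inr ⟨h2, h1⟩
  · exact absurd (h2.symm.trans h1) hx

theorem ctc_ctr (s t : ε → V) (c : V → Bool) (E : Finset ε) (hc : ∀ e ∈ E, c (s e) ≠ c (t e))
    (v x : V) (hx : x ≠ v) : ctc c v (ctr s t v E x) = c x := by
  rcases ctr_cases s t v E x with ⟨h, e, he, h1, h2⟩ | ⟨h, -⟩
  · rw [h]
    unfold ctc
    rw [if_pos rfl]
    have h3 := hc e he
    rcases ends h1 h2 hx with ⟨ha, hb⟩ | ⟨ha, hb⟩
    · rw [ha, hb] at h3
      revert h3
      cases c v <;> cases c x <;> simp
    · rw [ha, hb] at h3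
      revert h3
      cases c v <;> cases c x <;> simp
  · rw [h]
    unfold ctc
    rw [if_neg hx]

theorem mem_off {s t : ε → V} {v : V} {E : Finset ε} {e : ε} (h : e ∈ off s t v E) :
    e ∈ E ∧ s e ≠ v ∧ t e ≠ v := by
  unfold off at h
  rw [Finset.mem_filter, not_or] at h
  exact h

theorem ind_self (a : V) : ind a a = 1 := by
  unfold ind
  rw [if_pos rfl]

theorem ind_ne {a x : V} (h : a ≠ x) : ind a x = 0 := by
  unfold ind
  rw [if_neg h]

theorem add_self (a : ZMod 2) : a + a = 0 := CharTwo.add_self_eq_zero a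

theorem par_insert (s t : ε → V) (e : ε) (K : Finset ε) (he : e ∉ K) (x : V) :
    par s t (insert e K) x = (ind (s e) x + ind (t e) x) + par s t K x := by
  unfold par
  rw [Finset.sum_insert he]

theorem par_empty (s t : ε → V) (x : V) : par s t ∅ x = 0 := by
  unfold par
  rw [Finset.sum_empty]

theorem len_sing_mem (F : Finset ε) (e : ε) (he : e ∈ F) : len F {e} = -1 := by
  unfold len
  have h1 : ({e} : Finset ε) \ F = ∅ := by
    rw [Finset.sdiff_eq_empty_iff_subset, Finset.singleton_subset_iff]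
    exact he
  have h2 : ({e} : Finset ε) ∩ F = {e} := by
    rw [Finset.inter_eq_left, Finset.singleton_subset_iff]
    exact he
  rw [h1, h2]
  simp

theorem len_sing_notMem (F : Finset ε) (e : ε) (he : e ∉ F) : len F {e} = 1 := by
  unfold len
  have h1 : ({e} : Finset ε) \ F = {e} := by
    rw [Finset.sdiff_eq_self_iff_disjoint, Finset.disjoint_singleton_left]
    exact he
  have h2 : ({e} : Finset ε) ∩ F = ∅ := by
    rw [← Finset.disjoint_iff_inter_eq_empty, Finset.disjoint_singleton_left]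
    exact he
  rw [h1, h2]
  simp

theorem len_insert (hPAR : SpecPAR.{u, v}) (F : Finset ε) (e : ε) (K : Finset ε) (he : e ∉ K) :
    len F (insert e K) = len F {e} + len F K := by
  rw [Finset.insert_eq]
  exact hPAR.lenD ε F {e} K (Finset.disjoint_singleton_left.2 he)

theorem ind_fib [Fintype V] (π : V → V) (a x : V) :
    ind (π a) x = ∑ y ∈ Finset.univ.filter (fun y => π y = x), ind a y := by
  unfold ind
  rw [Finset.sum_ite_eq]
  by_cases h : π a = x
  · rw [if_pos h, if_pos]
    rw [Finset.mem_filter]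
    exact ⟨Finset.mem_univ a, h⟩
  · rw [if_neg h, if_neg]
    rw [Finset.mem_filter]
    exact fun h' => h h'.2

theorem par_fib [Fintype V] (s t : ε → V) (π : V → V) (K : Finset ε) (x : V) :
    par (fun e => π (s e)) (fun e => π (t e)) K x =
      ∑ y ∈ Finset.univ.filter (fun y => π y = x), par s t K y := by
  unfold par
  rw [Finset.sum_comm]
  refine Finset.sum_congr rfl fun e _ => ?_
  rw [Finset.sum_add_distrib, ← ind_fib, ← ind_fib]

/-- An edge joining `v` and `u` (`u ≠ v`). -/
theorem par_edge {s t : ε → V} {v x : V} {e : ε} (h1 : s e = v ∨ t e = v) (h2 : s e = x ∨ t e = x)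
    (hx : x ≠ v) (y : V) : ind (s e) y + ind (t e) y = ind v y + ind x y := by
  rcases ends h1 h2 hx with ⟨ha, hb⟩ | ⟨ha, hb⟩
  · rw [ha, hb]
  · rw [ha, hb, add_comm]

theorem main [Fintype V] (hPAR : SpecPAR.{u, v}) (s t : ε → V) (E F : Finset ε)
    (hC : Cons s t E F) (v : V) (f₀ : ε) (hf₀ : s f₀ = v ∨ t f₀ = v)
    (huniq : ∀ f ∈ F, (s f = v ∨ t f = v) → f = f₀) (hf₀F : f₀ ∈ F)
    (h2 : ∀ C ⊆ E, (∀ x, par s t C x = 0) → f₀ ∉ C → (∃ e ∈ C, s e = v ∨ t e = v) → 2 ≤ len F C) :
    ∀ (n : ℕ) (J : Finset ε), J.card = n → J ⊆ off s t v E →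
      (∀ x, par (fun e => ctr s t v E (s e)) (fun e => ctr s t v E (t e)) J x = 0) →
      0 ≤ len F J := by
  intro n
  induction n using Nat.strong_induction_on with
  | _ n ih =>
  intro J hJn hJ hJ0
  have hJE : J ⊆ E := fun e he => (mem_off (hJ he)).1
  by_cases hU : ∀ y, par s t J y = 0
  · exact hC J hJE hU
  push Not at hU
  obtain ⟨u₁, hu₁⟩ := hU
  -- the elements with `par ≠ 0` are neighbours of `v`
  have hnb : ∀ y, par s t J y ≠ 0 → y ≠ v ∧ ctr s t v E y = v ∧
      ∃ e ∈ E, (s e = v ∨ t e = v) ∧ (s e = y ∨ t e = y) := by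
    intro y hy
    have hyv : y ≠ v := by
      rintro rfl
      apply hy
      unfold par
      refine Finset.sum_eq_zero fun e he => ?_
      have h := mem_off (hJ he)
      rw [ind_ne h.2.1, ind_ne h.2.2, add_zero]
    refine ⟨hyv, ?_⟩
    rcases ctr_cases s t v E y with ⟨h, h'⟩ | ⟨h, h'⟩
    · exact ⟨h, h'⟩
    · exfalso
      apply hy
      rw [← hJ0 y, par_fib]
      symm
      apply Finset.sum_eq_single_of_mem y
      · rw [Finset.mem_filter]
        exact ⟨Finset.mem_univ y, h⟩
      · intro z hz hzy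
        exfalso
        rw [Finset.mem_filter] at hz
        rcases ctr_cases s t v E z with ⟨hz', -⟩ | ⟨hz', -⟩
        · exact hyv (hz.2.symm.trans hz')
        · exact hzy (hz'.symm.trans hz.2)
  classical
  set S : Finset V := Finset.univ.filter
    (fun x => ∃ K ⊆ J, ∀ y, par s t K y = ind u₁ y + ind x y) with hS
  have hSm : ∀ x, x ∈ S ↔ ∃ K ⊆ J, ∀ y, par s t K y = ind u₁ y + ind x y := by
    intro x
    rw [hS, Finset.mem_filter]
    exact ⟨fun h => h.2, fun h => ⟨Finset.mem_univ x, h⟩⟩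
  have hu₁S : u₁ ∈ S := by
    rw [hSm]
    refine ⟨∅, Finset.empty_subset J, fun y => ?_⟩
    rw [par_empty, add_self]
  have hcl : ∀ e ∈ J, (s e ∈ S ↔ t e ∈ S) := by
    intro e he
    constructor
    · intro h
      rw [hSm] at h ⊢
      obtain ⟨K, hK, hKp⟩ := h
      refine ⟨symmDiff K {e}, ?_, fun y => ?_⟩
      · intro z hz
        rw [Finset.mem_symmDiff, Finset.mem_singleton] at hz
        rcases hz with hz | hz
        · exact hK hz.1
        · rw [hz.1]
          exact he
      · rw [hPAR.symm, hPAR.sing, hKp]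
        have h1 : ind u₁ y + ind (s e) y + (ind (s e) y + ind (t e) y) =
            ind u₁ y + ind (t e) y + (ind (s e) y + ind (s e) y) := by ring
        rw [h1, add_self, add_zero]
    · intro h
      rw [hSm] at h ⊢
      obtain ⟨K, hK, hKp⟩ := h
      refine ⟨symmDiff K {e}, ?_, fun y => ?_⟩
      · intro z hz
        rw [Finset.mem_symmDiff, Finset.mem_singleton] at hz
        rcases hz with hz | hz
        · exact hK hz.1
        · rw [hz.1]
          exact he
      · rw [hPAR.symm, hPAR.sing, hKp]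
        have h1 : ind u₁ y + ind (t e) y + (ind (s e) y + ind (t e) y) =
            ind u₁ y + ind (s e) y + (ind (t e) y + ind (t e) y) := by ring
        rw [h1, add_self, add_zero]
  have hsum : ∑ x ∈ S, par s t J x = 0 := by
    rw [hPAR.hand]
    have h0 : (J.filter fun e => ¬ (s e ∈ S ↔ t e ∈ S)) = ∅ := by
      rw [Finset.filter_eq_empty_iff]
      intro e he h
      exact h (hcl e he)
    rw [h0]
    simp
  obtain ⟨u₂, hu₂S, hu₂ne, hu₂⟩ : ∃ u₂ ∈ S, u₂ ≠ u₁ ∧ par s t J u₂ ≠ 0 := by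
    by_contra hcon
    push Not at hcon
    apply hu₁
    rw [← hsum]
    symm
    apply Finset.sum_eq_single_of_mem u₁ hu₁S
    intro z hz hzne
    exact hcon z hz hzne
  rw [hSm] at hu₂S
  obtain ⟨K, hK, hKp⟩ := hu₂S
  obtain ⟨hu₁v, hπ₁, e₁, he₁, h11, h12⟩ := hnb u₁ hu₁
  obtain ⟨hu₂v, hπ₂, e₂, he₂, h21, h22⟩ := hnb u₂ hu₂
  have hKne : K.Nonempty := by
    rw [Finset.nonempty_iff_ne_empty]
    rintro rfl
    have h := hKp u₁
    rw [par_empty, ind_self, ind_ne hu₂ne, add_zero] at h
    exact absurd h.symm one_ne_zero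
  have hne : e₁ ≠ e₂ := by
    rintro rfl
    rcases ends h11 h12 hu₁v with ⟨ha, hb⟩ | ⟨ha, hb⟩ <;>
      rcases ends h21 h22 hu₂v with ⟨hc, hd⟩ | ⟨hc, hd⟩
    · exact hu₂ne (hd.symm.trans hb)
    · exact hu₂v (hc.symm.trans ha)
    · exact hu₁v (ha.symm.trans hc)
    · exact hu₂ne (hc.symm.trans ha)
  have hat : ∀ e, (s e = v ∨ t e = v) → e ∉ K := by
    intro e he hek
    have h := mem_off (hJ (hK hek))
    rcases he with he | he
    · exact h.2.1 he
    · exact h.2.2 he
  have hk2 : e₂ ∉ K := hat e₂ h21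
  have hk1 : e₁ ∉ insert e₂ K := by
    rw [Finset.mem_insert, not_or]
    exact ⟨hne, hat e₁ h11⟩
  have hCE : insert e₁ (insert e₂ K) ⊆ E := by
    intro e he
    rw [Finset.mem_insert, Finset.mem_insert] at he
    rcases he with rfl | rfl | he
    · exact he₁
    · exact he₂
    · exact hJE (hK he)
  have hCp : ∀ x, par s t (insert e₁ (insert e₂ K)) x = 0 := by
    intro x
    rw [par_insert s t e₁ _ hk1, par_insert s t e₂ _ hk2, par_edge h11 h12 hu₁v,
      par_edge h21 h22 hu₂v, hKp]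
    have h1 : ind v x + ind u₁ x + (ind v x + ind u₂ x + (ind u₁ x + ind u₂ x)) =
        (ind v x + ind v x) + ((ind u₁ x + ind u₁ x) + (ind u₂ x + ind u₂ x)) := by ring
    rw [h1, add_self, add_self, add_self, add_zero, add_zero]
  have hlen : len F (insert e₁ (insert e₂ K)) = len F {e₁} + (len F {e₂} + len F K) := by
    rw [len_insert hPAR F e₁ _ hk1, len_insert hPAR F e₂ _ hk2]
  have hK0 : 0 ≤ len F K := by
    by_cases h1 : e₁ = f₀
    · have h3 : e₂ ∉ F := fun h => hne (h1.trans (huniq e₂ h h21).symm)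
      have h4 : e₁ ∈ F := by rw [h1]; exact hf₀F
      have h5 := hC _ hCE hCp
      rw [hlen, len_sing_mem F e₁ h4, len_sing_notMem F e₂ h3] at h5
      omega
    · have h1' : e₁ ∉ F := fun h => h1 (huniq e₁ h h11)
      by_cases h3 : e₂ = f₀
      · have h4 : e₂ ∈ F := by rw [h3]; exact hf₀F
        have h5 := hC _ hCE hCp
        rw [hlen, len_sing_notMem F e₁ h1', len_sing_mem F e₂ h4] at h5
        omega
      · have h3' : e₂ ∉ F := fun h => h3 (huniq e₂ h h21)
        have h5 := h2 _ hCE hCp (by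
          rw [Finset.mem_insert, Finset.mem_insert, not_or, not_or]
          exact ⟨fun h => h1 h.symm, fun h => h3 h.symm, hat f₀ hf₀⟩)
          ⟨e₁, Finset.mem_insert_self _ _, h11⟩
        rw [hlen, len_sing_notMem F e₁ h1', len_sing_notMem F e₂ h3'] at h5
        omega
  -- the rest
  have hrest : 0 ≤ len F (J \ K) := by
    refine ih (J \ K).card ?_ (J \ K) rfl (fun e he => hJ (Finset.mem_sdiff.1 he).1) ?_
    · rw [← hJn]
      refine Finset.card_lt_card ?_
      rw [Finset.ssubset_iff_subset_ne]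
      refine ⟨Finset.sdiff_subset, fun h => ?_⟩
      obtain ⟨k, hk⟩ := hKne
      have : k ∈ J \ K := by
        rw [h]
        exact hK hk
      exact (Finset.mem_sdiff.1 this).2 hk
    · intro x
      have h1 : J \ K = symmDiff J K := by
        ext e
        rw [Finset.mem_symmDiff, Finset.mem_sdiff]
        constructor
        · exact fun h => Or.inl h
        · rintro (h | h)
          · exact h
          · exact absurd (hK h.1) h.2
      rw [h1, hPAR.symm, hJ0, zero_add, par_fib]
      have h2 : ∑ y ∈ Finset.univ.filter (fun y => ctr s t v E y = x), par s t K y =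
          ∑ y ∈ Finset.univ.filter (fun y => ctr s t v E y = x), (ind u₁ y + ind u₂ y) :=
        Finset.sum_congr rfl fun y _ => hKp y
      rw [h2, Finset.sum_add_distrib, ← ind_fib, ← ind_fib, hπ₁, hπ₂, add_self]
  have hsplit : K ∪ (J \ K) = J := by
    rw [Finset.union_sdiff_of_subset hK]
  have hfin := hPAR.lenD ε F K (J \ K) Finset.disjoint_sdiff
  rw [hsplit] at hfin
  rw [hfin]
  omega

end CTRM

theorem specCTR (hPAR : SpecPAR.{u, v}) : SpecCTR.{u, v} where
  col := by
    intro V ε _ _ s t c E hc v e he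
    have h := CTRM.mem_off he
    rw [CTRM.ctc_ctr s t c E hc v (s e) h.2.1, CTRM.ctc_ctr s t c E hc v (t e) h.2.2]
    exact hc e h.1
  cons := by
    intro V ε _ _ _ s t c E F hc hFE hC v f₀ hf₀F hf₀ huniq h2 J hJ hJ0
    have hf : f₀ ∉ J := by
      intro h
      have h' := CTRM.mem_off (hJ h)
      rcases hf₀ with h1 | h1
      · exact h'.2.1 h1
      · exact h'.2.2 h1
    have h1 : J \ F.erase f₀ = J \ F := by
      ext e
      rw [Finset.mem_sdiff, Finset.mem_sdiff, Finset.mem_erase]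
      constructor
      · rintro ⟨ha, hb⟩
        refine ⟨ha, fun h => hb ⟨?_, h⟩⟩
        rintro rfl
        exact hf ha
      · rintro ⟨ha, hb⟩
        exact ⟨ha, fun h => hb h.2⟩
    have h3 : J ∩ F.erase f₀ = J ∩ F := by
      ext e
      rw [Finset.mem_inter, Finset.mem_inter, Finset.mem_erase]
      constructor
      · rintro ⟨ha, hb⟩
        exact ⟨ha, hb.2⟩
      · rintro ⟨ha, hb⟩
        refine ⟨ha, ?_, hb⟩
        rintro rfl
        exact hf ha
    have h4 : len (F.erase f₀) J = len F J := by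
      unfold len
      rw [h1, h3]
    rw [h4]
    exact CTRM.main hPAR s t E F hC v f₀ hf₀ huniq hf₀F h2 J.card J rfl hJ hJ0

end Pool.Agent.Lib.MPded8ec.SG
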