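import Pool.Agent.Lib.MP_ded8ec_lc.SG.SpecB

/-!
# Seymour graphs (MP_ded8ec_lc), module DIC: two disjoint breaking paths, or a vertex meeting all odd
# circuits, or a triangle
-/

set_option autoImplicit false

namespace Pool.Agent.Lib.MPded8ec.SG

universe u v

namespace DICM

/-- There are `2 |V| - |R|` ports. -/
theorem card_port {V : Type u} [Fintype V] [DecidableEq V] (R : Finset V) (c : V → Bool) :
    Fintype.card (Port R c) + R.card = 2 * Fintype.card V := by
  classical
  have h1 : Fintype.card (Port R c) =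
      ((Finset.univ : Finset (V × Bool)).filter fun q => q.1 ∈ R → q.2 = c q.1).card :=
    Fintype.card_subtype _
  have h2 : (R.image fun v => (v, !c v)) =
      (Finset.univ : Finset (V × Bool)).filter fun q => ¬ (q.1 ∈ R → q.2 = c q.1) := by
    ext q
    obtain ⟨v, b⟩ := q
    simp only [Finset.mem_image, Finset.mem_filter, Finset.mem_univ, true_and, Prod.mk.injEq]
    constructor
    · rintro ⟨w, hw, rfl, rfl⟩ h
      have h' := h hw
      cases hc : c w <;> simp [hc] at h'
    · intro h
      have hv : v ∈ R := by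
        by_contra hv
        exact h fun hv' => absurd hv' hv
      have hb : b ≠ c v := fun hb => h fun _ => hb
      refine ⟨v, hv, rfl, ?_⟩
      cases hc : c v <;> cases hb' : b <;> simp_all
  have h3 : (R.image fun v => (v, !c v)).card = R.card :=
    Finset.card_image_of_injective _ fun v w h => (Prod.mk.inj h).1
  have h4 := Finset.card_filter_add_card_filter_not (s := (Finset.univ : Finset (V × Bool)))
    (fun q => q.1 ∈ R → q.2 = c q.1)
  rw [← h2, h3, ← h1, Finset.card_univ, Fintype.card_prod, Fintype.card_bool] at h4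
  omega

theorem even_port {V : Type u} [Fintype V] [DecidableEq V] (R : Finset V) (c : V → Bool)
    (hR : 4 ≤ R.card) : Even (Fintype.card (Port R c) + (R.card - 4)) := by
  have h := card_port R c
  have h' : Fintype.card (Port R c) + (R.card - 4) = 2 * (Fintype.card V - 2) := by omega
  rw [h']
  exact even_two_mul _

end DICM

theorem specDIC (hTBF : SpecTBF.{u}) (hAUG : SpecAUG.{u}) (hCNT : SpecCNT.{u})
    (hSEP : SpecSEP.{u, u}) (hCLS : SpecCLS.{u, u}) : SpecDIC.{u} := by
  intro V _ _ G hG R c hR
  by_cases hμ : ∃ μ : Port R c → Port R c, (∀ x, μ (μ x) = x) ∧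
      (∀ x, μ x ≠ x → (PG G R c).Adj x (μ x)) ∧
      (Finset.univ.filter fun x => μ x = x).card ≤ R.card - 4
  · obtain ⟨μ, h1, h2, h3⟩ := hμ
    exact Or.inl (hAUG V G R c hR μ h1 h2 h3)
  · right
    obtain ⟨S, f, hf, hS⟩ :=
      hTBF (Port R c) (PG G R c) (R.card - 4) (DICM.even_port R c hR) hμ
    obtain ⟨X, Z, κ, g, hE⟩ := hCNT V G R c hR S f hf hS
    have hZ := hSEP V (Port R c) G hG R c hR X Z κ g hE
    subst hZ
    exact hCLS V (Port R c) G R c hR X κ g hE

end Pool.Agent.Lib.MPded8ec.SG
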