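import Pool.Agent.Lib.MP_ded8ec_lc.SG.SpecA

/-!
# Seymour graphs (MP_ded8ec_lc): the module EVN (helper89)

From circuits to edge sets with even degrees.
-/

set_option autoImplicit false

namespace Pool.Agent.Lib.MPded8ec.SG

universe u v

namespace EVNM

open SimpleGraph

theorem dc {V : Type u} [DecidableEq V] (J : Finset (Sym2 V)) (S : Finset V) :
    ∑ z ∈ S, (J.filter fun e => z ∈ e).card = ∑ e ∈ J, (S.filter fun z => z ∈ e).card :=
  Finset.sum_card_bipartiteAbove_eq_sum_card_bipartiteBelow (fun (z : V) (e : Sym2 V) => z ∈ e)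

/-- A nonempty set of edges with even degrees contains the edges of a cycle. -/
theorem cyc {V : Type u} [Fintype V] [DecidableEq V] (G : SimpleGraph V) (J : Finset (Sym2 V))
    (hJ : ∀ e ∈ J, e ∈ G.edgeSet) (hd : ∀ x, Even (J.filter fun e => x ∈ e).card)
    (hne : J.Nonempty) :
    ∃ (u : V) (C : G.Walk u u), C.IsCycle ∧ (∃ e, e ∈ C.edges) ∧ ∀ e ∈ C.edges, e ∈ J := by
  classical
  obtain ⟨e, he⟩ := hne
  induction e with
  | h x y =>
  set H : SimpleGraph V := SimpleGraph.fromEdgeSet (J : Set (Sym2 V)) with hH
  have hle : H ≤ G := by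
    intro a b hab
    rw [hH, fromEdgeSet_adj] at hab
    exact hJ _ (by simpa using hab.1)
  have hxy : H.Adj x y := by
    rw [hH, fromEdgeSet_adj]
    exact ⟨by simpa using he, G.ne_of_adj (hJ _ he)⟩
  have hr : (H.deleteEdges {s(x, y)}).Reachable x y := by
    by_contra hn
    set S : Finset V := Finset.univ.filter fun z => (H.deleteEdges {s(x, y)}).Reachable x z with hS
    have hxS : x ∈ S := by
      rw [hS, Finset.mem_filter]
      exact ⟨Finset.mem_univ _, Reachable.refl _⟩
    have hyS : y ∉ S := by
      rw [hS, Finset.mem_filter]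
      exact fun h => hn h.2
    have hev : Even (∑ z ∈ S, (J.filter fun e => z ∈ e).card) :=
      Finset.even_sum _ (fun z _ => hd z)
    rw [dc J S, ← Finset.add_sum_erase J _ he] at hev
    have hx : (S.filter fun z => z ∈ s(x, y)) = {x} := by
      ext z
      rw [Finset.mem_filter, Finset.mem_singleton, Sym2.mem_iff]
      constructor
      · rintro ⟨hz, rfl | rfl⟩
        · rfl
        · exact absurd hz hyS
      · rintro rfl
        exact ⟨hxS, Or.inl rfl⟩
    have hrest : Even (∑ e ∈ J.erase s(x, y), (S.filter fun z => z ∈ e).card) := by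
      refine Finset.even_sum _ fun e' he' => ?_
      rw [Finset.mem_erase] at he'
      obtain ⟨hne', hmem⟩ := he'
      induction e' with
      | h a b =>
      have hab : a ≠ b := G.ne_of_adj (hJ _ hmem)
      have hadj : (H.deleteEdges {s(x, y)}).Adj a b := by
        rw [deleteEdges_adj]
        refine ⟨?_, ?_⟩
        · rw [hH, fromEdgeSet_adj]
          exact ⟨by simpa using hmem, hab⟩
        · simpa using hne'
      have hiff : a ∈ S ↔ b ∈ S := by
        rw [hS, Finset.mem_filter, Finset.mem_filter]
        constructor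
        · rintro ⟨-, h⟩
          exact ⟨Finset.mem_univ _, h.trans hadj.reachable⟩
        · rintro ⟨-, h⟩
          exact ⟨Finset.mem_univ _, h.trans hadj.symm.reachable⟩
      by_cases haS : a ∈ S
      · have h2 : (S.filter fun z => z ∈ s(a, b)) = {a, b} := by
          ext z
          rw [Finset.mem_filter, Finset.mem_insert, Finset.mem_singleton, Sym2.mem_iff]
          constructor
          · exact fun h => h.2
          · rintro (rfl | rfl)
            · exact ⟨haS, Or.inl rfl⟩
            · exact ⟨hiff.1 haS, Or.inr rfl⟩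
        rw [h2, Finset.card_pair hab]
        exact even_two
      · have h2 : (S.filter fun z => z ∈ s(a, b)) = ∅ := by
          rw [Finset.filter_eq_empty_iff]
          intro z hz hzab
          rw [Sym2.mem_iff] at hzab
          rcases hzab with rfl | rfl
          · exact haS hz
          · exact haS (hiff.2 hz)
        rw [h2, Finset.card_empty]
        exact Even.zero
    rw [hx, Finset.card_singleton] at hev
    have h3 : Even (1 : ℕ) := (Nat.even_add.1 hev).2 hrest
    exact absurd h3 (by decide)
  obtain ⟨u, C, hC, hmem⟩ := adj_and_reachable_delete_edges_iff_exists_cycle.1 ⟨hxy, hr⟩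
  refine ⟨u, C.mapLe hle, hC.mapLe hle, ⟨s(x, y), ?_⟩, ?_⟩
  · rw [Walk.edges_mapLe_eq_edges]
    exact hmem
  · intro e he'
    rw [Walk.edges_mapLe_eq_edges] at he'
    have h4 := C.edges_subset_edgeSet he'
    rw [hH, edgeSet_fromEdgeSet] at h4
    simpa using h4.1

/-- The degrees of a cycle are even. -/
theorem cev {V : Type u} [DecidableEq V] (G : SimpleGraph V) (u : V) (C : G.Walk u u)
    (hC : C.IsCycle) (x : V) : Even (C.edges.toFinset.filter fun e => x ∈ e).card := by
  have h := (hC.isTrail.even_countP_edges_iff x).2 (fun h => absurd rfl h)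
  have h1 : (C.edges.toFinset.filter fun e => x ∈ e).card = C.edges.countP fun e => x ∈ e := by
    have h2 : (C.edges.toFinset.filter fun e => x ∈ e) =
        (C.edges.filter fun e => x ∈ e).toFinset := by
      ext e
      simp
    rw [h2, List.toFinset_card_of_nodup (hC.isTrail.edges_nodup.filter _),
      List.countP_eq_length_filter]
  rw [h1]
  exact h

theorem ncf {V : Type u} (J : Finset (Sym2 V)) (P : Sym2 V → Prop) [DecidablePred P] :
    {e | e ∈ J ∧ P e}.ncard = (J.filter fun e => P e).card := by
  rw [← Set.ncard_coe_finset]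
  congr 1
  ext e
  simp

end EVNM

open EVNM in
theorem specEVN : SpecEVN.{u} := by
  intro V _ _ G F hF J hJ hd
  classical
  induction J using Finset.strongInduction with
  | H J ih =>
  by_cases hne : J.Nonempty
  · obtain ⟨u, C, hC, ⟨e0, he0⟩, hCJ⟩ := cyc G J hJ hd hne
    have hsub : C.edges.toFinset ⊆ J := by
      intro e he
      exact hCJ e (List.mem_toFinset.1 he)
    have hlt : J \ C.edges.toFinset ⊂ J := by
      refine Finset.sdiff_ssubset hsub ⟨e0, List.mem_toFinset.2 he0⟩
    have h1 := ih (J \ C.edges.toFinset) hlt (fun e he => hJ e (Finset.mem_sdiff.1 he).1) (by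
      intro x
      have h2 : ((J \ C.edges.toFinset).filter fun e => x ∈ e).card =
          (J.filter fun e => x ∈ e).card - (C.edges.toFinset.filter fun e => x ∈ e).card := by
        rw [← Finset.card_sdiff_of_subset (Finset.filter_subset_filter _ hsub)]
        congr 1
        ext e
        simp only [Finset.mem_filter, Finset.mem_sdiff]
        tauto
      rw [h2]
      exact (Nat.even_sub (Finset.card_le_card (Finset.filter_subset_filter _ hsub))).2
        ⟨fun _ => cev G u C hC x, fun _ => hd x⟩)
    have h3 := hF.2 u C hC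
    have h4 : ∀ P : Sym2 V → Prop, {e | e ∈ J ∧ P e}.ncard =
        {e | e ∈ J \ C.edges.toFinset ∧ P e}.ncard + {e | e ∈ C.edges ∧ P e}.ncard := by
      intro P
      have h5 : {e | e ∈ C.edges ∧ P e} = {e | e ∈ C.edges.toFinset ∧ P e} := by
        ext e
        simp
      rw [h5, ncf, ncf, ncf, ← Finset.card_union_of_disjoint]
      · congr 1
        ext e
        simp only [Finset.mem_filter, Finset.mem_union, Finset.mem_sdiff]
        constructor
        · rintro ⟨h6, h7⟩
          by_cases h8 : e ∈ C.edges.toFinset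
          · exact Or.inr ⟨h8, h7⟩
          · exact Or.inl ⟨⟨h6, h8⟩, h7⟩
        · rintro (⟨⟨h6, -⟩, h7⟩ | ⟨h6, h7⟩)
          · exact ⟨h6, h7⟩
          · exact ⟨hsub h6, h7⟩
      · rw [Finset.disjoint_left]
        intro e h6 h7
        exact (Finset.mem_sdiff.1 (Finset.mem_filter.1 h6).1).2 (Finset.mem_filter.1 h7).1
    rw [h4 (fun e => e ∈ F), h4 (fun e => e ∉ F)]
    exact Nat.add_le_add h1 h3
  · rw [Finset.not_nonempty_iff_eq_empty] at hne
    subst hne
    simp

end Pool.Agent.Lib.MPded8ec.SG
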