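import Pool.Agent.Lib.MP_ded8ec_lc.SG.SpecC

/-!
# Seymour graphs (MP_ded8ec_lc), module EX1: one exchange step
-/

set_option autoImplicit false

namespace Pool.Agent.Lib.MPded8ec.SG

universe u

namespace EX1M

variable {V : Type u} {s : ℕ}

theorem mem_RS [DecidableEq V] (B : Bool × Fin s → V) (x : V) : x ∈ RS B ↔ ∃ k, B k = x := by
  simp [RS]

/-- The first case. -/
theorem core (hWKL : SpecWKL.{u}) (hCNR : SpecCNR.{u}) (hNBR : SpecNBR.{u})
    (hSEG : SpecSEG.{u}) [DecidableEq V] (G : SimpleGraph V) (c : V → Bool)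
    (B : Bool × Fin s → V) (L : Bool × Fin s → Bool × Fin s → List V) (H : KS G c s B L)
    (a b a' b' : V) (l l' : List V) (h2 : BP2 G (RS B) c a l b a' l' b') (f g : Bool × Fin s)
    (hfg : f.1 ≠ g.1) (m m' : List V) (x : V) (hL : L f g = m ++ x :: m')
    (hm : ∀ z ∈ m, z ∉ a :: (l ++ [b]) ∧ z ∉ a' :: (l' ++ [b']))
    (hB : B f ∉ a :: (l ++ [b]) ∧ B f ∉ a' :: (l' ++ [b'])) (p q : List V)
    (hl : l = p ++ x :: q) (hsg : sg c a p x = true) :
    (b = B g ∧ lastv a l ∈ L f g) ∨
      ∃ a₁ l₁ b₁, BP2 G (RS B) c a₁ l₁ b₁ a' l' b' ∧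
        cnt (WA B L) a₁ l₁ b₁ < cnt (WA B L) a l b := by
  obtain ⟨h1, h1', hdis⟩ := h2
  -- members of the path
  have hpx : ∀ z, z ∈ p ∨ z = x ∨ z ∈ q → z ∈ l := by
    intro z hz
    rw [hl]
    simp only [List.mem_append, List.mem_cons]
    exact hz
  have hxl : x ∈ l := hpx x (Or.inr (Or.inl rfl))
  have hxL : x ∈ L f g := by rw [hL]; simp
  have hmL : ∀ z ∈ m, z ∈ L f g := by
    intro z hz
    rw [hL]
    exact List.mem_append_left _ hz
  have hmm : ∀ z ∈ l, z ∈ a :: (l ++ [b]) := by
    intro z hz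
    exact List.mem_cons_of_mem _ (List.mem_append_left _ hz)
  -- the walks
  have hW : Wk (fun x y => G.Adj x y ∧ c x ≠ c y) (B f) (m ++ x :: m') (B g) := by
    rw [← hL]; exact H.wk f g hfg
  have hW1 := ((hWKL.app V _ (B f) x (B g) m m').1 hW).1
  have hwk := h1.wk
  rw [hl] at hwk
  have hwk2 := (hWKL.app V _ a x b p q).1 hwk
  -- nodup of the path
  have hnd := h1.nd
  have hnd' : (a :: (p ++ x :: (q ++ [b]))).Nodup := by
    have : a :: (l ++ [b]) = a :: (p ++ x :: (q ++ [b])) := by rw [hl]; simp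
    rw [← this]; exact hnd
  have hsub1 : (a :: (p ++ [x])).Sublist (a :: (p ++ x :: (q ++ [b]))) := by
    apply List.Sublist.cons_cons
    apply List.Sublist.append (List.Sublist.refl _)
    exact List.Sublist.cons_cons _ (List.nil_sublist _)
  have hsub2 : (x :: (q ++ [b])).Sublist (a :: (p ++ x :: (q ++ [b]))) := by
    apply List.Sublist.cons
    exact List.sublist_append_right _ _
  have hnd1 : (a :: (p ++ [x])).Nodup := hnd'.sublist hsub1
  have hnd2 : (x :: (q ++ [b])).Nodup := hnd'.sublist hsub2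
  have hnd3 : (x :: (p.reverse ++ [a])).Nodup := by
    have : x :: (p.reverse ++ [a]) = (a :: (p ++ [x])).reverse := by simp
    rw [this]; exact List.nodup_reverse.2 hnd1
  have hLnd := H.nd f g hfg
  rw [hL] at hLnd
  have hmnd : m.Nodup := hLnd.sublist (List.sublist_append_left _ _)
  -- the new path
  have hN : BP G (RS B) c (B f) (m ++ x :: p.reverse) a := by
    refine ⟨(mem_RS B _).2 ⟨f, rfl⟩, h1.ha, ?_, ?_, ?_, ?_⟩
    · refine (hWKL.app V _ (B f) x a m p.reverse).2 ⟨?_, ?_⟩
      · exact hWKL.mono V _ _ (fun x y h => h.1) _ _ _ hW1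
      · exact hWKL.rev V _ (fun x y h => h.symm) a x p hwk2.1
    · rw [List.nodup_cons]
      constructor
      · intro hmem
        simp only [List.mem_append, List.mem_cons, List.mem_reverse, List.not_mem_nil,
          or_false] at hmem
        rcases hmem with (hmem | hmem | hmem) | hmem
        · exact H.av f g hfg (B f) (hmL _ hmem) f rfl
        · exact hB.1 (hmem ▸ hmm x hxl)
        · exact hB.1 (hmm _ (hpx _ (Or.inl hmem)))
        · exact hB.1 (hmem ▸ List.mem_cons_self)
      · have : (m ++ x :: p.reverse) ++ [a] = m ++ (x :: (p.reverse ++ [a])) := by simp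
        rw [this, List.nodup_append]
        refine ⟨hmnd, hnd3, ?_⟩
        intro z hz w hw hzw
        subst hzw
        apply (hm z hz).1
        simp only [List.mem_append, List.mem_cons, List.mem_reverse, List.not_mem_nil,
          or_false] at hw
        rcases hw with hw | hw | hw
        · rw [hw]; exact hmm x hxl
        · exact hmm z (hpx z (Or.inl hw))
        · rw [hw]; exact List.mem_cons_self
    · intro y hy hyR
      obtain ⟨k, hk⟩ := (mem_RS B y).1 hyR
      simp only [List.mem_append, List.mem_cons, List.mem_reverse] at hy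
      rcases hy with hy | hy | hy
      · exact H.av f g hfg y (hmL y hy) k hk.symm
      · exact H.av f g hfg y (hy ▸ hxL) k hk.symm
      · exact h1.av y (hpx y (Or.inl hy)) hyR
    · rw [hWKL.sgapp V c (B f) x a m p.reverse, hWKL.sgrev V c a x p, hsg,
        hWKL.ok V c (fun x y => G.Adj x y ∧ c x ≠ c y) (fun x y h => h.2) (B f) x m hW1]
      rfl
  have hN2 : BP2 G (RS B) c (B f) (m ++ x :: p.reverse) a a' l' b' := by
    refine ⟨hN, h1', ?_⟩
    intro z hz
    simp only [List.mem_append, List.mem_cons, List.mem_reverse, List.not_mem_nil,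
      or_false] at hz
    rcases hz with hz | (hz | hz | hz) | hz
    · rw [hz]; exact hB.2
    · exact (hm z hz).2
    · exact hdis z (hz ▸ hmm x hxl)
    · exact hdis z (hmm z (hpx z (Or.inl hz)))
    · exact hdis z (hz ▸ List.mem_cons_self)
  -- counts
  have hsym : ∀ x y, WA B L x y → WA B L y x := hNBR.sym V G c s B L H
  have hc1 : cnt (WA B L) (B f) (m ++ x :: p.reverse) a = cnt (WA B L) a p x := by
    rw [hCNR.app V _ (B f) x a m p.reverse, hCNR.rev V _ hsym a x p,
      (hCNR.wk V _ (B f) x m).2 (hNBR.path V s B L f g hfg m m' x hL).1, Nat.zero_add]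
  have hc2 : cnt (WA B L) a l b = cnt (WA B L) a p x + cnt (WA B L) x q b := by
    rw [hl]; exact hCNR.app V _ a x b p q
  by_cases h0 : cnt (WA B L) x q b = 0
  · left
    have hw0 := (hCNR.wk V _ x b q).1 h0
    obtain ⟨k, hk⟩ := (mem_RS B b).1 h1.hb
    subst hk
    have hS := hSEG V G c s B L H f g k hfg m' m x q hL hw0 hnd2
      (by
        intro y hy n hn
        exact h1.av y (hpx y (Or.inr (Or.inr hy))) ((mem_RS B y).2 ⟨n, hn.symm⟩))
      (by
        intro heq
        rcases hz : (B f :: m).getLast? with _ | z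
        · simp at hz
        · have hz1 : z ∈ B f :: m := List.mem_of_getLast? hz
          rw [hz] at heq
          have hz2 : z ∈ q ++ [B k] := List.mem_of_head? heq.symm
          have hz3 : z ∈ a :: (l ++ [B k]) := by
            rcases List.mem_append.1 hz2 with hz2 | hz2
            · exact hmm z (hpx z (Or.inr (Or.inr hz2)))
            · exact List.mem_cons_of_mem _ (List.mem_append_right _ hz2)
          rcases List.mem_cons.1 hz1 with hz1 | hz1
          · exact hB.1 (hz1 ▸ hz3)
          · exact (hm z hz1).1 hz3)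
    obtain ⟨hq, hkg⟩ := hS
    refine ⟨by rw [hkg], ?_⟩
    have hlast : lastv a l ∈ x :: q := by
      unfold lastv
      have e : a :: l = (a :: p) ++ (x :: q) := by rw [hl]; simp
      have : (a :: l).getLast (List.cons_ne_nil a l) = (x :: q).getLast (List.cons_ne_nil x q) := by
        rw [List.getLast_congr _ _ e, List.getLast_append_of_ne_nil]
        exact List.append_ne_nil_of_left_ne_nil (List.cons_ne_nil _ _) _
      rw [this]
      exact List.getLast_mem _
    rw [hL, ← hq]
    exact List.mem_append_right _ hlast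
  · right
    refine ⟨_, _, _, hN2, ?_⟩
    rw [hc1, hc2]
    omega

end EX1M

open EX1M in
/-- Module EX1. -/
theorem specEX1 (hWKL : SpecWKL.{u}) (hCNR : SpecCNR.{u}) (hNBR : SpecNBR.{u})
    (hSEG : SpecSEG.{u}) : SpecEX1.{u} := by
  intro V _ G c s B L H a b a' b' l l' h2 f g hfg m m' x hL hxl hm hB
  obtain ⟨p, q, hl⟩ := List.append_of_mem hxl
  have hbr := h2.1.br
  rw [hl, hWKL.sgapp V c a x b p q] at hbr
  rcases hp : sg c a p x with _ | _
  · -- second case
    rw [hp] at hbr
    have hq : sg c x q b = true := by simpa using hbr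
    have hmem : ∀ z, z ∈ b :: (l.reverse ++ [a]) ↔ z ∈ a :: (l ++ [b]) := by
      intro z
      simp only [List.mem_append, List.mem_cons, List.mem_reverse, List.not_mem_nil, or_false]
      tauto
    have hBP : BP G (RS B) c b l.reverse a := by
      refine ⟨h2.1.hb, h2.1.ha, hWKL.rev V _ (fun x y h => h.symm) a b l h2.1.wk, ?_, ?_, ?_⟩
      · have : b :: (l.reverse ++ [a]) = (a :: (l ++ [b])).reverse := by simp
        rw [this]; exact List.nodup_reverse.2 h2.1.nd
      · intro y hy
        exact h2.1.av y (List.mem_reverse.1 hy)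
      · rw [hWKL.sgrev V c a b l]; exact h2.1.br
    have hBP2 : BP2 G (RS B) c b l.reverse a a' l' b' :=
      ⟨hBP, h2.2.1, fun z hz => h2.2.2 z ((hmem z).1 hz)⟩
    have hsym : ∀ x y, WA B L x y → WA B L y x := hNBR.sym V G c s B L H
    have hc : cnt (WA B L) b l.reverse a = cnt (WA B L) a l b := hCNR.rev V _ hsym a b l
    rcases core hWKL hCNR hNBR hSEG G c B L H b a a' b' l.reverse l' hBP2 f g hfg m m' x hL
      (fun z hz => ⟨fun h => (hm z hz).1 ((hmem z).1 h), (hm z hz).2⟩)
      ⟨fun h => hB.1 ((hmem _).1 h), hB.2⟩ q.reverse p.reverse (by rw [hl]; simp)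
      (by rw [hWKL.sgrev V c x b q]; exact hq) with h | ⟨a₁, l₁, b₁, h, h'⟩
    · exact Or.inr (Or.inl h)
    · exact Or.inr (Or.inr ⟨a₁, l₁, b₁, h, hc ▸ h'⟩)
  · rcases core hWKL hCNR hNBR hSEG G c B L H a b a' b' l l' h2 f g hfg m m' x hL hm hB p q hl hp
      with h | h
    · exact Or.inl h
    · exact Or.inr (Or.inr h)

end Pool.Agent.Lib.MPded8ec.SG
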