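import Pool.Agent.Lib.MP_ded8ec_lc.SG.SpecC

/-!
# Seymour graphs (MP_ded8ec_lc), module EXC (helper45)
-/

set_option autoImplicit false

namespace Pool.Agent.Lib.MPded8ec.SG

universe u

namespace EXCM

/-- the first element of a list with a property -/
theorem first {V : Type u} (P : V → Prop) : ∀ l : List V, (∃ x ∈ l, P x) →
    ∃ (m : List V) (x : V) (m' : List V), l = m ++ x :: m' ∧ P x ∧ ∀ z ∈ m, ¬ P z := by
  intro l
  induction l with
  | nil =>
    rintro ⟨x, hx, -⟩
    exact absurd hx (List.not_mem_nil)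
  | cons y l ih =>
    rintro ⟨x, hx, hP⟩
    by_cases hy : P y
    · exact ⟨[], y, l, rfl, hy, fun z hz => absurd hz (List.not_mem_nil)⟩
    · rcases List.mem_cons.1 hx with rfl | hx
      · exact absurd hP hy
      · obtain ⟨m, x', m', h1, h2, h3⟩ := ih ⟨x, hx, hP⟩
        refine ⟨y :: m, x', m', by rw [h1]; rfl, h2, ?_⟩
        intro z hz
        rcases List.mem_cons.1 hz with rfl | hz
        · exact hy
        · exact h3 z hz

open Classical in
/-- the indices whose path to `B k` contains `w` -/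
noncomputable def Ek {V : Type u} {s : ℕ} (L : Bool × Fin s → Bool × Fin s → List V)
    (k : Bool × Fin s) (w : V) : Finset (Bool × Fin s) :=
  Finset.univ.filter fun f => f.1 ≠ k.1 ∧ w ∈ L f k

theorem Ek_card {V : Type u} {G : SimpleGraph V} {c : V → Bool} {s : ℕ} {B : Bool × Fin s → V}
    {L : Bool × Fin s → Bool × Fin s → List V} (hK : KS G c s B L) (k : Bool × Fin s) (w : V) :
    (Ek L k w).card ≤ 1 := by
  classical
  rw [Finset.card_le_one]
  intro f hf f' hf'
  simp only [Ek, Finset.mem_filter, Finset.mem_univ, true_and] at hf hf'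
  rcases hK.dis f k f' k hf.1 hf'.1 w hf.2 hf'.2 with h | h
  · exact h.1
  · exact absurd (by rw [h.1]) hf.1

theorem bp2symm {V : Type u} {G : SimpleGraph V} {R : Finset V} {c : V → Bool} {a b a' b' : V}
    {l l' : List V} (h : BP2 G R c a l b a' l' b') : BP2 G R c a' l' b' a l b :=
  ⟨h.2.1, h.1, fun x hx hx' => h.2.2 x hx' hx⟩

end EXCM

open EXCM in
theorem specEXC (hEX1 : SpecEX1.{u}) : SpecEXC.{u} := by
  classical
  intro V _ G c s B L hK hex
  have hex' : ∃ n : ℕ, ∃ a l b a' l' b', BP2 G (RS B) c a l b a' l' b' ∧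
      cnt (WA B L) a l b + cnt (WA B L) a' l' b' = n := by
    obtain ⟨a, l, b, a', l', b', h⟩ := hex
    exact ⟨_, a, l, b, a', l', b', h, rfl⟩
  obtain ⟨a, l, b, a', l', b', hbp, hn⟩ := Nat.find_spec hex'
  have hmin : ∀ a₁ l₁ b₁ a₂ l₂ b₂, BP2 G (RS B) c a₁ l₁ b₁ a₂ l₂ b₂ →
      cnt (WA B L) a l b + cnt (WA B L) a' l' b' ≤
        cnt (WA B L) a₁ l₁ b₁ + cnt (WA B L) a₂ l₂ b₂ := by
    intro a₁ l₁ b₁ a₂ l₂ b₂ h
    rw [hn]
    exact Nat.find_min' hex' ⟨a₁, l₁, b₁, a₂, l₂, b₂, h, rfl⟩
  have hR : ∀ x, x ∈ RS B ↔ ∃ k, B k = x := by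
    intro x
    simp [RS]
  obtain ⟨ka, rfl⟩ := (hR a).1 hbp.1.ha
  obtain ⟨kb, rfl⟩ := (hR b).1 hbp.1.hb
  obtain ⟨ka', rfl⟩ := (hR a').1 hbp.2.1.ha
  obtain ⟨kb', rfl⟩ := (hR b').1 hbp.2.1.hb
  refine ⟨B ka, l, B kb, B ka', l', B kb', hbp,
    ({ka, kb, ka', kb'} : Finset (Bool × Fin s)) ∪ (Ek L kb (lastv (B ka) l) ∪
      (Ek L ka (lastv (B kb) l.reverse) ∪ (Ek L kb' (lastv (B ka') l') ∪
        Ek L ka' (lastv (B kb') l'.reverse)))), ?_, ?_⟩
  · have c0 : ({ka, kb, ka', kb'} : Finset (Bool × Fin s)).card ≤ 4 := Finset.card_le_four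
    have c1 := Ek_card hK kb (lastv (B ka) l)
    have c2 := Ek_card hK ka (lastv (B kb) l.reverse)
    have c3 := Ek_card hK kb' (lastv (B ka') l')
    have c4 := Ek_card hK ka' (lastv (B kb') l'.reverse)
    refine (Finset.card_union_le _ _).trans ?_
    have e1 := Finset.card_union_le (Ek L kb (lastv (B ka) l)) (Ek L ka (lastv (B kb) l.reverse) ∪
      (Ek L kb' (lastv (B ka') l') ∪ Ek L ka' (lastv (B kb') l'.reverse)))
    have e2 := Finset.card_union_le (Ek L ka (lastv (B kb) l.reverse))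
      (Ek L kb' (lastv (B ka') l') ∪ Ek L ka' (lastv (B kb') l'.reverse))
    have e3 := Finset.card_union_le (Ek L kb' (lastv (B ka') l'))
      (Ek L ka' (lastv (B kb') l'.reverse))
    omega
  · intro f hf
    simp only [Finset.mem_union, Finset.mem_insert, Finset.mem_singleton, not_or, Ek,
      Finset.mem_filter, Finset.mem_univ, true_and, not_and] at hf
    obtain ⟨⟨f1, f2, f3, f4⟩, g1, g2, g3, g4⟩ := hf
    have hfR : B f ∈ RS B := (hR _).2 ⟨f, rfl⟩
    have bf1 : B f ∉ B ka :: (l ++ [B kb]) := by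
      intro h
      rcases List.mem_cons.1 h with h | h
      · exact f1 (hK.inj h)
      · rcases List.mem_append.1 h with h | h
        · exact hbp.1.av _ h hfR
        · exact f2 (hK.inj (List.mem_singleton.1 h))
    have bf2 : B f ∉ B ka' :: (l' ++ [B kb']) := by
      intro h
      rcases List.mem_cons.1 h with h | h
      · exact f3 (hK.inj h)
      · rcases List.mem_append.1 h with h | h
        · exact hbp.2.1.av _ h hfR
        · exact f4 (hK.inj (List.mem_singleton.1 h))
    refine ⟨⟨bf1, bf2⟩, ?_⟩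
    intro g hg
    by_contra hcon
    push Not at hcon
    obtain ⟨x0, hx0, hx0'⟩ := hcon
    obtain ⟨m, x, m', hL, hx, hm⟩ := first
      (fun x => x ∈ B ka :: (l ++ [B kb]) ∨ x ∈ B ka' :: (l' ++ [B kb'])) (L f g)
      ⟨x0, hx0, by
        by_cases h : x0 ∈ B ka :: (l ++ [B kb])
        · exact Or.inl h
        · exact Or.inr (hx0' h)⟩
    have hxL : x ∈ L f g := by
      rw [hL]; simp
    have hxB := hK.av f g hg x hxL
    have hm1 : ∀ z ∈ m, z ∉ B ka :: (l ++ [B kb]) ∧ z ∉ B ka' :: (l' ++ [B kb']) := by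
      intro z hz
      exact not_or.1 (hm z hz)
    rcases hx with hx | hx
    · have hxl : x ∈ l := by
        rcases List.mem_cons.1 hx with h | h
        · exact absurd h (hxB ka)
        · rcases List.mem_append.1 h with h | h
          · exact h
          · exact absurd (List.mem_singleton.1 h) (hxB kb)
      rcases hEX1 V G c s B L hK (B ka) (B kb) (B ka') (B kb') l l' hbp f g hg m m' x hL hxl hm1
        ⟨bf1, bf2⟩ with h | h | ⟨a₁, l₁, b₁, h1, h2⟩
      · have hk : kb = g := hK.inj h.1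
        subst hk
        exact g1 hg h.2
      · have hk : ka = g := hK.inj h.1
        subst hk
        exact g2 hg h.2
      · have := hmin _ _ _ _ _ _ h1
        omega
    · have hxl : x ∈ l' := by
        rcases List.mem_cons.1 hx with h | h
        · exact absurd h (hxB ka')
        · rcases List.mem_append.1 h with h | h
          · exact h
          · exact absurd (List.mem_singleton.1 h) (hxB kb')
      rcases hEX1 V G c s B L hK (B ka') (B kb') (B ka) (B kb) l' l (bp2symm hbp) f g hg m m' x hL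
        hxl (fun z hz => ⟨(hm1 z hz).2, (hm1 z hz).1⟩) ⟨bf2, bf1⟩ with h | h | ⟨a₁, l₁, b₁, h1, h2⟩
      · have hk : kb' = g := hK.inj h.1
        subst hk
        exact g3 hg h.2
      · have hk : ka' = g := hK.inj h.1
        subst hk
        exact g4 hg h.2
      · have := hmin _ _ _ _ _ _ h1
        omega

end Pool.Agent.Lib.MPded8ec.SG
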