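import Pool.Agent.Lib.MP_ded8ec_lc.SG.SpecC

/-!
# Seymour graphs (MP_ded8ec_lc): FIN, the assembly

helper4.
-/

set_option autoImplicit false

namespace Pool.Agent.Lib.MPded8ec.SG

universe u v

namespace FINM

open Classical in
theorem e2_ge {V : Type u} (G : SimpleGraph V) (X : Finset V) (m : ℕ)
    (h : ∀ x ∈ X, m ≤ {y | y ∈ X ∧ G.Adj x y}.ncard) : m * X.card ≤ e2 G.Adj X := by
  have h1 : e2 G.Adj X = ∑ x ∈ X, (X.filter fun y => G.Adj x y).card := by
    unfold e2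
    rw [Finset.card_filter, Finset.sum_product]
    exact Finset.sum_congr rfl fun x _ => (Finset.card_filter _ _).symm
  rw [h1, mul_comm, ← smul_eq_mul]
  refine Finset.card_nsmul_le_sum _ _ _ fun x hx => ?_
  have h2 : {y | y ∈ X ∧ G.Adj x y} = ((X.filter fun y => G.Adj x y : Finset V) : Set V) := by
    ext y
    simp
  have h3 := h x hx
  rw [h2, Set.ncard_coe_finset] at h3
  exact h3

end FINM

open FINM in
theorem specFIN (hAPX : SpecAPX.{u}) (hTKN : SpecTKN.{u}) (hDIC : SpecDIC.{u})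
    (hMCT : SpecMCT.{u}) (hKSU : SpecKSU.{u}) (hEXC : SpecEXC.{u}) (hASM : SpecASM.{u})
    (hTRI : SpecTRI.{u}) : SpecFIN.{u} := by
  classical
  intro V _ G hC hX
  obtain ⟨X, hXne, hX⟩ := hX
  refine ⟨fun hS => ?_, fun hA => hAPX V G hA⟩
  obtain ⟨c, hc⟩ := hMCT V G X
  have h1 := e2_ge G X _ hX
  have h2 : 2 * (2 ^ (12 * 12) * 12) * X.card ≤
      e2 (fun x y => G.Adj x y ∧ c x ≠ c y) X := by
    have h3 : 3 * 2 ^ 148 * X.card = 2 * (2 * (2 ^ (12 * 12) * 12) * X.card) := by ring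
    omega
  obtain ⟨B, L, hK⟩ := hKSU V G c 12 (by norm_num) X hXne h2
  have h4 : 4 ≤ (RS B).card := by
    unfold RS
    rw [Finset.card_image_of_injective _ hK.inj]
    decide
  rcases hDIC V G hC (RS B) c h4 with h | h | h
  · obtain ⟨a, l, b, a', l', b', hBP, D, hD, hD'⟩ := hEXC V G c 12 B L hK h
    exact absurd (hASM V G c B L hK a b a' b' l l' hBP D hD hD') (hTKN V G hS)
  · exact h
  · obtain ⟨κ, t₁, t₂, t₃, hT⟩ := h
    refine absurd (hTRI V G hC (RS B) c κ t₁ t₂ t₃ hT (B (!κ t₁, 0)) ?_) (hTKN V G hS)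
    have h5 : B (!κ t₁, 0) ∈ RS B := Finset.mem_image_of_mem _ (Finset.mem_univ _)
    rw [hT.col _ h5, hK.col]
    change (!κ t₁) ≠ κ t₁
    cases κ t₁ <;> decide

end Pool.Agent.Lib.MPded8ec.SG
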