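import Pool.Agent.Lib.MP_ded8ec_lc.SG.SpecB

/-!
# Seymour graphs (MP_ded8ec_lc), module KSU (helper80)

A subdivision of `K_(s,s)` from Mader's theorem (module MIN).
-/

set_option autoImplicit false

namespace Pool.Agent.Lib.MPded8ec.SG

universe u

namespace KSUM

variable {V : Type u} {s : ℕ}

/-- The branch vertices. -/
def BB (a b : Fin s → V) : Bool × Fin s → V
  | (false, i) => a i
  | (true, i) => b i

/-- The paths. -/
def LL (L : Fin s × Fin s → List V) : Bool × Fin s → Bool × Fin s → List V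
  | (false, i), (true, j) => L (i, j)
  | (true, j), (false, i) => (L (i, j)).reverse
  | _, _ => []

end KSUM

open KSUM in
/-- Module KSU. -/
theorem specKSU (hW : SpecWKL.{u}) (hM : SpecMIN.{u}) : SpecKSU.{u} := by
  intro V _ G c s hs X hX hc
  have hsym : ∀ x y, (G.Adj x y ∧ c x ≠ c y) → (G.Adj y x ∧ c y ≠ c x) :=
    fun x y h => ⟨h.1.symm, fun e => h.2 e.symm⟩
  obtain ⟨a, b, L, K⟩ := hM V (fun x y => G.Adj x y ∧ c x ≠ c y) c hsym (fun x y h => h.2) s hs
    (s * s) X hX hc Finset.univ (by simp)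
  have hu : ∀ p : Fin s × Fin s, p ∈ Finset.univ := fun p => Finset.mem_univ p
  have hdis : ∀ (p p' : Fin s × Fin s) (x : V), x ∈ L p → x ∈ L p' → p = p' := by
    intro p p' x h1 h2
    by_contra hne
    exact K.dis p (hu p) p' (hu p') hne x h1 h2
  refine ⟨BB a b, LL L, ?_⟩
  constructor
  · rintro ⟨(_ | _), i⟩ ⟨(_ | _), j⟩ h
    · have h' : a i = a j := h
      rw [K.ai h']
    · have h' : a i = b j := h
      have h1 := K.ac i
      rw [h', K.bc j] at h1
      cases h1
    · have h' : b i = a j := h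
      have h1 := K.bc i
      rw [h', K.ac j] at h1
      cases h1
    · have h' : b i = b j := h
      rw [K.bi h']
  · rintro ⟨(_ | _), i⟩
    · exact K.ac i
    · exact K.bc i
  · rintro ⟨(_ | _), i⟩ ⟨(_ | _), j⟩ h
    · exact absurd rfl h
    · exact K.wk (i, j) (hu _)
    · exact hW.rev V _ hsym _ _ _ (K.wk (j, i) (hu _))
    · exact absurd rfl h
  · rintro ⟨(_ | _), i⟩ ⟨(_ | _), j⟩ h
    · exact absurd rfl h
    · rfl
    · exact (List.reverse_reverse (L (j, i))).symm
    · exact absurd rfl h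
  · rintro ⟨(_ | _), i⟩ ⟨(_ | _), j⟩ h
    · exact absurd rfl h
    · exact K.nd (i, j) (hu _)
    · exact List.nodup_reverse.2 (K.nd (j, i) (hu _))
    · exact absurd rfl h
  · rintro ⟨(_ | _), i⟩ ⟨(_ | _), j⟩ h x hx ⟨(_ | _), k⟩
    · exact absurd rfl h
    · exact absurd rfl h
    · exact (K.av (i, j) (hu _) x hx k).1
    · exact (K.av (i, j) (hu _) x hx k).2
    · exact (K.av (j, i) (hu _) x (List.mem_reverse.1 hx) k).1
    · exact (K.av (j, i) (hu _) x (List.mem_reverse.1 hx) k).2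
    · exact absurd rfl h
    · exact absurd rfl h
  · rintro ⟨(_ | _), i⟩ ⟨(_ | _), j⟩ ⟨(_ | _), i'⟩ ⟨(_ | _), j'⟩ h h' x hx hx'
    all_goals first
      | exact absurd rfl h
      | exact absurd rfl h'
      | skip
    · have e := hdis (i, j) (i', j') x hx hx'
      obtain ⟨e1, e2⟩ := Prod.mk.inj e
      left
      rw [e1, e2]
      exact ⟨rfl, rfl⟩
    · have e := hdis (i, j) (j', i') x hx (List.mem_reverse.1 hx')
      obtain ⟨e1, e2⟩ := Prod.mk.inj e
      right
      rw [e1, e2]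
      exact ⟨rfl, rfl⟩
    · have e := hdis (j, i) (i', j') x (List.mem_reverse.1 hx) hx'
      obtain ⟨e1, e2⟩ := Prod.mk.inj e
      right
      rw [e1, e2]
      exact ⟨rfl, rfl⟩
    · have e := hdis (j, i) (j', i') x (List.mem_reverse.1 hx) (List.mem_reverse.1 hx')
      obtain ⟨e1, e2⟩ := Prod.mk.inj e
      left
      rw [e1, e2]
      exact ⟨rfl, rfl⟩

end Pool.Agent.Lib.MPded8ec.SG
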