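import Pool.Agent.Lib.MP_ded8ec_lc.SG.SpecB

/-!
# Seymour graphs (MP_ded8ec_lc), module MCT (helper15): maximal cut
-/

set_option autoImplicit false

namespace Pool.Agent.Lib.MPded8ec.SG

universe u

namespace MCTM

open Classical in
theorem half {V : Type u} [Fintype V] (x y : V) (h : x ≠ y) :
    2 * (Finset.univ.filter fun c : V → Bool => c x ≠ c y).card = Fintype.card (V → Bool) := by
  have h1 : (Finset.univ.filter fun c : V → Bool => c x ≠ c y).card =
      (Finset.univ.filter fun c : V → Bool => ¬ c x ≠ c y).card := by
    refine Finset.card_bij' (fun c _ => Function.update c x (!c x))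
      (fun c _ => Function.update c x (!c x)) ?_ ?_ ?_ ?_
    · intro c hc
      rw [Finset.mem_filter] at hc ⊢
      refine ⟨Finset.mem_univ _, ?_⟩
      rw [Function.update_self, Function.update_of_ne h.symm]
      have := hc.2
      revert this
      cases c x <;> cases c y <;> simp
    · intro c hc
      rw [Finset.mem_filter] at hc ⊢
      refine ⟨Finset.mem_univ _, ?_⟩
      rw [Function.update_self, Function.update_of_ne h.symm]
      have := hc.2
      revert this
      cases c x <;> cases c y <;> simp
    · intro c _
      simp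
    · intro c _
      simp
  have h2 := Finset.card_filter_add_card_filter_not (s := (Finset.univ : Finset (V → Bool)))
    (fun c : V → Bool => c x ≠ c y)
  rw [← h1] at h2
  rw [← Finset.card_univ, ← h2]
  omega

end MCTM

open MCTM Classical in
theorem specMCT : SpecMCT.{u} := by
  intro V _ G X
  haveI : Fintype V := Fintype.ofFinite V
  have h1 : ∑ _c : V → Bool, e2 G.Adj X ≤
      ∑ c : V → Bool, 2 * e2 (fun x y => G.Adj x y ∧ c x ≠ c y) X := by
    rw [Finset.sum_const, Finset.card_univ, smul_eq_mul]
    unfold e2
    simp only [Finset.card_filter, Finset.mul_sum]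
    rw [Finset.sum_comm]
    refine Finset.sum_le_sum fun p _ => ?_
    by_cases hp : G.Adj p.1 p.2
    · rw [if_pos hp, mul_one, ← half p.1 p.2 hp.ne, Finset.card_filter, Finset.mul_sum]
      refine Finset.sum_le_sum fun c _ => ?_
      by_cases hc : c p.1 ≠ c p.2
      · rw [if_pos hc, if_pos ⟨hp, hc⟩]
      · rw [if_neg hc, mul_zero]
        exact Nat.zero_le _
    · rw [if_neg hp, mul_zero]
      exact Nat.zero_le _
  obtain ⟨c, _, hc⟩ := Finset.exists_le_of_sum_le Finset.univ_nonempty h1
  exact ⟨c, hc⟩

end Pool.Agent.Lib.MPded8ec.SG
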