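import Pool.Agent.Lib.MP_ded8ec_lc.SG.SpecB

/-!
# Seymour graphs (MP_ded8ec_lc), module MIN: subdivisions of complete bipartite graphs (helper9)
-/

set_option autoImplicit false

namespace Pool.Agent.Lib.MPded8ec.SG

universe u v

namespace MINM

open Classical in
theorem e2_eq {V : Type u} (r : V → V → Prop) (X : Finset V) : e2 r X = ∑ x ∈ X, dX r X x := by
  unfold e2 dX
  rw [Finset.card_filter, Finset.sum_product]
  exact Finset.sum_congr rfl fun x _ => (Finset.card_filter _ _).symm

/-- choice of `s` different elements -/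
theorem pick {V : Type u} (A : Finset V) (s : ℕ) (h : s ≤ A.card) :
    ∃ a : Fin s → V, Function.Injective a ∧ ∀ i, a i ∈ A := by
  refine ⟨fun i => (A.equivFin.symm (Fin.castLE h i)).1, ?_, fun i =>
    (A.equivFin.symm (Fin.castLE h i)).2⟩
  intro i j hij
  have h1 := A.equivFin.symm.injective (Subtype.ext hij)
  exact Fin.castLE_injective h h1

open Classical in
theorem e2_le {V : Type u} (r : V → V → Prop) (c : V → Bool) (hc : ∀ x y, r x y → c x ≠ c y)
    (X : Finset V) : e2 r X ≤ 2 * ((X.filter fun x => c x = false).card *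
      (X.filter fun x => c x = true).card) := by
  unfold e2
  have h1 : ((X ×ˢ X).filter fun p => r p.1 p.2) ⊆
      ((X.filter fun x => c x = false) ×ˢ (X.filter fun x => c x = true)) ∪
      ((X.filter fun x => c x = true) ×ˢ (X.filter fun x => c x = false)) := by
    rintro ⟨x, y⟩ hp
    rw [Finset.mem_filter, Finset.mem_product] at hp
    obtain ⟨⟨hx, hy⟩, hr⟩ := hp
    have h2 := hc x y hr
    rw [Finset.mem_union, Finset.mem_product, Finset.mem_product]
    simp only [Finset.mem_filter]
    cases hcx : c x <;> cases hcy : c y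
    · rw [hcx, hcy] at h2
      exact absurd rfl h2
    · exact Or.inl ⟨⟨hx, rfl⟩, hy, rfl⟩
    · exact Or.inr ⟨⟨hx, rfl⟩, hy, rfl⟩
    · rw [hcx, hcy] at h2
      exact absurd rfl h2
  refine (Finset.card_le_card h1).trans ((Finset.card_union_le _ _).trans ?_)
  rw [Finset.card_product, Finset.card_product, two_mul, Nat.mul_comm
    (X.filter fun x => c x = true).card]

open Classical in
theorem base {V : Type u} (r : V → V → Prop) (c : V → Bool) (hc : ∀ x y, r x y → c x ≠ c y)
    (s : ℕ) (hs : 0 < s) (m : ℕ) (X : Finset V) (hX : X.Nonempty)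
    (h : 2 * (2 ^ m * s) * X.card ≤ e2 r X) : ∃ a b L, KY r c X (∅ : Finset (Fin s × Fin s)) a b L := by
  set A := X.filter fun x => c x = false with hA
  set B := X.filter fun x => c x = true with hB
  have hAB : A.card + B.card = X.card := by
    have h1 := Finset.card_filter_add_card_filter_not (s := X) (fun x => c x = false)
    rw [← h1]
    congr 2
    ext x
    simp only [hB, Finset.mem_filter, Bool.not_eq_false]
  have h1 := e2_le r c hc X
  rw [← hA, ← hB] at h1
  have h2 : s * X.card ≤ A.card * B.card := by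
    have h3 : 2 * s * X.card ≤ 2 * (2 ^ m * s) * X.card := by
      refine Nat.mul_le_mul_right _ (Nat.mul_le_mul_left _ ?_)
      exact Nat.le_mul_of_pos_left s (by positivity)
    have h4 := h3.trans (h.trans h1)
    rw [Nat.mul_assoc] at h4
    exact Nat.le_of_mul_le_mul_left h4 (by norm_num)
  rw [← hAB] at h2
  have hpos : 0 < A.card + B.card := by
    rw [hAB]
    exact hX.card_pos
  have hBp : 0 < B.card := by
    rcases Nat.eq_zero_or_pos B.card with h0 | h0
    · rw [h0, Nat.mul_zero, Nat.add_zero] at h2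
      rw [h0, Nat.add_zero] at hpos
      exact absurd h2 (not_le.2 (Nat.mul_pos hs hpos))
    · exact h0
  have hAp : 0 < A.card := by
    rcases Nat.eq_zero_or_pos A.card with h0 | h0
    · rw [h0, Nat.zero_mul, Nat.zero_add] at h2
      exact absurd h2 (not_le.2 (Nat.mul_pos hs hBp))
    · exact h0
  have hsA : s ≤ A.card := by
    refine Nat.le_of_mul_le_mul_right ((Nat.mul_le_mul_left s (Nat.le_add_left _ _)).trans h2) hBp
  have hsB : s ≤ B.card := by
    rw [Nat.mul_comm A.card] at h2
    refine Nat.le_of_mul_le_mul_right ((Nat.mul_le_mul_left s (Nat.le_add_right _ _)).trans h2) hAp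
  obtain ⟨a, ai, aA⟩ := pick A s hsA
  obtain ⟨b, bi, bB⟩ := pick B s hsB
  refine ⟨a, b, fun _ => [], ai, bi, fun i => (Finset.mem_filter.1 (aA i)).1,
    fun i => (Finset.mem_filter.1 (bB i)).1, fun i => (Finset.mem_filter.1 (aA i)).2,
    fun i => (Finset.mem_filter.1 (bB i)).2, ?_, ?_, ?_, ?_, ?_⟩
  all_goals
    intro p hp
    exact absurd hp (Finset.notMem_empty p)

theorem step {V : Type u} {r : V → V → Prop} {c : V → Bool} {s : ℕ} {X U H : Finset V}
    (hU : U ⊆ X) (hH : H ⊆ X) (hd : Disjoint U H) {Y : Finset (Fin s × Fin s)}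
    {p : Fin s × Fin s} {a b : Fin s → V} {L' : Fin s × Fin s → List V}
    (hK : KY r c H (Y.erase p) a b L') {l : List V} (hlU : ∀ z ∈ l, z ∈ U) (hln : l.Nodup)
    (hlw : Wk r (a p.1) l (b p.2)) : KY r c X Y a b (Function.update L' p l) := by
  have hup : Function.update L' p l p = l := Function.update_self p l L'
  have hne : ∀ p', p' ≠ p → Function.update L' p l p' = L' p' := fun p' h =>
    Function.update_of_ne h l L'
  have hUH : ∀ z ∈ U, ∀ y ∈ H, z ≠ y := fun z hz y hy e =>
    Finset.disjoint_left.1 hd hz (e ▸ hy)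
  refine ⟨hK.ai, hK.bi, fun i => hH (hK.aX i), fun i => hH (hK.bX i), hK.ac, hK.bc, ?_, ?_, ?_, ?_,
    ?_⟩
  · intro p' hp'
    by_cases h : p' = p
    · rw [h, hup]
      exact hlw
    · rw [hne p' h]
      exact hK.wk p' (Finset.mem_erase.2 ⟨h, hp'⟩)
  · intro p' hp' x hx
    by_cases h : p' = p
    · rw [h, hup] at hx
      exact hU (hlU x hx)
    · rw [hne p' h] at hx
      exact hH (hK.LX p' (Finset.mem_erase.2 ⟨h, hp'⟩) x hx)
  · intro p' hp'
    by_cases h : p' = p
    · rw [h, hup]
      exact hln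
    · rw [hne p' h]
      exact hK.nd p' (Finset.mem_erase.2 ⟨h, hp'⟩)
  · intro p' hp' x hx i
    by_cases h : p' = p
    · rw [h, hup] at hx
      exact ⟨hUH x (hlU x hx) _ (hK.aX i), hUH x (hlU x hx) _ (hK.bX i)⟩
    · rw [hne p' h] at hx
      exact hK.av p' (Finset.mem_erase.2 ⟨h, hp'⟩) x hx i
  · intro p' hp' p'' hp'' hpp x hx hx'
    by_cases h : p' = p
    · have h' : p'' ≠ p := fun e => hpp (h.trans e.symm)
      rw [h, hup] at hx
      rw [hne p'' h'] at hx'
      exact hUH x (hlU x hx) x (hK.LX p'' (Finset.mem_erase.2 ⟨h', hp''⟩) x hx') rfl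
    · rw [hne p' h] at hx
      by_cases h' : p'' = p
      · rw [h', hup] at hx'
        exact hUH x (hlU x hx') x (hK.LX p' (Finset.mem_erase.2 ⟨h, hp'⟩) x hx) rfl
      · rw [hne p'' h'] at hx'
        exact hK.dis p' (Finset.mem_erase.2 ⟨h, hp'⟩) p'' (Finset.mem_erase.2 ⟨h', hp''⟩) hpp x hx
          hx'

end MINM

open MINM

theorem specMIN (hM : SpecMST.{u}) : SpecMIN.{u} := by
  intro V _ r c hsym hc s hs m
  induction m with
  | zero =>
    intro X hX hcard Y hY
    have hY0 : Y = ∅ := Finset.card_eq_zero.1 (Nat.le_zero.1 hY)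
    subst hY0
    exact base r c hc s hs 0 X hX hcard
  | succ m ih =>
    intro X hX hcard Y hY
    rcases Y.eq_empty_or_nonempty with rfl | ⟨p, hp⟩
    · exact base r c hc s hs (m + 1) X hX hcard
    · have hirr : ∀ x, ¬ r x x := fun x h => hc x x h rfl
      obtain ⟨U, H, hU, hH, hd, hHn, hq, hpath⟩ := hM V r hsym hirr (2 ^ (m + 1) * s)
        (Nat.mul_pos (by positivity) hs) X hX hcard
      have h1 : 2 * (2 ^ m * s) * H.card ≤ e2 r H := by
        rw [e2_eq, show 2 * (2 ^ m * s) = 2 ^ (m + 1) * s by ring, Nat.mul_comm]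
        have h2 := Finset.card_nsmul_le_sum H (fun x => dX r H x) (2 ^ (m + 1) * s) hq
        rwa [smul_eq_mul] at h2
      obtain ⟨a, b, L', hK⟩ := ih H hHn h1 (Y.erase p) (by
        rw [Finset.card_erase_of_mem hp]
        omega)
      obtain ⟨l, -, hlU, hln, hlw⟩ := hpath (a p.1) (hK.aX p.1) (b p.2) (hK.bX p.2)
      exact ⟨a, b, _, step hU hH hd hK hlU hln hlw⟩

end Pool.Agent.Lib.MPded8ec.SG
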