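import Pool.Agent.Lib.MP_ded8ec_lc.SG.SpecB

/-!
# Seymour graphs (MP_ded8ec_lc), module MST (helper15): a connected set and a dense graph on its neighbourhood
-/

set_option autoImplicit false

namespace Pool.Agent.Lib.MPded8ec.SG

universe u

namespace MSTM

open Classical

variable {V : Type u}

theorem e2_erase (r : V → V → Prop) (hs : ∀ x y, r x y → r y x) (hi : ∀ x, ¬ r x x)
    (Y : Finset V) (x : V) (hx : x ∈ Y) : e2 r Y = e2 r (Y.erase x) + 2 * dX r Y x := by
  have hY : insert x (Y.erase x) = Y := Finset.insert_erase hx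
  have h1 : e2 r Y = ∑ a ∈ Y, ∑ b ∈ Y, if r a b then 1 else 0 := by
    unfold e2
    rw [Finset.card_filter, Finset.sum_product]
  have h2 : e2 r (Y.erase x) = ∑ a ∈ Y.erase x, ∑ b ∈ Y.erase x, if r a b then 1 else 0 := by
    unfold e2
    rw [Finset.card_filter, Finset.sum_product]
  have h3 : dX r Y x = ∑ b ∈ Y.erase x, if r x b then 1 else 0 := by
    unfold dX
    rw [Finset.card_filter, ← Finset.add_sum_erase _ _ hx, if_neg (hi x), zero_add]
  have h4 : ∀ a, (∑ b ∈ Y, if r a b then 1 else 0) =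
      (if r a x then 1 else 0) + ∑ b ∈ Y.erase x, if r a b then 1 else 0 := fun a =>
    (Finset.add_sum_erase _ _ hx).symm
  have h5 : dX r Y x = ∑ a ∈ Y.erase x, if r a x then 1 else 0 := by
    rw [h3]
    refine Finset.sum_congr rfl fun b _ => ?_
    by_cases h : r x b
    · rw [if_pos h, if_pos (hs _ _ h)]
    · rw [if_neg h, if_neg fun h' => h (hs _ _ h')]
  rw [h1, ← Finset.add_sum_erase _ _ hx, h4 x, if_neg (hi x), zero_add, ← h3,
    Finset.sum_congr rfl fun a _ => h4 a, Finset.sum_add_distrib, ← h5, ← h2]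
  ring

/-- the neighbourhood of `U` in `X` -/
noncomputable def nb (r : V → V → Prop) (X U : Finset V) : Finset V :=
  (X \ U).filter fun h => ∃ u ∈ U, r h u

/-- `Φ` -/
noncomputable def ph (r : V → V → Prop) (X U : Finset V) : ℕ :=
  e2 r (X \ U) + 2 * (nb r X U).card

theorem mem_nb (r : V → V → Prop) (X U : Finset V) (h : V) :
    h ∈ nb r X U ↔ (h ∈ X ∧ h ∉ U) ∧ ∃ u ∈ U, r h u := by
  unfold nb
  rw [Finset.mem_filter, Finset.mem_sdiff]

theorem nb_card (r : V → V → Prop) (hs : ∀ x y, r x y → r y x) (hi : ∀ x, ¬ r x x)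
    (X U : Finset V) (h : V) (hh : h ∈ nb r X U) :
    (nb r X (insert h U)).card + 1 + dX r (nb r X U) h = (nb r X U).card + dX r (X \ U) h := by
  have h0 := (mem_nb r X U h).1 hh
  have h1 : nb r X (insert h U) =
      (nb r X U).erase h ∪ ((X \ U).filter fun y => r h y) \ nb r X U := by
    ext y
    rw [mem_nb, Finset.mem_union, Finset.mem_erase, Finset.mem_sdiff, Finset.mem_filter,
      Finset.mem_sdiff, mem_nb]
    constructor
    · rintro ⟨⟨hyX, hyU⟩, u, hu, hyu⟩
      rw [Finset.mem_insert, not_or] at hyU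
      rw [Finset.mem_insert] at hu
      by_cases hc : ∃ u ∈ U, r y u
      · exact Or.inl ⟨hyU.1, ⟨hyX, hyU.2⟩, hc⟩
      · right
        rcases hu with rfl | hu
        · exact ⟨⟨⟨hyX, hyU.2⟩, hs _ _ hyu⟩, fun hc' => hc hc'.2⟩
        · exact absurd ⟨u, hu, hyu⟩ hc
    · rintro (⟨hne, ⟨hyX, hyU⟩, u, hu, hyu⟩ | ⟨⟨⟨hyX, hyU⟩, hy⟩, -⟩)
      · refine ⟨⟨hyX, ?_⟩, u, Finset.mem_insert_of_mem hu, hyu⟩
        rw [Finset.mem_insert, not_or]
        exact ⟨hne, hyU⟩
      · refine ⟨⟨hyX, ?_⟩, h, Finset.mem_insert_self _ _, hs _ _ hy⟩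
        rw [Finset.mem_insert, not_or]
        refine ⟨?_, hyU⟩
        rintro rfl
        exact hi _ hy
  have h2 : Disjoint ((nb r X U).erase h) (((X \ U).filter fun y => r h y) \ nb r X U) := by
    rw [Finset.disjoint_left]
    intro y hy hy'
    exact (Finset.mem_sdiff.1 hy').2 (Finset.mem_of_mem_erase hy)
  have h3 : (((X \ U).filter fun y => r h y) ∩ nb r X U).card = dX r (nb r X U) h := by
    unfold dX
    congr 1
    ext y
    rw [Finset.mem_inter, Finset.mem_filter, Finset.mem_filter, Finset.mem_sdiff, mem_nb]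
    tauto
  have h4 := Finset.card_sdiff_add_card_inter ((X \ U).filter fun y => r h y) (nb r X U)
  rw [h3] at h4
  have h5 : ((X \ U).filter fun y => r h y).card = dX r (X \ U) h := rfl
  rw [h5] at h4
  have h6 := Finset.card_erase_add_one hh
  rw [h1, Finset.card_union_of_disjoint h2]
  omega

theorem ph_insert (r : V → V → Prop) (hs : ∀ x y, r x y → r y x) (hi : ∀ x, ¬ r x x)
    (X U : Finset V) (h : V) (hh : h ∈ nb r X U) :
    ph r X (insert h U) + 2 + 2 * dX r (nb r X U) h = ph r X U := by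
  have h0 := (mem_nb r X U h).1 hh
  have h1 := nb_card r hs hi X U h hh
  have h2 := e2_erase r hs hi (X \ U) h (Finset.mem_sdiff.2 h0.1)
  have h3 : X \ insert h U = (X \ U).erase h := by
    rw [Finset.sdiff_insert]
  unfold ph
  rw [h3]
  omega

/-- `U` is connected -/
def Cn (r : V → V → Prop) (U : Finset V) : Prop :=
  ∀ u ∈ U, ∀ u' ∈ U, ∃ l : List V, l ≠ [] ∧ (∀ z ∈ l, z ∈ U) ∧
    ∀ x y, r x u → r u' y → Wk r x l y

theorem Cn_insert (r : V → V → Prop) (hs : ∀ x y, r x y → r y x)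
    (app : ∀ (a x b : V) (l l' : List V), Wk r a (l ++ x :: l') b ↔ Wk r a l x ∧ Wk r x l' b)
    (U : Finset V) (hU : Cn r U) (h : V) (u₀ : V) (hu₀ : u₀ ∈ U) (hr : r h u₀) :
    Cn r (insert h U) := by
  intro a ha b hb
  rw [Finset.mem_insert] at ha hb
  rcases ha with rfl | ha <;> rcases hb with rfl | hb
  · refine ⟨[b], by simp, ?_, fun x y hx hy => ⟨hx, hy⟩⟩
    intro z hz
    rw [List.mem_singleton] at hz
    rw [hz]
    exact Finset.mem_insert_self _ _
  · obtain ⟨l, hl0, hlU, hl⟩ := hU u₀ hu₀ b hb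
    refine ⟨a :: l, by simp, ?_, fun x y hx hy => ⟨hx, hl a y hr hy⟩⟩
    intro z hz
    rw [List.mem_cons] at hz
    rcases hz with rfl | hz
    · exact Finset.mem_insert_self _ _
    · exact Finset.mem_insert_of_mem (hlU z hz)
  · obtain ⟨l, hl0, hlU, hl⟩ := hU a ha u₀ hu₀
    refine ⟨l ++ b :: [], by simp, ?_, fun x y hx hy =>
      (app x b y l []).2 ⟨hl x b hx (hs _ _ hr), hy⟩⟩
    intro z hz
    rw [List.mem_append, List.mem_singleton] at hz
    rcases hz with hz | rfl
    · exact Finset.mem_insert_of_mem (hlU z hz)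
    · exact Finset.mem_insert_self _ _
  · obtain ⟨l, hl0, hlU, hl⟩ := hU a ha b hb
    exact ⟨l, hl0, fun z hz => Finset.mem_insert_of_mem (hlU z hz), hl⟩

end MSTM

open MSTM Classical in
theorem specMST (hWKL : SpecWKL.{u}) : SpecMST.{u} := by
  intro V _ r hs hi q hq X hX hX2
  -- a minimal `X`
  obtain ⟨X', hX'm, hmin⟩ := Finset.exists_min_image
    (X.powerset.filter fun Y => Y.Nonempty ∧ 2 * q * Y.card ≤ e2 r Y) Finset.card
    ⟨X, Finset.mem_filter.2 ⟨Finset.mem_powerset_self X, hX, hX2⟩⟩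
  rw [Finset.mem_filter, Finset.mem_powerset] at hX'm
  obtain ⟨hX'X, hX'n, hX'2⟩ := hX'm
  have hsmall : ∀ Y, Y ⊆ X' → Y.Nonempty → Y.card < X'.card → e2 r Y < 2 * q * Y.card := by
    intro Y hY hYn hYc
    by_contra hc
    push Not at hc
    have := hmin Y (Finset.mem_filter.2 ⟨Finset.mem_powerset.2 (hY.trans hX'X), hYn, hc⟩)
    omega
  obtain ⟨x₀, hx₀⟩ := hX'n
  -- good sets
  have hgood0 : ({x₀} : Finset V) ⊆ X' ∧ ({x₀} : Finset V).Nonempty ∧ Cn r {x₀} ∧
      2 * q * (X'.card - ({x₀} : Finset V).card + 1) ≤ ph r X' {x₀} := by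
    refine ⟨Finset.singleton_subset_iff.2 hx₀, Finset.singleton_nonempty _, ?_, ?_⟩
    · intro u hu u' hu'
      rw [Finset.mem_singleton] at hu hu'
      subst hu
      subst hu'
      refine ⟨[u'], by simp, fun z hz => ?_, fun x y hx hy => ⟨hx, hy⟩⟩
      rw [List.mem_singleton] at hz
      rw [hz]
      exact Finset.mem_singleton_self _
    · have h1 := e2_erase r hs hi X' x₀ hx₀
      have h2 : X' \ {x₀} = X'.erase x₀ := Finset.sdiff_singleton_eq_erase _ _
      have h3 : nb r X' {x₀} = X'.filter fun y => r x₀ y := by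
        ext y
        rw [mem_nb, Finset.mem_filter, Finset.mem_singleton]
        constructor
        · rintro ⟨⟨hy, -⟩, u, hu, hyu⟩
          rw [Finset.mem_singleton] at hu
          rw [hu] at hyu
          exact ⟨hy, hs _ _ hyu⟩
        · rintro ⟨hy, hy'⟩
          refine ⟨⟨hy, ?_⟩, x₀, Finset.mem_singleton_self _, hs _ _ hy'⟩
          rintro rfl
          exact hi _ hy'
      have h4 : (nb r X' {x₀}).card = dX r X' x₀ := by
        rw [h3]
        rfl
      unfold ph
      rw [h2, h4, ← h1, Finset.card_singleton]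
      have h5 : 0 < X'.card := Finset.card_pos.2 ⟨x₀, hx₀⟩
      rw [Nat.sub_add_cancel h5]
      exact hX'2
  obtain ⟨U, hUm, hmax⟩ := Finset.exists_max_image
    (X'.powerset.filter fun U => U ⊆ X' ∧ U.Nonempty ∧ Cn r U ∧
      2 * q * (X'.card - U.card + 1) ≤ ph r X' U) Finset.card
    ⟨{x₀}, Finset.mem_filter.2 ⟨Finset.mem_powerset.2 hgood0.1, hgood0⟩⟩
  rw [Finset.mem_filter] at hUm
  obtain ⟨-, hUX, hUn, hUc, hUp⟩ := hUm
  have hUcard : U.card ≤ X'.card := Finset.card_le_card hUX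
  have hUpos : 0 < U.card := Finset.card_pos.2 hUn
  refine ⟨U, nb r X' U, hUX.trans hX'X, ?_, ?_, ?_, ?_, ?_⟩
  · intro h hh
    exact hX'X ((mem_nb r X' U h).1 hh).1.1
  · rw [Finset.disjoint_left]
    intro h hh hh'
    exact ((mem_nb r X' U h).1 hh').1.2 hh
  · by_contra hc
    rw [Finset.not_nonempty_iff_eq_empty] at hc
    unfold ph at hUp
    rw [hc, Finset.card_empty, mul_zero, add_zero] at hUp
    have h1 : (X' \ U).card = X'.card - U.card := by
      rw [Finset.card_sdiff_of_subset hUX]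
    rw [← h1] at hUp
    by_cases h2 : (X' \ U).Nonempty
    · have h3 := hsmall (X' \ U) Finset.sdiff_subset h2 (by omega)
      have h4 : 2 * q * ((X' \ U).card + 1) = 2 * q * (X' \ U).card + 2 * q := by ring
      omega
    · rw [Finset.not_nonempty_iff_eq_empty] at h2
      rw [h2] at hUp
      have h3 : e2 r (∅ : Finset V) = 0 := by
        unfold e2
        simp
      rw [h3, Finset.card_empty] at hUp
      omega
  · intro h hh
    have h0 := (mem_nb r X' U h).1 hh
    obtain ⟨⟨hhX, hhU⟩, u₀, hu₀, hr⟩ := h0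
    have h1 := ph_insert r hs hi X' U h hh
    have hcard : (insert h U).card = U.card + 1 := Finset.card_insert_of_notMem hhU
    have hsub : insert h U ⊆ X' := Finset.insert_subset hhX hUX
    have h2 : ¬ 2 * q * (X'.card - (insert h U).card + 1) ≤ ph r X' (insert h U) := by
      intro hc
      have := hmax (insert h U) (Finset.mem_filter.2 ⟨Finset.mem_powerset.2 hsub, hsub,
        Finset.insert_nonempty _ _, Cn_insert r hs (hWKL.app V r) U hUc h u₀ hu₀ hr, hc⟩)
      omega
    have h3 : (insert h U).card ≤ X'.card := Finset.card_le_card hsub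
    rw [hcard] at h2 h3
    have h4 : X'.card - (U.card + 1) + 1 = X'.card - U.card := by omega
    rw [h4] at h2
    have h5 : 2 * q * (X'.card - U.card + 1) = 2 * q * (X'.card - U.card) + 2 * q := by ring
    omega
  · intro x hx y hy
    obtain ⟨-, u, hu, hxu⟩ := (mem_nb r X' U x).1 hx
    obtain ⟨-, u', hu', hyu⟩ := (mem_nb r X' U y).1 hy
    obtain ⟨l, hl0, hlU, hl⟩ := hUc u hu u' hu'
    obtain ⟨l', hl0', hsub, hnd, hwk⟩ := hWKL.short V r x y l hl0 (hl x y hxu (hs _ _ hyu))
    exact ⟨l', hl0', fun z hz => hlU z (hsub z hz), hnd, hwk⟩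

end Pool.Agent.Lib.MPded8ec.SG
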