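import Pool.Agent.Lib.MP_ded8ec_lc.SG.SpecC

/-! # Seymour graphs (MP_ded8ec_lc), module NBR (helper11) -/

set_option autoImplicit false

namespace Pool.Agent.Lib.MPded8ec.SG

universe u

namespace NBRM

/-- The position of an element is unique. -/
theorem uniq {V : Type u} (x : V) (Q Q' : List V) (P : List V) :
    ∀ P' : List V, x ∉ P → x ∉ P' → P ++ x :: Q = P' ++ x :: Q' → P = P' ∧ Q = Q' := by
  induction P with
  | nil =>
    intro P' _ h2 e
    cases P' with
    | nil =>
      rw [List.nil_append, List.nil_append] at e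
      exact ⟨rfl, (List.cons.inj e).2⟩
    | cons y P' =>
      rw [List.nil_append, List.cons_append] at e
      exact absurd (List.mem_cons.2 (Or.inl (List.cons.inj e).1)) h2
  | cons y P ih =>
    intro P' h1 h2 e
    cases P' with
    | nil =>
      rw [List.nil_append, List.cons_append] at e
      exact absurd (List.mem_cons.2 (Or.inl (List.cons.inj e).1.symm)) h1
    | cons z P' =>
      rw [List.cons_append, List.cons_append] at e
      have e1 := List.cons.inj e
      have := ih P' (fun h => h1 (List.mem_cons_of_mem _ h)) (fun h => h2 (List.mem_cons_of_mem _ h))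
        e1.2
      exact ⟨by rw [e1.1, this.1], this.2⟩

theorem notMem {V : Type u} (x : V) (P Q : List V) (h : (P ++ x :: Q).Nodup) : x ∉ P := by
  intro hx
  rw [List.nodup_append] at h
  exact h.2.2 x hx x (List.mem_cons_self) rfl

/-- Segments of the path `L i j` are walks in `W`. -/
theorem seg {V : Type u} {s : ℕ} (B : Bool × Fin s → V)
    (L : Bool × Fin s → Bool × Fin s → List V) (i j : Bool × Fin s) (hij : i.1 ≠ j.1) (b : V)
    (Q : List V) (l : List V) : ∀ (P : List V) (a : V),
    B i :: (L i j ++ [B j]) = P ++ a :: (l ++ b :: Q) → Wk (WA B L) a l b := by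
  induction l with
  | nil =>
    intro P a e
    exact ⟨i, j, hij, P, Q, e⟩
  | cons y l ih =>
    intro P a e
    refine ⟨⟨i, j, hij, P, l ++ b :: Q, e⟩, ih (P ++ [a]) y ?_⟩
    rw [e]
    simp

theorem revlist {V : Type u} (a b : V) (l : List V) :
    (a :: (l ++ [b])).reverse = b :: (l.reverse ++ [a]) := by
  simp

theorem nodup {V : Type u} {G : SimpleGraph V} {c : V → Bool} {s : ℕ} {B : Bool × Fin s → V}
    {L : Bool × Fin s → Bool × Fin s → List V} (h : KS G c s B L) (i j : Bool × Fin s)
    (hij : i.1 ≠ j.1) : (B i :: (L i j ++ [B j])).Nodup := by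
  have h1 : B i ≠ B j := fun e => hij (by rw [h.inj e])
  rw [List.nodup_cons, List.nodup_append]
  refine ⟨?_, h.nd i j hij, List.nodup_singleton _, ?_⟩
  · rw [List.mem_append, List.mem_singleton]
    rintro (h2 | h2)
    · exact h.av i j hij _ h2 i rfl
    · exact h1 h2
  · intro x hx y hy
    rw [List.mem_singleton] at hy
    rw [hy]
    exact h.av i j hij x hx j

end NBRM

theorem specNBR : SpecNBR.{u} where
  sym V G c s B L h x y hxy := by
    obtain ⟨i, j, hij, m, m', e⟩ := hxy
    refine ⟨j, i, hij.symm, m'.reverse, m.reverse, ?_⟩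
    rw [h.rev i j hij, ← NBRM.revlist, e]
    simp
  path V s B L i j hij m m' x e := by
    constructor
    · refine NBRM.seg B L i j hij x (m' ++ [B j]) m [] (B i) ?_
      rw [e]
      simp
    · refine NBRM.seg B L i j hij (B j) [] m' (B i :: m) x ?_
      rw [e]
      simp
  nbr V G c s B L h i j hij m m' x z e hxz := by
    obtain ⟨i', j', hij', P, Q, e'⟩ := hxz
    have hx : x ∈ L i j := by
      rw [e]
      simp
    have hx' : x ∈ L i' j' := by
      have h1 : x ∈ B i' :: (L i' j' ++ [B j']) := by
        rw [e']
        simp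
      rw [List.mem_cons, List.mem_append, List.mem_singleton] at h1
      rcases h1 with h1 | h1 | h1
      · exact absurd h1 (h.av i j hij x hx i')
      · exact h1
      · exact absurd h1 (h.av i j hij x hx j')
    have hl : B i :: (L i j ++ [B j]) = (B i :: m) ++ x :: (m' ++ [B j]) := by
      rw [e]
      simp
    have hn := NBRM.nodup h i j hij
    have hn1 := NBRM.notMem x (B i :: m) (m' ++ [B j]) (by rw [← hl]; exact hn)
    rcases h.dis i j i' j' hij hij' x hx hx' with ⟨h1, h2⟩ | ⟨h1, h2⟩
    · subst h1
      subst h2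
      have hn2 := NBRM.notMem x P (z :: Q) (by rw [← e']; exact hn)
      have := NBRM.uniq x (m' ++ [B j]) (z :: Q) (B i :: m) P hn1 hn2 (by rw [← hl, e'])
      right
      rw [this.2]
      rfl
    · subst h1
      subst h2
      have e2 : B i :: (L i j ++ [B j]) = (Q.reverse ++ [z]) ++ x :: P.reverse := by
        have h3 : (B j :: (L j i ++ [B i])).reverse = B i :: (L i j ++ [B j]) := by
          rw [NBRM.revlist, h.rev i j hij, List.reverse_reverse]
        rw [← h3, e']
        simp
      have hn2 := NBRM.notMem x (Q.reverse ++ [z]) P.reverse (by rw [← e2]; exact hn)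
      have := NBRM.uniq x (m' ++ [B j]) P.reverse (B i :: m) (Q.reverse ++ [z]) hn1 hn2
        (by rw [← hl, e2])
      left
      rw [this.1]
      simp

end Pool.Agent.Lib.MPded8ec.SG
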