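import Pool.Agent.Lib.MP_ded8ec_lc.SG.SpecA

/-!
# Seymour graphs (MP_ded8ec_lc), module ONE: the vertex at which we contract
-/

set_option autoImplicit false

namespace Pool.Agent.Lib.MPded8ec.SG

universe u v

namespace ONEM

theorem add_self2 (x : ZMod 2) : x + x = 0 := CharTwo.add_self_eq_zero x

/-- the length of a single edge -/
theorem len_single {ε : Type v} [DecidableEq ε] (F : Finset ε) (f : ε) :
    len F {f} = if f ∈ F then -1 else 1 := by
  unfold len
  split_ifs with h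
  · rw [Finset.sdiff_eq_empty_iff_subset.2 (Finset.singleton_subset_iff.2 h),
      Finset.inter_eq_left.2 (Finset.singleton_subset_iff.2 h)]
    simp
  · rw [Finset.sdiff_eq_self_of_disjoint (Finset.disjoint_singleton_left.2 h),
      Finset.disjoint_iff_inter_eq_empty.1 (Finset.disjoint_singleton_left.2 h)]
    simp

theorem claim (hPAR : SpecPAR.{u, v}) (hSPL : SpecSPL.{u, v}) {V : Type u} {ε : Type v}
    [Fintype V] [DecidableEq V] [DecidableEq ε] (s t : ε → V) (E F' : Finset ε) (hF' : F' ⊆ E)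
    (hcons : Cons s t E F') (m : ℤ)
    (hm : ∀ K₁ ⊆ E, ∀ a' b', (∀ x, par s t K₁ x = ind a' x + ind b' x) → m ≤ len F' K₁)
    (a v : V) (hav : a ≠ v) (K₂ : Finset ε) (hK₂E : K₂ ⊆ E)
    (hK₂ : ∀ x, par s t K₂ x = ind a x + ind v x) (hlen : len F' K₂ = m) :
    ∃ f₀ ∈ F', (s f₀ = v ∨ t f₀ = v) ∧ ∀ f ∈ F', (s f = v ∨ t f = v) → f = f₀ := by
  obtain ⟨K', hK'K, hK', f₀, hf₀K, hat, huniq⟩ := hSPL V ε s t K₂ a v hav hK₂
  have hK'E : K' ⊆ E := hK'K.trans hK₂E
  have hJ : len F' (K₂ \ K') ≥ 0 := by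
    apply hcons _ (Finset.sdiff_subset.trans hK₂E)
    intro x
    have h1 : symmDiff K₂ K' = K₂ \ K' := by
      rw [symmDiff_def, Finset.sup_eq_union, Finset.sdiff_eq_empty_iff_subset.2 hK'K,
        Finset.union_empty]
    rw [← h1, hPAR.symm, hK₂, hK', add_self2]
  have hadd : len F' K₂ = len F' (K₂ \ K') + len F' K' := by
    rw [← hPAR.lenD ε F' (K₂ \ K') K' Finset.sdiff_disjoint, Finset.sdiff_union_of_subset hK'K]
  have hge := hm K' hK'E a v hK'
  have hKm : len F' K' = m := by omega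
  -- the other end
  have hother : ∀ f, (s f = v ∨ t f = v) → ∃ b, ∀ x, ind (s f) x + ind (t f) x =
      (ind v x + ind b x : ZMod 2) := by
    rintro f (h | h)
    · exact ⟨t f, fun x => by rw [h]⟩
    · exact ⟨s f, fun x => by rw [h, add_comm]⟩
  have hkind : ∀ f, (s f = v ∨ t f = v) → ∃ b, ∀ x, par s t (symmDiff K' {f}) x =
      ind a x + ind b x := by
    intro f hf
    obtain ⟨b, hb⟩ := hother f hf
    refine ⟨b, fun x => ?_⟩
    rw [hPAR.symm, hPAR.sing, hK', hb]
    have := add_self2 (ind v x)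
    linear_combination this
  by_cases hf₀ : f₀ ∈ F'
  · refine ⟨f₀, hf₀, hat, fun f hf hfat => ?_⟩
    by_contra hne
    have hfK : f ∉ K' := fun h => hne (huniq f h hfat)
    obtain ⟨b, hb⟩ := hkind f hfat
    have h1 : symmDiff K' {f} = K' ∪ {f} := by
      rw [(Finset.disjoint_singleton_right.2 hfK).symmDiff_eq_sup]
      rfl
    rw [h1] at hb
    have h2 := hm _ (Finset.union_subset hK'E (Finset.singleton_subset_iff.2 (hF' hf))) a b hb
    rw [hPAR.lenD ε F' K' {f} (Finset.disjoint_singleton_right.2 hfK), len_single, if_pos hf,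
      hKm] at h2
    omega
  · exfalso
    obtain ⟨b, hb⟩ := hkind f₀ hat
    have h1 : symmDiff K' {f₀} = K' \ {f₀} := by
      rw [symmDiff_def, Finset.sup_eq_union,
        Finset.sdiff_eq_empty_iff_subset.2 (Finset.singleton_subset_iff.2 hf₀K),
        Finset.union_empty]
    rw [h1] at hb
    have h2 := hm _ (Finset.sdiff_subset.trans hK'E) a b hb
    have h3 := hPAR.lenD ε F' (K' \ {f₀}) {f₀} Finset.sdiff_disjoint
    rw [Finset.sdiff_union_of_subset (Finset.singleton_subset_iff.2 hf₀K), len_single, if_neg hf₀,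
      hKm] at h3
    omega

end ONEM

open ONEM in
theorem specONE (hPAR : SpecPAR.{u, v}) (hSPL : SpecSPL.{u, v}) : SpecONE.{u, v} := by
  intro V ε _ _ _ s t c E F hE hFE hC hne
  classical
  let KK : Finset (Finset ε) :=
    E.powerset.filter fun K => ∃ a b, ∀ x, par s t K x = ind a x + ind b x
  obtain ⟨f, hf⟩ := hne
  have hfKK : {f} ∈ KK := by
    rw [Finset.mem_filter, Finset.mem_powerset]
    exact ⟨Finset.singleton_subset_iff.2 (hFE hf), s f, t f, fun x => hPAR.sing V ε s t f x⟩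
  obtain ⟨K, hK, hKmin⟩ := Finset.exists_min_image KK (len F) ⟨{f}, hfKK⟩
  rw [Finset.mem_filter, Finset.mem_powerset] at hK
  obtain ⟨hKE, a, v, hKk⟩ := hK
  have hm : ∀ K₁ ⊆ E, ∀ a' b', (∀ x, par s t K₁ x = ind a' x + ind b' x) →
      len F K ≤ len F K₁ := by
    intro K₁ h1 a' b' h2
    apply hKmin
    rw [Finset.mem_filter, Finset.mem_powerset]
    exact ⟨h1, a', b', h2⟩
  have hm1 : len F K ≤ -1 := by
    have := hKmin {f} hfKK
    rw [len_single, if_pos hf] at this
    exact this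
  have hav : a ≠ v := by
    rintro rfl
    have := hC K hKE fun x => by rw [hKk, add_self2]
    omega
  obtain ⟨f₀, hf₀F, hat, huniq⟩ := claim hPAR hSPL s t E F hFE hC (len F K) hm a v hav K hKE hKk rfl
  refine ⟨v, f₀, hf₀F, hat, huniq, ?_⟩
  rintro C hCE hC0 hf₀C ⟨e, heC, heat⟩
  by_contra hlt
  have h0 := hC C hCE hC0
  obtain ⟨r, hr⟩ := hPAR.even V ε s t c F C (fun e he => hE e (hCE he)) hC0
  have hlen0 : len F C = 0 := by omega
  have hlen : ∀ J, len (symmDiff F C) J = len F (symmDiff J C) := by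
    intro J
    rw [hPAR.lenS, hlen0, sub_zero]
  have hsub : ∀ J ⊆ E, symmDiff J C ⊆ E := by
    intro J hJ x hx
    rcases Finset.mem_symmDiff.1 hx with h | h
    · exact hJ h.1
    · exact hCE h.1
  have hpar : ∀ J x, par s t (symmDiff J C) x = par s t J x := by
    intro J x
    rw [hPAR.symm, hC0, add_zero]
  obtain ⟨f₁, hf₁F, hat₁, huniq₁⟩ := claim hPAR hSPL s t E (symmDiff F C) (hsub F hFE)
    (by
      intro J hJ hJ0
      rw [hlen]
      exact hC _ (hsub J hJ) fun x => by rw [hpar, hJ0])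
    (len F K)
    (by
      intro K₁ h1 a' b' h2
      rw [hlen]
      exact hm _ (hsub K₁ h1) a' b' fun x => by rw [hpar, h2])
    a v hav (symmDiff K C) (hsub K hKE) (fun x => by rw [hpar, hKk])
    (by rw [hlen, symmDiff_symmDiff_cancel_right])
  have h1 : f₀ = f₁ := huniq₁ f₀ (Finset.mem_symmDiff.2 (Or.inl ⟨hf₀F, hf₀C⟩)) hat
  have heF : e ∉ F := by
    intro h
    exact hf₀C (huniq e h heat ▸ heC)
  have h2 : e = f₁ := huniq₁ e (Finset.mem_symmDiff.2 (Or.inr ⟨heC, heF⟩)) heat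
  exact hf₀C (h1 ▸ h2 ▸ heC)

end Pool.Agent.Lib.MPded8ec.SG
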