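import Pool.Agent.Lib.MP_ded8ec_lc.SG.SpecB

/-!
# Module ORB (MP_ded8ec_lc): two involutions
-/

set_option autoImplicit false

namespace Pool.Agent.Lib.MPded8ec.SG

universe u v

namespace ORBM

variable {P : Type u}

/-- the product of two involutions -/
def sig (τ μ : P → P) (hτ : ∀ x, τ (τ x) = x) (hμ : ∀ x, μ (μ x) = x) : Equiv.Perm P where
  toFun x := τ (μ x)
  invFun x := μ (τ x)
  left_inv x := by simp [hτ, hμ]
  right_inv x := by simp [hτ, hμ]

/-- an involution -/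
def inv (τ : P → P) (hτ : ∀ x, τ (τ x) = x) : Equiv.Perm P where
  toFun := τ
  invFun := τ
  left_inv := hτ
  right_inv := hτ

variable (τ μ : P → P) (hτ : ∀ x, τ (τ x) = x) (hμ : ∀ x, μ (μ x) = x)

include hτ hμ in
lemma tau_zpow (x : P) (i : ℤ) :
    τ ((sig τ μ hτ hμ ^ i) x) = (sig τ μ hτ hμ ^ (-i)) (τ x) := by
  set σ := sig τ μ hτ hμ with hσ
  set T := inv τ hτ with hT
  have h1 : T * σ * T⁻¹ = σ⁻¹ := by
    ext y
    change τ (τ (μ (τ y))) = μ (τ y)
    rw [hτ]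
  have h2 : T * σ ^ i * T⁻¹ = σ ^ (-i) := by
    rw [← conj_zpow, h1, inv_zpow', ]
  have h3 := Equiv.ext_iff.1 h2 (τ x)
  rw [← h3]
  change τ ((σ ^ i) x) = τ ((σ ^ i) (τ (τ x)))
  rw [hτ]

lemma mu_zpow (x : P) (i : ℤ) :
    μ ((sig τ μ hτ hμ ^ i) x) = (sig τ μ hτ hμ ^ (-i - 1)) (τ x) := by
  have h1 : ∀ y, μ y = τ ((sig τ μ hτ hμ) y) := fun y => (hτ (μ y)).symm
  rw [h1, ← Equiv.Perm.mul_apply, ← zpow_one_add, tau_zpow τ μ hτ hμ]
  congr 2
  ring

lemma per (x : P) (i j : ℤ) : (sig τ μ hτ hμ ^ i) x = (sig τ μ hτ hμ ^ j) x ↔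
    (MulAction.period (sig τ μ hτ hμ) x : ℤ) ∣ i - j := by
  rw [← MulAction.zpow_smul_eq_iff_period_dvd, Equiv.Perm.smul_def, sub_eq_neg_add, zpow_add,
    Equiv.Perm.mul_apply, zpow_neg, Equiv.Perm.inv_eq_iff_eq]

variable [Finite P]

lemma per_pos (x : P) : 0 < MulAction.period (sig τ μ hτ hμ) x :=
  MulAction.period_pos_of_orderOf_pos (orderOf_pos _) x

/-- The orbit of a fixed point with an even period. -/
lemma orb {r : P} (hr : τ r = r) (he : Even (MulAction.period (sig τ μ hτ hμ) r)) :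
    Orb τ μ (fun i => (sig τ μ hτ hμ ^ (i : ℤ)) r)
      (MulAction.period (sig τ μ hτ hμ) r / 2) := by
  set σ := sig τ μ hτ hμ with hσ
  obtain ⟨m, hm⟩ := he
  have hpos := per_pos τ μ hτ hμ r
  rw [← hσ] at hpos
  have hm2 : MulAction.period σ r / 2 = m := by omega
  rw [hm2]
  have hT : ∀ i : ℤ, τ ((σ ^ i) r) = (σ ^ (-i)) r := by
    intro i
    rw [hσ, tau_zpow τ μ hτ hμ, hr]
  have hP : ∀ i j : ℤ, (σ ^ i) r = (σ ^ j) r ↔ ((m + m : ℕ) : ℤ) ∣ i - j := by
    intro i j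
    rw [hσ, per τ μ hτ hμ, ← hσ, hm]
  refine ⟨by omega, ?_, ?_, ?_, ?_, ?_⟩
  · rw [hT]
    simp
  · rw [hT, hP]
    exact ⟨-1, by push_cast; ring⟩
  · intro i _
    change (σ ^ ((i + 1 : ℕ) : ℤ)) r = σ ((σ ^ (i : ℤ)) r)
    rw [← Equiv.Perm.mul_apply, ← zpow_one_add]
    congr 2
    push_cast
    ring
  · intro i hi j hj hij
    refine ⟨?_, ?_⟩
    · rw [Ne, hP]
      intro h
      have h1 := Int.eq_zero_of_abs_lt_dvd h (by rw [abs_lt]; constructor <;> push_cast <;> omega)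
      omega
    · rw [hT, Ne, hP]
      intro h
      have h1 := Int.eq_zero_of_abs_lt_dvd h (by rw [abs_lt]; constructor <;> push_cast <;> omega)
      omega
  · intro i h0 hi
    rw [hT, Ne, hP]
    intro h
    have h1 := Int.eq_zero_of_abs_lt_dvd h (by rw [abs_lt]; constructor <;> push_cast <;> omega)
    omega

end ORBM

open ORBM

theorem specORB : SpecORB.{u} := by
  classical
  intro P _ _ τ μ hτ hμ hcard
  set σ := sig τ μ hτ hμ with hσ
  set F := Finset.univ.filter fun x => τ x = x with hF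
  set U := Finset.univ.filter fun x => μ x = x with hU
  have hT : ∀ r, τ r = r → ∀ i : ℤ, τ ((σ ^ i) r) = (σ ^ (-i)) r := by
    intro r hr i
    rw [hσ, tau_zpow τ μ hτ hμ, hr]
  have hP : ∀ r, ∀ i j : ℤ, (σ ^ i) r = (σ ^ j) r ↔ (MulAction.period σ r : ℤ) ∣ i - j := by
    intro r i j
    rw [hσ, per τ μ hτ hμ, ← hσ]
  have hodd : (F.filter fun r => ¬ Even (MulAction.period σ r)).card ≤ U.card := by
    refine Finset.card_le_card_of_injOn
      (fun r => (σ ^ (((MulAction.period σ r - 1) / 2 : ℕ) : ℤ)) r) ?_ ?_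
    · intro r hr
      rw [Finset.mem_coe, Finset.mem_filter, hF, Finset.mem_filter] at hr
      obtain ⟨⟨-, hr1⟩, hr2⟩ := hr
      rw [Finset.mem_coe, hU, Finset.mem_filter]
      refine ⟨Finset.mem_univ _, ?_⟩
      rw [Nat.not_even_iff_odd] at hr2
      obtain ⟨k, hk⟩ := hr2
      have hk' : (MulAction.period σ r - 1) / 2 = k := by omega
      change μ ((σ ^ (((MulAction.period σ r - 1) / 2 : ℕ) : ℤ)) r) =
        (σ ^ (((MulAction.period σ r - 1) / 2 : ℕ) : ℤ)) r
      rw [hk', hσ, mu_zpow τ μ hτ hμ, ← hσ, hr1, hP, hk]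
      exact ⟨-1, by push_cast; ring⟩
    · intro r hr r' hr' h
      rw [Finset.mem_coe, Finset.mem_filter, hF, Finset.mem_filter] at hr hr'
      obtain ⟨⟨-, hr1⟩, hr2⟩ := hr
      obtain ⟨⟨-, hr1'⟩, -⟩ := hr'
      simp only at h
      generalize (((MulAction.period σ r - 1) / 2 : ℕ) : ℤ) = a at h
      generalize (((MulAction.period σ r' - 1) / 2 : ℕ) : ℤ) = b at h
      have h1 : r' = (σ ^ (a - b)) r := by
        rw [sub_eq_neg_add, zpow_add, Equiv.Perm.mul_apply, h, ← Equiv.Perm.mul_apply, ← zpow_add]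
        simp
      have h2 : (σ ^ (-(a - b))) r = (σ ^ (a - b)) r := by
        rw [← hT r hr1, ← h1, hr1']
      rw [hP] at h2
      have h3 : (MulAction.period σ r : ℤ) ∣ a - b := by
        rw [Nat.not_even_iff_odd] at hr2
        have h4 : (MulAction.period σ r : ℤ) ∣ 2 * (a - b) := by
          obtain ⟨t, ht⟩ := h2
          exact ⟨-t, by linear_combination -ht⟩
        have h5 : IsCoprime (MulAction.period σ r : ℤ) 2 := by
          have h6 : Nat.Coprime (MulAction.period σ r) 2 := hr2.coprime_two_right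
          exact_mod_cast Nat.isCoprime_iff_coprime.2 h6
        exact h5.dvd_of_dvd_mul_left h4
      have h7 : (σ ^ (a - b)) r = (σ ^ (0 : ℤ)) r := by
        rw [hP, sub_zero]
        exact h3
      rw [h1, h7]
      simp
  have heven : 4 ≤ (F.filter fun r => Even (MulAction.period σ r)).card := by
    have h1 := Finset.card_filter_add_card_filter_not (s := F)
      (fun r => Even (MulAction.period σ r))
    omega
  set E := F.filter fun r => Even (MulAction.period σ r) with hE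
  have hmemE : ∀ r, r ∈ E ↔ τ r = r ∧ Even (MulAction.period σ r) := by
    intro r
    rw [hE, Finset.mem_filter, hF, Finset.mem_filter]
    simp
  obtain ⟨r, hr⟩ : E.Nonempty := Finset.card_pos.1 (by omega)
  have hr0 := (hmemE r).1 hr
  set m := MulAction.period σ r / 2 with hm
  obtain ⟨r₂, hr₂, hne⟩ : ∃ r₂ ∈ E, r₂ ∉ ({r, (σ ^ (m : ℤ)) r} : Finset P) := by
    apply Finset.exists_mem_notMem_of_card_lt_card
    have h1 : ({r, (σ ^ (m : ℤ)) r} : Finset P).card ≤ 2 := Finset.card_le_two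
    omega
  have hr20 := (hmemE r₂).1 hr₂
  rw [Finset.mem_insert, Finset.mem_singleton, not_or] at hne
  have horb : ∀ k : ℤ, r₂ ≠ (σ ^ k) r := by
    intro k hk
    have h1 : (σ ^ (-k)) r = (σ ^ k) r := by
      rw [← hT r hr0.1, ← hk, hr20.1]
    rw [hP] at h1
    obtain ⟨m', hm'⟩ := hr0.2
    have hm2 : m = m' := by omega
    obtain ⟨t, ht⟩ := h1
    rw [hm'] at ht
    have h2 : k = -(m : ℤ) * t := by
      rw [hm2]
      push_cast at ht
      linarith
    rcases Int.even_or_odd t with ⟨s, hs⟩ | ⟨s, hs⟩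
    · apply hne.1
      rw [hk]
      have h3 : (σ ^ k) r = (σ ^ (0 : ℤ)) r := by
        rw [hP, hm', h2, hs, hm2]
        exact ⟨-s, by push_cast; ring⟩
      rw [h3]
      simp
    · apply hne.2
      rw [hk, hP, hm', h2, hs, hm2]
      exact ⟨-s - 1, by push_cast; ring⟩
  refine ⟨_, _, _, _, orb τ μ hτ hμ hr0.1 hr0.2, orb τ μ hτ hμ hr20.1 hr20.2, ?_⟩
  intro i _ j _
  rw [← hσ]
  refine ⟨?_, ?_⟩
  · intro h
    apply horb (-(j : ℤ) + i)
    rw [zpow_add, Equiv.Perm.mul_apply, h, ← Equiv.Perm.mul_apply, ← zpow_add]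
    simp
  · intro h
    rw [hT r₂ hr20.1] at h
    apply horb ((j : ℤ) + i)
    rw [zpow_add, Equiv.Perm.mul_apply, h, ← Equiv.Perm.mul_apply, ← zpow_add]
    simp

end Pool.Agent.Lib.MPded8ec.SG
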