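import Pool.Agent.Lib.MP_ded8ec_lc.SG.SpecC

/-!
# Seymour graphs (MP_ded8ec_lc), module RTE: routes in the subdivision
-/

set_option autoImplicit false

namespace Pool.Agent.Lib.MPded8ec.SG

universe u

namespace RTEM

variable {V : Type u} {G : SimpleGraph V} {c : V → Bool} {s : ℕ} {B : Bool × Fin s → V}
  {L : Bool × Fin s → Bool × Fin s → List V}

/-- three elements of `Bool` -/
theorem third {a b c : Bool} (h1 : a ≠ b) (h2 : ¬ a ≠ c) : b ≠ c := by
  revert a b c
  decide

/-- a vertex of the route is the branch vertex or in the interior of a path with both ends among `f g i` -/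
theorem own_cases {f g i : Bool × Fin s} (hfg : f.1 ≠ g.1) {x : V} (h : Own B L f g i x) :
    x = B g ∨ ∃ p q, p.1 ≠ q.1 ∧ x ∈ L p q ∧ (p = f ∨ p = g) ∧ (q = g ∨ q = i) := by
  rcases h with ⟨h1, h2⟩ | h2 | h2 | ⟨h1, h2⟩
  · exact Or.inr ⟨f, i, h1, h2, Or.inl rfl, Or.inr rfl⟩
  · exact Or.inr ⟨f, g, hfg, h2, Or.inl rfl, Or.inl rfl⟩
  · exact Or.inl h2
  · exact Or.inr ⟨g, i, h1, h2, Or.inr rfl, Or.inr rfl⟩

end RTEM

open RTEM in
/-- **RTE**. -/
theorem specRTE (hW : SpecWKL.{u}) : SpecRTE.{u} where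
  route := by
    intro V G c s B L hK f g i hfg hfi hgi
    by_cases h : f.1 ≠ i.1
    · exact ⟨L f i, hK.wk f i h, hK.nd f i h, fun x hx => Or.inl ⟨h, hx⟩⟩
    · have hg : g.1 ≠ i.1 := third hfg h
      refine ⟨L f g ++ B g :: L g i, (hW.app V _ _ _ _ _ _).2 ⟨hK.wk f g hfg, hK.wk g i hg⟩,
        ?_, ?_⟩
      · rw [List.nodup_append]
        refine ⟨hK.nd f g hfg, ?_, ?_⟩
        · rw [List.nodup_cons]
          exact ⟨fun hm => hK.av g i hg _ hm g rfl, hK.nd g i hg⟩
        · intro a ha b hb hab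
          rw [List.mem_cons] at hb
          rcases hb with rfl | hb
          · exact hK.av f g hfg a ha g hab
          · rw [← hab] at hb
            rcases hK.dis f g g i hfg hg a ha hb with ⟨h1, _⟩ | ⟨h1, _⟩
            · exact hfg (by rw [h1])
            · exact hfi h1
      · intro x hx
        rw [List.mem_append, List.mem_cons] at hx
        rcases hx with hx | hx | hx
        · exact Or.inr (Or.inl hx)
        · exact Or.inr (Or.inr (Or.inl hx))
        · exact Or.inr (Or.inr (Or.inr ⟨hg, hx⟩))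
  disj := by
    intro V G c s B L hK f g i f' g' i' hfg hfg' hnd x h h'
    simp only [List.nodup_cons, List.mem_cons, List.not_mem_nil, or_false, not_or,
      List.nodup_nil, and_true, not_false_eq_true] at hnd
    obtain ⟨⟨n1, n2, n3, n4, n5⟩, ⟨n6, n7, n8, n9⟩, ⟨n10, n11, n12⟩, ⟨n13, n14⟩, n15⟩ := hnd
    rcases own_cases hfg h with h1 | ⟨p, q, hpq, h1, hp, hq⟩ <;>
      rcases own_cases hfg' h' with h2 | ⟨p', q', hpq', h2, hp', hq'⟩
    · exact n8 (hK.inj (h1.symm.trans h2))
    · exact hK.av p' q' hpq' x h2 g h1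
    · exact hK.av p q hpq x h1 g' h2
    · rcases hK.dis p q p' q' hpq hpq' x h1 h2 with ⟨e1, e2⟩ | ⟨e1, e2⟩
      · rcases hp with rfl | rfl <;> rcases hp' with rfl | rfl
        · exact n3 e1
        · exact n4 e1
        · exact n7 e1
        · exact n8 e1
      · rcases hp with rfl | rfl <;> rcases hq' with rfl | rfl
        · exact n4 e1
        · exact n5 e1
        · exact n8 e1
        · exact n9 e1
  dirL := by
    intro V G c s B L hK f g i y z hfg hyz ⟨hyf, hyg, hyi⟩ x h
    rcases own_cases hfg h with h1 | ⟨p, q, hpq, h1, hp, hq⟩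
    · exact ⟨fun h2 => hK.av y z hyz x h2 g h1, fun h2 => hK.av z y hyz.symm x h2 g h1⟩
    · have hyp : y ≠ p := by
        rcases hp with rfl | rfl
        · exact hyf
        · exact hyg
      have hyq : y ≠ q := by
        rcases hq with rfl | rfl
        · exact hyg
        · exact hyi
      constructor
      · intro h2
        rcases hK.dis p q y z hpq hyz x h1 h2 with ⟨e1, _⟩ | ⟨_, e2⟩
        · exact hyp e1.symm
        · exact hyq e2.symm
      · intro h2
        rcases hK.dis p q z y hpq hyz.symm x h1 h2 with ⟨_, e2⟩ | ⟨e1, _⟩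
        · exact hyq e2.symm
        · exact hyp e1.symm

end Pool.Agent.Lib.MPded8ec.SG
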