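import Pool.Agent.Lib.MP_ded8ec_lc.SG.SpecC

/-!
# Seymour graphs (MP_ded8ec_lc), module SEG: walks in `W` from an interior vertex to a branch vertex
-/

set_option autoImplicit false

namespace Pool.Agent.Lib.MPded8ec.SG

universe u

theorem specSEG (hN : SpecNBR.{u}) : SpecSEG.{u} := by
  intro V G c s B L hK i j k hij m'
  induction m' with
  | nil =>
    intro m x q hL hW hnd hav hne
    cases q with
    | nil =>
      rcases hN.nbr V G c s B L hK i j hij m [] x (B k) hL hW with h | h
      · exact absurd h hne
      · have h' : B j = B k := by simpa using h
        exact ⟨rfl, (hK.inj h').symm⟩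
    | cons z q' =>
      rcases hN.nbr V G c s B L hK i j hij m [] x z hL hW.1 with h | h
      · exact absurd h hne
      · have h' : B j = z := by simpa using h
        exact absurd h'.symm (hav z List.mem_cons_self j)
  | cons y m'' ih =>
    intro m x q hL hW hnd hav hne
    have hy : y ∈ L i j := by rw [hL]; simp
    cases q with
    | nil =>
      rcases hN.nbr V G c s B L hK i j hij m (y :: m'') x (B k) hL hW with h | h
      · exact absurd h hne
      · have h' : y = B k := by simpa using h
        exact absurd h' (hK.av i j hij y hy k)
    | cons z q' =>
      rcases hN.nbr V G c s B L hK i j hij m (y :: m'') x z hL hW.1 with h | h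
      · exact absurd h hne
      · have h' : y = z := by simpa using h
        subst h'
        have hx : x ∉ y :: (q' ++ [B k]) := (List.nodup_cons.1 hnd).1
        have h1 := ih (m ++ [x]) y q' (by rw [hL]; simp) hW.2 (List.nodup_cons.1 hnd).2
          (fun w hw => hav w (List.mem_cons_of_mem _ hw)) (by
            intro h2
            have h3 : (B i :: (m ++ [x])).getLast? = some x := by
              rw [← List.cons_append, List.getLast?_append]
              rfl
            rw [h3] at h2
            exact hx (List.mem_cons_of_mem _ (List.mem_of_mem_head? h2.symm)))
        exact ⟨by rw [h1.1], h1.2⟩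

end Pool.Agent.Lib.MPded8ec.SG
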