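import Pool.Agent.Lib.MP_ded8ec_lc.SG.SpecB

/-! # Seymour graphs (MP_ded8ec_lc), module SEP -/

set_option autoImplicit false

namespace Pool.Agent.Lib.MPded8ec.SG

universe u v

theorem specSEP : SpecSEP.{u, v} := by
  intro V Q _ _ _ _ G hG R c hR X Z κ g hE
  by_contra hZ
  obtain ⟨v, hv⟩ := Finset.nonempty_iff_ne_empty.2 hZ
  let N : Finset V := X ∪ (Finset.univ.filter fun w => w ∉ X ∧ w ∉ Z ∧ g w = g v)
  have hsum : (Finset.univ.filter fun w => w ∉ X ∧ w ∉ Z ∧ g w = g v).card / 2 ≤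
      ∑ q : Q, (Finset.univ.filter fun w => w ∉ X ∧ w ∉ Z ∧ g w = q).card / 2 :=
    Finset.single_le_sum
      (f := fun q : Q => (Finset.univ.filter fun w => w ∉ X ∧ w ∉ Z ∧ g w = q).card / 2)
      (fun _ _ => Nat.zero_le _) (Finset.mem_univ (g v))
  have hnum := hE.num
  have hN : N.card ≤ 3 := by
    have h1 : N.card ≤ X.card + (Finset.univ.filter fun w => w ∉ X ∧ w ∉ Z ∧ g w = g v).card :=
      Finset.card_union_le _ _
    omega
  have hconn := hG.2 N hN
  have hmem : ∀ w, w ∈ N ↔ w ∈ X ∨ (w ∉ X ∧ w ∉ Z ∧ g w = g v) := by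
    intro w
    show w ∈ X ∪ _ ↔ _
    rw [Finset.mem_union, Finset.mem_filter]
    simp
  have hvX : v ∉ X := fun h => Finset.disjoint_left.1 hE.ZX hv h
  have hvN : v ∉ N := by
    rw [hmem]
    rintro (h | h)
    · exact hvX h
    · exact h.2.1 hv
  have key : ∀ {a b : ((N : Set V)ᶜ : Set V)} (_ : (G.induce ((N : Set V)ᶜ)).Walk a b),
      (a.1 ∈ Z ∧ g a.1 = g v) → (b.1 ∈ Z ∧ g b.1 = g v) := by
    intro a b p
    induction p with
    | nil => exact id
    | @cons a b' _ h p ih =>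
      rintro ⟨ha1, ha2⟩
      apply ih
      have hadj : G.Adj a.1 b'.1 := h
      have hbN : b'.1 ∉ N := b'.2
      rw [hmem] at hbN
      push Not at hbN
      have hb1 := hE.both a.1 b'.1 ha1 hbN.1 hadj
      have hb2 : g b'.1 = g v := by rw [← hb1, ha2]
      refine ⟨?_, hb2⟩
      by_contra hbZ
      exact hbN.2 hbN.1 hbZ hb2
  have hall : ∀ w, w ∉ N → w ∈ Z := by
    intro w hw
    obtain ⟨p⟩ := hconn.preconnected ⟨v, hvN⟩ ⟨w, hw⟩
    exact (key p ⟨hv, rfl⟩).1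
  have hRN : R ⊆ N := by
    intro r hr
    by_contra h
    exact Finset.disjoint_left.1 hE.ZR (hall r h) hr
  have := Finset.card_le_card hRN
  omega

end Pool.Agent.Lib.MPded8ec.SG
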