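import Pool.Agent.Lib.MP_ded8ec_lc.SG.SpecA

/-!
# Seymour graphs (MP_ded8ec_lc), module SPL
-/

set_option autoImplicit false

namespace Pool.Agent.Lib.MPded8ec.SG

universe u v

namespace SPLM

theorem two (z : ZMod 2) : z + z = 0 := CharTwo.add_self_eq_zero z

theorem mem_off {V : Type u} {ε : Type v} [DecidableEq V] [DecidableEq ε] (s t : ε → V) (v : V)
    (K : Finset ε) (e : ε) : e ∈ off s t v K ↔ e ∈ K ∧ ¬ (s e = v ∨ t e = v) := by
  unfold off
  rw [Finset.mem_filter]

/-- no edge at `v` -/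
theorem par_off {V : Type u} {ε : Type v} [DecidableEq V] [DecidableEq ε] (s t : ε → V) (v : V)
    (K K' : Finset ε) (h : K' ⊆ off s t v K) : par s t K' v = 0 := by
  unfold par
  refine Finset.sum_eq_zero fun e he => ?_
  have h1 := (mem_off s t v K e).1 (h he)
  have h2 : s e ≠ v := fun h => h1.2 (Or.inl h)
  have h3 : t e ≠ v := fun h => h1.2 (Or.inr h)
  unfold ind
  rw [if_neg h2, if_neg h3, add_zero]

theorem ends {V : Type u} {ε : Type v} [DecidableEq V] (s t : ε → V) (a x y : V) (e : ε)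
    (h : (s e = x ∧ t e = y) ∨ (s e = y ∧ t e = x)) (z : V) :
    (ind a z + ind x z) + (ind (s e) z + ind (t e) z) = (ind a z + ind y z : ZMod 2) := by
  have h2 := two (ind x z : ZMod 2)
  rcases h with ⟨h1, h3⟩ | ⟨h1, h3⟩
  · rw [h1, h3]
    linear_combination h2
  · rw [h1, h3]
    linear_combination h2

end SPLM

theorem specSPL (hPAR : SpecPAR.{u, v}) : SpecSPL.{u, v} := by
  classical
  intro V ε _ _ _ s t K a v hav hK
  set S : Finset V := Finset.univ.filter fun x =>
    ∃ K'' ⊆ off s t v K, ∀ y, par s t K'' y = ind a y + ind x y with hS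
  have memS : ∀ x, x ∈ S ↔ ∃ K'' ⊆ off s t v K, ∀ y, par s t K'' y = ind a y + ind x y := by
    intro x
    rw [hS, Finset.mem_filter]
    exact ⟨fun h => h.2, fun h => ⟨Finset.mem_univ _, h⟩⟩
  have haS : a ∈ S := by
    refine (memS a).2 ⟨∅, Finset.empty_subset _, fun y => ?_⟩
    rw [SPLM.two]
    unfold par
    rw [Finset.sum_empty]
  have hvS : v ∉ S := by
    intro h
    obtain ⟨K'', h1, h2⟩ := (memS v).1 h
    have h3 := h2 v
    rw [SPLM.par_off s t v K K'' h1] at h3
    unfold ind at h3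
    rw [if_neg hav, if_pos rfl, zero_add] at h3
    exact absurd h3 (by decide)
  have hstep : ∀ x y e, e ∈ off s t v K → x ∈ S →
      ((s e = x ∧ t e = y) ∨ (s e = y ∧ t e = x)) → y ∈ S := by
    intro x y e he hx hxy
    obtain ⟨K'', h1, h2⟩ := (memS x).1 hx
    refine (memS y).2 ⟨symmDiff K'' {e}, ?_, fun z => ?_⟩
    · intro g hg
      rcases Finset.mem_symmDiff.1 hg with h | h
      · exact h1 h.1
      · rw [Finset.mem_singleton.1 h.1]
        exact he
    · rw [hPAR.symm V ε s t K'' {e} z, hPAR.sing V ε s t e z, h2 z]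
      exact SPLM.ends s t a x y e hxy z
  have hhand := hPAR.hand V ε s t K S
  have hsum : ∑ x ∈ S, par s t K x = 1 := by
    have h1 : ∀ x ∈ S, par s t K x = ind a x + ind v x := fun x _ => hK x
    rw [Finset.sum_congr rfl h1, Finset.sum_add_distrib]
    unfold ind
    rw [Finset.sum_ite_eq S a, Finset.sum_ite_eq S v, if_pos haS, if_neg hvS, add_zero]
  have hne : (K.filter fun e => ¬ (s e ∈ S ↔ t e ∈ S)).Nonempty := by
    rw [Finset.nonempty_iff_ne_empty]
    intro h
    rw [hsum, h, Finset.card_empty] at hhand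
    exact absurd hhand (by decide)
  obtain ⟨e, he⟩ := hne
  rw [Finset.mem_filter] at he
  obtain ⟨heK, heS⟩ := he
  have heoff : e ∉ off s t v K := by
    intro h
    apply heS
    constructor
    · intro h1
      exact hstep (s e) (t e) e h h1 (Or.inl ⟨rfl, rfl⟩)
    · intro h1
      exact hstep (t e) (s e) e h h1 (Or.inr ⟨rfl, rfl⟩)
  have hev : s e = v ∨ t e = v := by
    by_contra h
    exact heoff ((SPLM.mem_off s t v K e).2 ⟨heK, h⟩)
  -- the other end is in `S`
  have key : ∃ x, x ∈ S ∧ ((s e = x ∧ t e = v) ∨ (s e = v ∧ t e = x)) := by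
    by_cases h1 : s e ∈ S
    · have h2 : s e ≠ v := fun h => hvS (h ▸ h1)
      exact ⟨s e, h1, Or.inl ⟨rfl, hev.resolve_left h2⟩⟩
    · have h3 : t e ∈ S := by
        by_contra h4
        exact heS ⟨fun h => absurd h h1, fun h => absurd h h4⟩
      have h2 : t e ≠ v := fun h => hvS (h ▸ h3)
      exact ⟨t e, h3, Or.inr ⟨hev.resolve_right h2, rfl⟩⟩
  obtain ⟨x, hx, hxv⟩ := key
  obtain ⟨K'', h1, h2⟩ := (memS x).1 hx
  refine ⟨symmDiff K'' {e}, ?_, fun z => ?_, e, ?_, hev, ?_⟩
  · intro g hg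
    rcases Finset.mem_symmDiff.1 hg with h | h
    · exact ((SPLM.mem_off s t v K g).1 (h1 h.1)).1
    · rw [Finset.mem_singleton.1 h.1]
      exact heK
  · rw [hPAR.symm V ε s t K'' {e} z, hPAR.sing V ε s t e z, h2 z]
    exact SPLM.ends s t a x v e hxv z
  · exact Finset.mem_symmDiff.2 (Or.inr ⟨Finset.mem_singleton_self e, fun h => heoff (h1 h)⟩)
  · intro g hg hgv
    rcases Finset.mem_symmDiff.1 hg with h | h
    · exact absurd hgv ((SPLM.mem_off s t v K g).1 (h1 h.1)).2
    · exact Finset.mem_singleton.1 h.1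

end Pool.Agent.Lib.MPded8ec.SG
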