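import Pool.Agent.Lib.MP_ded8ec_lc.SG.SpecA

/-!
# SG, module TKN: a Seymour graph contains no totally odd subdivision of `K_4`
-/

set_option autoImplicit false

namespace Pool.Agent.Lib.MPded8ec.SG

universe u

namespace TKNM

variable {V : Type u}

/-- The pairs of consecutive elements (first and second, third and fourth, ..). -/
def pairs : List V → List (V × V)
  | [] => []
  | [_] => []
  | x :: y :: l => (x, y) :: pairs l

theorem vl_append (M N : List (V × V)) : vl (M ++ N) = vl M ++ vl N := by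
  induction M with
  | nil => rfl
  | cons p M ih => simp [vl, ih]

theorem vl_pairs : ∀ l : List V, Even l.length → vl (pairs l) = l
  | [], _ => rfl
  | [_], h => by simp at h
  | x :: y :: l, h => by
    have h' : Even l.length := by
      simp only [List.length_cons] at h
      rcases h with ⟨k, hk⟩
      exact ⟨k - 1, by omega⟩
    simp [pairs, vl, vl_pairs l h']

theorem adj {G : SimpleGraph V} : ∀ (l : List V) (a b : V), OddP G a l b →
    (∀ p ∈ pairs (a :: (l ++ [b])), G.Adj p.1 p.2) ∧ ∀ p ∈ pairs l, G.Adj p.1 p.2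
  | [], a, b, h => by
    refine ⟨?_, ?_⟩
    · intro p hp
      simp only [List.nil_append, pairs, List.mem_singleton] at hp
      rw [hp]
      exact h.1
    · intro p hp
      simp [pairs] at hp
  | [x], a, b, h => by
    have := h.2
    simp at this
  | x :: y :: l, a, b, h => by
    obtain ⟨⟨h1, h2, h3⟩, h4⟩ := h
    have h' : Even l.length := by
      simp only [List.length_cons] at h4
      rcases h4 with ⟨k, hk⟩
      exact ⟨k - 1, by omega⟩
    obtain ⟨i1, i2⟩ := adj l y b ⟨h3, h'⟩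
    refine ⟨?_, ?_⟩
    · intro p hp
      simp only [List.cons_append, pairs, List.mem_cons] at hp
      rcases hp with rfl | hp
      · exact h1
      · exact i1 p hp
    · intro p hp
      simp only [pairs, List.mem_cons] at hp
      rcases hp with rfl | hp
      · exact h2
      · exact i2 p hp

theorem col {d : V → Bool} : ∀ (l : List V) (a b : V), Even l.length →
    (∀ p ∈ pairs (a :: (l ++ [b])), d p.1 ≠ d p.2) → (∀ p ∈ pairs l, d p.1 ≠ d p.2) → d a ≠ d b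
  | [], a, b, _, h, _ => h (a, b) (by simp [pairs])
  | [x], a, b, h, _, _ => by simp at h
  | x :: y :: l, a, b, h, hA, hI => by
    have h' : Even l.length := by
      simp only [List.length_cons] at h
      rcases h with ⟨k, hk⟩
      exact ⟨k - 1, by omega⟩
    have h1 : d a ≠ d x := hA (a, x) (by simp [pairs])
    have h2 : d x ≠ d y := hI (x, y) (by simp [pairs])
    have h3 : d y ≠ d b := col l y b h'
      (fun p hp => hA p (by
        simp only [List.cons_append, pairs, List.mem_cons]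
        exact Or.inr hp))
      (fun p hp => hI p (by
        simp only [pairs, List.mem_cons]
        exact Or.inr hp))
    revert h1 h2 h3
    cases d a <;> cases d x <;> cases d y <;> cases d b <;> simp

theorem vlA {G : SimpleGraph V} {a b : V} {l : List V} (h : OddP G a l b) :
    vl (pairs (a :: (l ++ [b]))) = a :: (l ++ [b]) := by
  apply vl_pairs
  simp only [List.length_cons, List.length_append, List.length_nil]
  rcases h.2 with ⟨k, hk⟩
  exact ⟨k + 1, by omega⟩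

end TKNM

open TKNM in
/-- **TKN** -/
theorem specTKN (hOBS : SpecOBS.{u}) : SpecTKN.{u} := by
  classical
  rintro V _ G hG ⟨b₀, b₁, b₂, b₃, l₀₁, l₀₂, l₀₃, l₁₂, l₁₃, l₂₃, hn, h₀₁, h₂₃, h₀₂, h₁₃, h₀₃, h₁₂⟩
  have e₀₁ := adj l₀₁ b₀ b₁ h₀₁
  have e₂₃ := adj l₂₃ b₂ b₃ h₂₃
  have e₀₂ := adj l₀₂ b₀ b₂ h₀₂
  have e₁₃ := adj l₁₃ b₁ b₃ h₁₃
  have e₀₃ := adj l₀₃ b₀ b₃ h₀₃
  have e₁₂ := adj l₁₂ b₁ b₂ h₁₂
  set M₁ : List (V × V) := pairs (b₀ :: (l₀₁ ++ [b₁])) ++ (pairs (b₂ :: (l₂₃ ++ [b₃])) ++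
    (pairs l₀₂ ++ (pairs l₁₃ ++ (pairs l₀₃ ++ pairs l₁₂)))) with hM₁
  set M₂ : List (V × V) := pairs (b₀ :: (l₀₂ ++ [b₂])) ++ (pairs (b₁ :: (l₁₃ ++ [b₃])) ++
    (pairs l₀₁ ++ (pairs l₂₃ ++ (pairs l₀₃ ++ pairs l₁₂)))) with hM₂
  set M₃ : List (V × V) := pairs (b₀ :: (l₀₃ ++ [b₃])) ++ (pairs (b₁ :: (l₁₂ ++ [b₂])) ++
    (pairs l₀₁ ++ (pairs l₂₃ ++ (pairs l₀₂ ++ pairs l₁₃)))) with hM₃
  have v₁ : vl M₁ = (b₀ :: (l₀₁ ++ [b₁])) ++ ((b₂ :: (l₂₃ ++ [b₃])) ++
      (l₀₂ ++ (l₁₃ ++ (l₀₃ ++ l₁₂)))) := by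
    rw [hM₁, vl_append, vl_append, vl_append, vl_append, vl_append, vlA h₀₁, vlA h₂₃,
      vl_pairs _ h₀₂.2, vl_pairs _ h₁₃.2, vl_pairs _ h₀₃.2, vl_pairs _ h₁₂.2]
  have v₂ : vl M₂ = (b₀ :: (l₀₂ ++ [b₂])) ++ ((b₁ :: (l₁₃ ++ [b₃])) ++
      (l₀₁ ++ (l₂₃ ++ (l₀₃ ++ l₁₂)))) := by
    rw [hM₂, vl_append, vl_append, vl_append, vl_append, vl_append, vlA h₀₂, vlA h₁₃,
      vl_pairs _ h₀₁.2, vl_pairs _ h₂₃.2, vl_pairs _ h₀₃.2, vl_pairs _ h₁₂.2]
  have v₃ : vl M₃ = (b₀ :: (l₀₃ ++ [b₃])) ++ ((b₁ :: (l₁₂ ++ [b₂])) ++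
      (l₀₁ ++ (l₂₃ ++ (l₀₂ ++ l₁₃)))) := by
    rw [hM₃, vl_append, vl_append, vl_append, vl_append, vl_append, vlA h₀₃, vlA h₁₂,
      vl_pairs _ h₀₁.2, vl_pairs _ h₂₃.2, vl_pairs _ h₀₂.2, vl_pairs _ h₁₃.2]
  have p₀ : (vl M₁).Perm
      (b₀ :: b₁ :: b₂ :: b₃ :: (l₀₁ ++ (l₂₃ ++ (l₀₂ ++ (l₁₃ ++ (l₀₃ ++ l₁₂)))))) := by
    rw [v₁, List.perm_iff_count]
    intro x
    simp only [List.count_append, List.count_cons, List.count_nil]
    ring
  have p₂ : (vl M₂).Perm (vl M₁) := by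
    rw [v₁, v₂, List.perm_iff_count]
    intro x
    simp only [List.count_append, List.count_cons, List.count_nil]
    ring
  have p₃ : (vl M₃).Perm (vl M₁) := by
    rw [v₁, v₃, List.perm_iff_count]
    intro x
    simp only [List.count_append, List.count_cons, List.count_nil]
    ring
  have a₁ : ∀ p ∈ M₁, G.Adj p.1 p.2 := by
    intro p hp
    simp only [hM₁, List.mem_append] at hp
    rcases hp with h | h | h | h | h | h
    · exact e₀₁.1 p h
    · exact e₂₃.1 p h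
    · exact e₀₂.2 p h
    · exact e₁₃.2 p h
    · exact e₀₃.2 p h
    · exact e₁₂.2 p h
  have a₂ : ∀ p ∈ M₂, G.Adj p.1 p.2 := by
    intro p hp
    simp only [hM₂, List.mem_append] at hp
    rcases hp with h | h | h | h | h | h
    · exact e₀₂.1 p h
    · exact e₁₃.1 p h
    · exact e₀₁.2 p h
    · exact e₂₃.2 p h
    · exact e₀₃.2 p h
    · exact e₁₂.2 p h
  have a₃ : ∀ p ∈ M₃, G.Adj p.1 p.2 := by
    intro p hp
    simp only [hM₃, List.mem_append] at hp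
    rcases hp with h | h | h | h | h | h
    · exact e₀₃.1 p h
    · exact e₁₂.1 p h
    · exact e₀₁.2 p h
    · exact e₂₃.2 p h
    · exact e₀₂.2 p h
    · exact e₁₃.2 p h
  obtain ⟨d, hd⟩ := hOBS V G hG M₁ a₁ (p₀.nodup_iff.2 hn)
  have d₁ := hd M₁ a₁ (List.Perm.refl _)
  have d₂ := hd M₂ a₂ p₂
  have d₃ := hd M₃ a₃ p₃
  have c₀₁ : d b₀ ≠ d b₁ := col l₀₁ b₀ b₁ h₀₁.2
    (fun p hp => d₁ p (by simp only [hM₁, List.mem_append]; tauto))
    (fun p hp => d₂ p (by simp only [hM₂, List.mem_append]; tauto))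
  have c₀₂ : d b₀ ≠ d b₂ := col l₀₂ b₀ b₂ h₀₂.2
    (fun p hp => d₂ p (by simp only [hM₂, List.mem_append]; tauto))
    (fun p hp => d₁ p (by simp only [hM₁, List.mem_append]; tauto))
  have c₁₂ : d b₁ ≠ d b₂ := col l₁₂ b₁ b₂ h₁₂.2
    (fun p hp => d₃ p (by simp only [hM₃, List.mem_append]; tauto))
    (fun p hp => d₁ p (by simp only [hM₁, List.mem_append]; tauto))
  revert c₀₁ c₀₂ c₁₂
  cases d b₀ <;> cases d b₁ <;> cases d b₂ <;> simp

end Pool.Agent.Lib.MPded8ec.SG
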