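import Pool.Agent.Lib.MP_ded8ec_lc.SG.PAR
import Pool.Agent.Lib.MP_ded8ec_lc.SG.SPL
import Pool.Agent.Lib.MP_ded8ec_lc.SG.ONE
import Pool.Agent.Lib.MP_ded8ec_lc.SG.CTR
import Pool.Agent.Lib.MP_ded8ec_lc.SG.BIP
import Pool.Agent.Lib.MP_ded8ec_lc.SG.EVN
import Pool.Agent.Lib.MP_ded8ec_lc.SG.APX
import Pool.Agent.Lib.MP_ded8ec_lc.SG.OBS
import Pool.Agent.Lib.MP_ded8ec_lc.SG.TKN
import Pool.Agent.Lib.MP_ded8ec_lc.SG.WKL
import Pool.Agent.Lib.MP_ded8ec_lc.SG.TBF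
import Pool.Agent.Lib.MP_ded8ec_lc.SG.ORB
import Pool.Agent.Lib.MP_ded8ec_lc.SG.AUG
import Pool.Agent.Lib.MP_ded8ec_lc.SG.CNT
import Pool.Agent.Lib.MP_ded8ec_lc.SG.SEP
import Pool.Agent.Lib.MP_ded8ec_lc.SG.CLS
import Pool.Agent.Lib.MP_ded8ec_lc.SG.DIC
import Pool.Agent.Lib.MP_ded8ec_lc.SG.MCT
import Pool.Agent.Lib.MP_ded8ec_lc.SG.MST
import Pool.Agent.Lib.MP_ded8ec_lc.SG.MIN
import Pool.Agent.Lib.MP_ded8ec_lc.SG.KSU
import Pool.Agent.Lib.MP_ded8ec_lc.SG.CNR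
import Pool.Agent.Lib.MP_ded8ec_lc.SG.NBR
import Pool.Agent.Lib.MP_ded8ec_lc.SG.SEG
import Pool.Agent.Lib.MP_ded8ec_lc.SG.EX1
import Pool.Agent.Lib.MP_ded8ec_lc.SG.EXC
import Pool.Agent.Lib.MP_ded8ec_lc.SG.RTE
import Pool.Agent.Lib.MP_ded8ec_lc.SG.ASM
import Pool.Agent.Lib.MP_ded8ec_lc.SG.FAN
import Pool.Agent.Lib.MP_ded8ec_lc.SG.TRI
import Pool.Agent.Lib.MP_ded8ec_lc.SG.FIN

/-!
# Seymour graphs (MP_ded8ec_lc): the theorem (helper29)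
-/

set_option autoImplicit false

namespace Pool.Agent.Lib.MPded8ec.SG

universe u

theorem mBIP : SpecBIP.{u, u} :=
  specBIP (specONE specPAR (specSPL specPAR)) (specCTR specPAR)

theorem mAPX : SpecAPX.{u} := specAPX specPAR specEVN mBIP

theorem mTKN : SpecTKN.{u} := specTKN specOBS

theorem mDIC : SpecDIC.{u} :=
  specDIC specTBF (specAUG specORB specWKL) specCNT specSEP specCLS

theorem mKSU : SpecKSU.{u} := specKSU specWKL (specMIN (specMST specWKL))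

theorem mEXC : SpecEXC.{u} := specEXC (specEX1 specWKL specCNR specNBR (specSEG specNBR))

theorem mASM : SpecASM.{u} := specASM specWKL (specRTE specWKL)

theorem main : Main.{u} :=
  specFIN mAPX mTKN mDIC specMCT mKSU mEXC mASM (specTRI specFAN)

end Pool.Agent.Lib.MPded8ec.SG
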