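import Pool.Agent.Lib.MP_ded8ec_lc.SG.SpecB

/-!
# Seymour graphs (MP_ded8ec_lc), module TBF (helper46): the deficiency version of Tutte's theorem
-/

set_option autoImplicit false

namespace Pool.Agent.Lib.MPded8ec.SG

universe u v

namespace TBFM

/-- the graph `H⁺` -/
def HP {P : Type u} (H : SimpleGraph P) (k : ℕ) : SimpleGraph (P ⊕ Fin k) where
  Adj x y := x ≠ y ∧ ∀ a b, x = Sum.inl a → y = Sum.inl b → H.Adj a b
  symm := ⟨fun _ _ h => ⟨h.1.symm, fun a b ha hb => (h.2 b a hb ha).symm⟩⟩
  loopless := ⟨fun _ h => h.1 rfl⟩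

/-- a perfect matching of `H⁺` gives an involution -/
theorem mat {P : Type u} [Fintype P] [DecidableEq P] (H : SimpleGraph P) (k : ℕ)
    (M : (HP H k).Subgraph) (hM : M.IsPerfectMatching) :
    ∃ μ : P → P, (∀ x, μ (μ x) = x) ∧ (∀ x, μ x ≠ x → H.Adj x (μ x)) ∧
      (Finset.univ.filter fun x => μ x = x).card ≤ k := by
  classical
  rw [SimpleGraph.Subgraph.isPerfectMatching_iff] at hM
  choose g hg hgu using hM
  have hgg : ∀ v, g (g v) = v := fun v => (hgu (g v) v (hg v).symm).symm
  have hinj : Function.Injective g := fun a b hab => by rw [← hgg a, hab, hgg]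
  let μ : P → P := fun x => Sum.elim id (fun _ => x) (g (Sum.inl x))
  have h1 : ∀ x b, g (Sum.inl x) = Sum.inl b → μ x = b := by
    intro x b h
    show Sum.elim id (fun _ => x) (g (Sum.inl x)) = b
    rw [h]
    rfl
  have h2 : ∀ x i, g (Sum.inl x) = Sum.inr i → μ x = x := by
    intro x i h
    show Sum.elim id (fun _ => x) (g (Sum.inl x)) = x
    rw [h]
    rfl
  refine ⟨μ, ?_, ?_, ?_⟩
  · intro x
    rcases hx : g (Sum.inl x) with b | i
    · rw [h1 x b hx]
      apply h1
      rw [← hx, hgg]
    · rw [h2 x i hx, h2 x i hx]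
  · intro x hne
    rcases hx : g (Sum.inl x) with b | i
    · rw [h1 x b hx]
      have hadj := (hg (Sum.inl x)).adj_sub
      exact hadj.2 x b rfl hx
    · exact absurd (h2 x i hx) hne
  · have h3 : ∀ x, μ x = x → ∃ i, g (Sum.inl x) = Sum.inr i := by
      intro x hμ
      rcases hx : g (Sum.inl x) with b | i
      · exfalso
        have hb := h1 x b hx
        have hadj := (hg (Sum.inl x)).adj_sub
        rw [hx, ← hb, hμ] at hadj
        exact hadj.1 rfl
      · exact ⟨i, rfl⟩
    have h4 : ((Finset.univ.filter fun x => μ x = x).image fun x => g (Sum.inl x)) ⊆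
        (Finset.univ : Finset (Fin k)).image (fun i => (Sum.inr i : P ⊕ Fin k)) := by
      intro y hy
      rw [Finset.mem_image] at hy
      obtain ⟨x, hx, rfl⟩ := hy
      obtain ⟨i, hi⟩ := h3 x (Finset.mem_filter.1 hx).2
      rw [hi]
      exact Finset.mem_image_of_mem _ (Finset.mem_univ i)
    have h5 := Finset.card_le_card h4
    rw [Finset.card_image_of_injective _ (fun a b hab => Sum.inl_injective (hinj hab))] at h5
    refine h5.trans (Finset.card_image_le.trans ?_)
    rw [Finset.card_univ, Fintype.card_fin]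

/-- representatives of the components -/
theorem comp {W P : Type u} [Finite W] [Fintype P] [DecidableEq P] (D : SimpleGraph W)
    (e : W → P) (he : Function.Injective e) (S : Finset P) (hS : ∀ x, x ∉ S ↔ ∃ v, e v = x) :
    ∃ f : P → P, (∀ v v', D.Adj v v' → f (e v) = f (e v')) ∧
      D.oddComponents.ncard ≤ (Finset.univ.filter fun q =>
        Odd (Finset.univ.filter fun x => x ∉ S ∧ f x = q).card).card := by
  classical
  have hrep : ∀ c : D.ConnectedComponent, ∃ v, D.connectedComponentMk v = c := fun c =>
    Quot.exists_rep c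
  choose rep hrep using hrep
  let f : P → P := fun x => if h : ∃ v, e v = x then
    e (rep (D.connectedComponentMk h.choose)) else x
  have hf : ∀ v, f (e v) = e (rep (D.connectedComponentMk v)) := by
    intro v
    have h : ∃ v', e v' = e v := ⟨v, rfl⟩
    show (if h : ∃ v', e v' = e v then e (rep (D.connectedComponentMk h.choose)) else e v) = _
    rw [dif_pos h]
    have := he h.choose_spec
    rw [this]
  have hri : Function.Injective fun c => e (rep c) := by
    intro c c' hcc
    have := he hcc
    rw [← hrep c, ← hrep c', this]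
  refine ⟨f, ?_, ?_⟩
  · intro v v' hvv
    rw [hf, hf]
    have : D.connectedComponentMk v = D.connectedComponentMk v' :=
      SimpleGraph.ConnectedComponent.sound hvv.reachable
    rw [this]
  · have key : ∀ c : D.ConnectedComponent,
        (Finset.univ.filter fun x => x ∉ S ∧ f x = e (rep c)).card = c.supp.ncard := by
      intro c
      rw [← Set.ncard_image_of_injective c.supp he, ← Set.ncard_coe_finset]
      congr 1
      ext x
      simp only [Finset.coe_filter, Finset.mem_univ, true_and, Set.mem_ofPred_eq, Set.mem_image,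
        SimpleGraph.ConnectedComponent.mem_supp_iff]
      constructor
      · rintro ⟨h1, h2⟩
        obtain ⟨v, rfl⟩ := (hS x).1 h1
        refine ⟨v, ?_, rfl⟩
        rw [hf] at h2
        exact hri h2
      · rintro ⟨v, hv, rfl⟩
        refine ⟨(hS _).2 ⟨v, rfl⟩, ?_⟩
        rw [hf, hv]
    have h1 : (fun c => e (rep c)) '' D.oddComponents ⊆
        ((Finset.univ.filter fun q =>
        Odd (Finset.univ.filter fun x => x ∉ S ∧ f x = q).card : Finset P) : Set P) := by
      rintro q ⟨c, hc, rfl⟩
      rw [Finset.mem_coe, Finset.mem_filter]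
      refine ⟨Finset.mem_univ _, ?_⟩
      show Odd (Finset.univ.filter fun x => x ∉ S ∧ f x = e (rep c)).card
      rw [key]
      exact hc
    have h2 := Set.ncard_le_ncard h1 (Finset.finite_toSet _)
    rwa [Set.ncard_image_of_injective _ hri, Set.ncard_coe_finset] at h2

end TBFM

open TBFM in
theorem specTBF : SpecTBF.{u} := by
  classical
  intro P _ _ H k hev hno
  have h1 : ¬ ∃ M : (HP H k).Subgraph, M.IsPerfectMatching := by
    rintro ⟨M, hM⟩
    exact hno (mat H k M hM)
  rw [SimpleGraph.tutte] at h1
  push Not at h1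
  obtain ⟨U, hU⟩ := h1
  unfold SimpleGraph.IsTutteViolator at hU
  have hmem : ∀ x : P ⊕ Fin k, x ∈ ((⊤ : (HP H k).Subgraph).deleteVerts U).verts ↔ x ∉ U := by
    intro x
    rw [SimpleGraph.Subgraph.deleteVerts_verts]
    simp
  have hadj : ∀ x y : ((⊤ : (HP H k).Subgraph).deleteVerts U).verts,
      (HP H k).Adj x.1 y.1 → ((⊤ : (HP H k).Subgraph).deleteVerts U).coe.Adj x y := by
    intro x y hxy
    rw [SimpleGraph.Subgraph.coe_adj, SimpleGraph.Subgraph.deleteVerts_adj]
    exact ⟨trivial, (hmem _).1 x.2, trivial, (hmem _).1 y.2, hxy⟩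
  have hcardV : Nat.card ((⊤ : (HP H k).Subgraph).deleteVerts U).verts + U.ncard =
      Fintype.card P + k := by
    have e1 : ((⊤ : (HP H k).Subgraph).deleteVerts U).verts = Uᶜ := by
      ext x
      rw [hmem]
      rfl
    rw [e1, Nat.card_coe_set_eq, add_comm, Set.ncard_add_ncard_compl, Nat.card_eq_fintype_card,
      Fintype.card_sum, Fintype.card_fin]
  have hpar := SimpleGraph.odd_ncard_oddComponents
    ((⊤ : (HP H k).Subgraph).deleteVerts U).coe
  -- all elements of `Fin k` are in `U`
  have hall : ∀ i : Fin k, (Sum.inr i : P ⊕ Fin k) ∈ U := by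
    intro i
    by_contra hi
    let vi : ((⊤ : (HP H k).Subgraph).deleteVerts U).verts := ⟨Sum.inr i, (hmem _).2 hi⟩
    have hreach : ∀ v : ((⊤ : (HP H k).Subgraph).deleteVerts U).verts,
        ((⊤ : (HP H k).Subgraph).deleteVerts U).coe.connectedComponentMk v =
        ((⊤ : (HP H k).Subgraph).deleteVerts U).coe.connectedComponentMk vi := by
      intro v
      by_cases hv : v = vi
      · rw [hv]
      · apply SimpleGraph.ConnectedComponent.sound
        apply SimpleGraph.Adj.reachable
        apply hadj
        refine ⟨fun h => hv (Subtype.ext h), ?_⟩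
        intro a b _ hb
        exact absurd hb (by simp [vi])
    have hle : ((⊤ : (HP H k).Subgraph).deleteVerts U).coe.oddComponents.ncard ≤ 1 := by
      rw [Set.ncard_le_one_iff]
      intro c c' _ _
      obtain ⟨v, rfl⟩ := Quot.exists_rep c
      obtain ⟨v', rfl⟩ := Quot.exists_rep c'
      exact (hreach v).trans (hreach v').symm
    have h0 : U.ncard = 0 := by omega
    have h2 : ((⊤ : (HP H k).Subgraph).deleteVerts U).coe.oddComponents.ncard = 1 := by omega
    rw [h2] at hpar
    have h3 := hpar.1 odd_one
    rw [h0, add_zero] at hcardV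
    rw [hcardV] at h3
    exact (Nat.not_odd_iff_even.2 hev) h3
  have hinl : ∀ v : ((⊤ : (HP H k).Subgraph).deleteVerts U).verts, ∃ a, v.1 = Sum.inl a := by
    rintro ⟨x, hx⟩
    rcases x with a | i
    · exact ⟨a, rfl⟩
    · exact absurd (hall i) ((hmem _).1 hx)
  choose e he using hinl
  have hei : Function.Injective e := by
    intro v v' h
    apply Subtype.ext
    rw [he v, he v', h]
  let S : Finset P := Finset.univ.filter fun x => (Sum.inl x : P ⊕ Fin k) ∈ U
  have hS : ∀ x, x ∉ S ↔ ∃ v, e v = x := by
    intro x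
    constructor
    · intro hx
      have hx' : (Sum.inl x : P ⊕ Fin k) ∉ U := fun h => hx (Finset.mem_filter.2
        ⟨Finset.mem_univ _, h⟩)
      refine ⟨⟨Sum.inl x, (hmem _).2 hx'⟩, ?_⟩
      have := he ⟨Sum.inl x, (hmem _).2 hx'⟩
      exact (Sum.inl_injective this).symm
    · rintro ⟨v, rfl⟩ hv
      have h2 := (Finset.mem_filter.1 hv).2
      rw [← he v] at h2
      exact (hmem _).1 v.2 h2
  obtain ⟨f, hf1, hf2⟩ := comp ((⊤ : (HP H k).Subgraph).deleteVerts U).coe e hei S hS
  refine ⟨S, f, ?_, ?_⟩
  · intro x y hx hy hxy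
    obtain ⟨v, rfl⟩ := (hS x).1 hx
    obtain ⟨v', rfl⟩ := (hS y).1 hy
    apply hf1
    apply hadj
    refine ⟨?_, ?_⟩
    · intro h
      have h2 := Subtype.ext h
      rw [h2] at hxy
      exact H.loopless.irrefl _ hxy
    · intro a b ha hb
      rw [he v] at ha
      rw [he v'] at hb
      rw [← Sum.inl_injective ha, ← Sum.inl_injective hb]
      exact hxy
  · have hUc : U.ncard = S.card + k := by
      have e1 : U = ((S.image Sum.inl ∪ Finset.univ.image Sum.inr : Finset (P ⊕ Fin k)) :
          Set (P ⊕ Fin k)) := by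
        ext x
        rcases x with a | i
        · simp [S]
        · simp [hall i]
      rw [e1, Set.ncard_coe_finset, Finset.card_union_of_disjoint,
        Finset.card_image_of_injective _ Sum.inl_injective,
        Finset.card_image_of_injective _ Sum.inr_injective, Finset.card_univ, Fintype.card_fin]
      rw [Finset.disjoint_left]
      intro x hx hx'
      rw [Finset.mem_image] at hx hx'
      obtain ⟨a, -, rfl⟩ := hx
      obtain ⟨i, -, hi⟩ := hx'
      cases hi
    have h2 : ((⊤ : (HP H k).Subgraph).deleteVerts U).coe.oddComponents.ncard ≠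
        S.card + k + 1 := by
      intro h
      rw [h] at hpar
      rw [hUc] at hcardV
      rcases Nat.even_or_odd (S.card + k) with ho | ho
      · have h3 := hpar.1 ho.add_one
        rw [Nat.even_iff] at hev ho
        rw [Nat.odd_iff] at h3
        omega
      · have h3 : ¬ Odd (S.card + k + 1) := by
          rw [Nat.not_odd_iff_even]
          exact ho.add_one
        have h4 := (not_congr hpar).1 h3
        rw [Nat.not_odd_iff_even] at h4
        rw [Nat.even_iff] at hev h4
        rw [Nat.odd_iff] at ho
        omega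
    rw [hUc] at hU
    refine le_trans ?_ hf2
    omega

end Pool.Agent.Lib.MPded8ec.SG
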