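import Pool.Agent.Lib.MP_ded8ec_lc.SG.SpecC

/-! # Seymour graphs (MP_ded8ec_lc), module CNR (helper11) -/

set_option autoImplicit false

namespace Pool.Agent.Lib.MPded8ec.SG

universe u

namespace CNRM

theorem cons {V : Type u} (r : V → V → Prop) (a x b : V) (l : List V) :
    cnt r a (x :: l) b = cnt r a [] x + cnt r x l b := rfl

theorem app {V : Type u} (r : V → V → Prop) (x b : V) (l' : List V) (l : List V) :
    ∀ a : V, cnt r a (l ++ x :: l') b = cnt r a l x + cnt r x l' b := by
  induction l with
  | nil =>
    intro a
    exact cons r a x b l'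
  | cons y l ih =>
    intro a
    rw [List.cons_append, cons, ih y, cons r a y x l, add_assoc]

theorem swap {V : Type u} (r : V → V → Prop) (hr : ∀ x y, r x y → r y x) (a b : V) :
    cnt r b [] a = cnt r a [] b := by
  classical
  have h : r b a ↔ r a b := ⟨hr b a, hr a b⟩
  simp only [cnt, h]

theorem rev {V : Type u} (r : V → V → Prop) (hr : ∀ x y, r x y → r y x) (b : V) (l : List V) :
    ∀ a : V, cnt r b l.reverse a = cnt r a l b := by
  induction l with
  | nil =>
    intro a
    exact swap r hr a b
  | cons y l ih =>
    intro a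
    rw [List.reverse_cons, app r y a [] l.reverse b, ih y, swap r hr a y, cons r a y b l, add_comm]

theorem one {V : Type u} (r : V → V → Prop) (a b : V) : cnt r a [] b = 0 ↔ r a b := by
  classical
  by_cases h : r a b <;> simp [cnt, h]

theorem wk {V : Type u} (r : V → V → Prop) (b : V) (l : List V) :
    ∀ a : V, cnt r a l b = 0 ↔ Wk r a l b := by
  induction l with
  | nil =>
    intro a
    exact one r a b
  | cons y l ih =>
    intro a
    rw [cons, Nat.add_eq_zero_iff, one, ih y]
    exact Iff.rfl

end CNRM

theorem specCNR : SpecCNR.{u} where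
  app _ r a x b l l' := CNRM.app r x b l' l a
  rev _ r hr a b l := CNRM.rev r hr b l a
  wk _ r a b l := CNRM.wk r b l a

end Pool.Agent.Lib.MPded8ec.SG
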