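import Mathlib

/-!
# Seymour graphs (MP_ded8ec_lc): definitions of the hand-in

Captain helper29.
-/

set_option autoImplicit false

namespace Pool.Agent.Lib.MPded8ec.SG

universe u

/-- The cut `δ(X)`: the edges with exactly one end in `X`. -/
def cut {V : Type u} (G : SimpleGraph V) (X : Set V) : Set (Sym2 V) :=
  {e | ∃ x y, x ∈ X ∧ y ∉ X ∧ G.Adj x y ∧ e = s(x, y)}

/-- `F` is admissible: a set of edges with `|C ∩ F| ≤ |C ∖ F|` for every circuit `C`. -/
def Admissible {V : Type u} (G : SimpleGraph V) (F : Set (Sym2 V)) : Prop :=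
  F ⊆ G.edgeSet ∧ ∀ (v : V) (C : G.Walk v v), C.IsCycle →
    {e | e ∈ C.edges ∧ e ∈ F}.ncard ≤ {e | e ∈ C.edges ∧ e ∉ F}.ncard

/-- `G` is a Seymour graph: for every admissible `F` there are `|F|` pairwise disjoint cuts (a family
indexed by the elements of `F`), each of which contains exactly one edge of `F`. -/
def IsSeymour {V : Type u} (G : SimpleGraph V) : Prop :=
  ∀ F : Set (Sym2 V), Admissible G F → ∃ X : F → Set V,
    (∀ f g, f ≠ g → Disjoint (cut G (X f)) (cut G (X g))) ∧
    ∀ f, ∃! e, e ∈ cut G (X f) ∧ e ∈ F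

/-- `G` is 4-connected: at least 5 vertices, connected after the removal of at most 3 vertices. -/
def Conn4 {V : Type u} [Fintype V] (G : SimpleGraph V) : Prop :=
  5 ≤ Fintype.card V ∧ ∀ N : Finset V, N.card ≤ 3 → (G.induce ((N : Set V)ᶜ)).Connected

/-- `G - v` is bipartite for some vertex `v`. -/
def Apex {V : Type u} (G : SimpleGraph V) : Prop :=
  ∃ (v : V) (c : V → Bool), ∀ x y, x ≠ v → y ≠ v → G.Adj x y → c x ≠ c y

end Pool.Agent.Lib.MPded8ec.SG
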