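import Pool.Agent.Lib.MP_ded8ec_lc.SG.SpecA

/-!
# Seymour graphs (MP_ded8ec_lc), module PAR: algebra of edge sets
-/

set_option autoImplicit false

namespace Pool.Agent.Lib.MPded8ec.SG

universe u v

namespace PARM

variable {V : Type u} {ε : Type v} [DecidableEq V] [DecidableEq ε]

theorem add_self (a : ZMod 2) : a + a = 0 := CharTwo.add_self_eq_zero a

theorem split {M : Type} [AddCommMonoid M] (f : ε → M) (J J' : Finset ε) :
    ∑ e ∈ J ∩ J', f e + ∑ e ∈ J \ J', f e = ∑ e ∈ J, f e := by
  rw [add_comm, ← Finset.sum_union (Finset.disjoint_sdiff_inter J J'),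
    Finset.sdiff_union_inter]

theorem sum_symmDiff (f : ε → ZMod 2) (J J' : Finset ε) :
    ∑ e ∈ symmDiff J J', f e = ∑ e ∈ J, f e + ∑ e ∈ J', f e := by
  have h1 : ∑ e ∈ symmDiff J J', f e = ∑ e ∈ J \ J', f e + ∑ e ∈ J' \ J, f e := by
    rw [symmDiff_def, Finset.sup_eq_union, Finset.sum_union]
    exact disjoint_sdiff_sdiff
  have h2 : ∑ e ∈ J, f e = ∑ e ∈ J \ J', f e + ∑ e ∈ J ∩ J', f e := by
    rw [add_comm, split]
  have h3 : ∑ e ∈ J', f e = ∑ e ∈ J' \ J, f e + ∑ e ∈ J ∩ J', f e := by
    rw [add_comm, Finset.inter_comm, split]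
  rw [h1, h2, h3]
  have h4 := add_self (∑ e ∈ J ∩ J', f e)
  linear_combination -h4

/-- the weight -/
def w (F : Finset ε) (e : ε) : ℤ := if e ∈ F then -1 else 1

theorem len_eq (F J : Finset ε) : len F J = ∑ e ∈ J, w F e := by
  have h : ∑ e ∈ J, w F e = ∑ e ∈ J ∩ F, w F e + ∑ e ∈ J \ F, w F e := by
    rw [split]
  have h1 : ∑ e ∈ J ∩ F, w F e = - ((J ∩ F).card : ℤ) := by
    rw [Finset.sum_congr rfl (g := fun _ => (-1 : ℤ))]
    · simp
    · intro e he
      exact if_pos (Finset.mem_inter.1 he).2
  have h2 : ∑ e ∈ J \ F, w F e = ((J \ F).card : ℤ) := by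
    rw [Finset.sum_congr rfl (g := fun _ => (1 : ℤ))]
    · simp
    · intro e he
      exact if_neg (Finset.mem_sdiff.1 he).2
  rw [h, h1, h2, len]
  ring

end PARM

open PARM in
/-- **PAR**. -/
theorem specPAR : SpecPAR.{u, v} where
  symm := by
    intro V ε _ _ s t J J' x
    exact sum_symmDiff _ J J'
  sing := by
    intro V ε _ _ s t e x
    rw [par, Finset.sum_singleton]
  hand := by
    intro V ε _ _ s t J S
    have h1 : ∑ x ∈ S, par s t J x = ∑ e ∈ J, ∑ x ∈ S, (ind (s e) x + ind (t e) x) := by
      unfold par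
      exact Finset.sum_comm
    have h2 : ∀ a : V, ∑ x ∈ S, ind a x = if a ∈ S then 1 else 0 := by
      intro a
      unfold ind
      rw [Finset.sum_ite_eq]
    rw [h1, Finset.card_filter, Nat.cast_sum]
    refine Finset.sum_congr rfl fun e _ => ?_
    rw [Finset.sum_add_distrib, h2, h2]
    by_cases hs : s e ∈ S <;> by_cases ht : t e ∈ S <;> simp [hs, ht]
    exact add_self 1
  even := by
    intro V ε _ _ _ s t c F J hc hJ
    have h1 : ∑ x ∈ Finset.univ.filter (fun x => c x = true), par s t J x =
        ((J.filter fun e => ¬ (s e ∈ Finset.univ.filter (fun x => c x = true) ↔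
          t e ∈ Finset.univ.filter (fun x => c x = true))).card : ZMod 2) := by
      have h2 : ∑ x ∈ Finset.univ.filter (fun x => c x = true), par s t J x =
          ∑ e ∈ J, ∑ x ∈ Finset.univ.filter (fun x => c x = true),
            (ind (s e) x + ind (t e) x) := by
        unfold par
        exact Finset.sum_comm
      have h3 : ∀ a : V, ∑ x ∈ Finset.univ.filter (fun x => c x = true), ind a x =
          if a ∈ Finset.univ.filter (fun x => c x = true) then 1 else 0 := by
        intro a
        unfold ind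
        rw [Finset.sum_ite_eq]
      rw [h2, Finset.card_filter, Nat.cast_sum]
      refine Finset.sum_congr rfl fun e _ => ?_
      rw [Finset.sum_add_distrib, h3, h3]
      by_cases hs : c (s e) = true <;> by_cases ht : c (t e) = true <;> simp [hs, ht]
      exact add_self 1
    have h4 : J.filter (fun e => ¬ (s e ∈ Finset.univ.filter (fun x => c x = true) ↔
        t e ∈ Finset.univ.filter (fun x => c x = true))) = J := by
      refine Finset.filter_true_of_mem fun e he => ?_
      have h5 := hc e he
      simp only [Finset.mem_filter, Finset.mem_univ, true_and]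
      intro h6
      apply h5
      by_cases hs : c (s e) = true
      · rw [hs, h6.1 hs]
      · have ht : ¬ c (t e) = true := fun h => hs (h6.2 h)
        rw [Bool.not_eq_true] at hs ht
        rw [hs, ht]
    rw [h4, Finset.sum_eq_zero fun x _ => hJ x] at h1
    have h7 : Even J.card := by
      rw [← ZMod.natCast_eq_zero_iff_even]
      exact h1.symm
    have h8 : len F J = (J.card : ℤ) - 2 * ((J ∩ F).card : ℤ) := by
      have h9 : (J ∩ F).card + (J \ F).card = J.card := Finset.card_inter_add_card_sdiff J F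
      rw [len, ← h9]
      push_cast
      ring
    rw [h8]
    exact ((Int.even_coe_nat _).2 h7).sub (even_two_mul _)
  lenS := by
    intro ε _ F C J
    have hw1 : ∀ e ∈ J \ C, w (symmDiff F C) e = w F e := by
      intro e he
      have h := (Finset.mem_sdiff.1 he).2
      unfold w
      simp [Finset.mem_symmDiff, h]
    have hw2 : ∀ e ∈ J ∩ C, w (symmDiff F C) e = - w F e := by
      intro e he
      have h := (Finset.mem_inter.1 he).2
      unfold w
      by_cases hF : e ∈ F <;> simp [Finset.mem_symmDiff, h, hF]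
    have h1 : len (symmDiff F C) J = ∑ e ∈ J \ C, w F e - ∑ e ∈ J ∩ C, w F e := by
      rw [len_eq, ← split _ J C, Finset.sum_congr rfl hw1,
        Finset.sum_congr rfl hw2, Finset.sum_neg_distrib]
      ring
    have h2 : len F (symmDiff J C) = ∑ e ∈ J \ C, w F e + ∑ e ∈ C \ J, w F e := by
      rw [len_eq, symmDiff_def, Finset.sup_eq_union, Finset.sum_union disjoint_sdiff_sdiff]
    have h3 : len F C = ∑ e ∈ J ∩ C, w F e + ∑ e ∈ C \ J, w F e := by
      rw [len_eq, Finset.inter_comm, split]
    rw [h1, h2, h3]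
    ring
  lenD := by
    intro ε _ F J J' h
    rw [len_eq, len_eq, len_eq, Finset.sum_union h]

end Pool.Agent.Lib.MPded8ec.SG
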