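import Pool.Agent.Lib.MP_ded8ec_lc.SG.Defs

/-!
# Seymour graphs (MP_ded8ec_lc), specification A: graphs with a vertex meeting all odd circuits are
# Seymour graphs; totally odd K4

Captain helper29.  Every statement has its complete proof in the docstring.

Multigraphs: a finite set `E` of elements of a type `ε` with two maps `s t : ε → V` (the ends).
`at v e` means `s e = v ∨ t e = v`.
-/

set_option autoImplicit false

namespace Pool.Agent.Lib.MPded8ec.SG

universe u v

/-! ### part A: multigraphs -/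

section

variable {V : Type u} {ε : Type v} [DecidableEq V] [DecidableEq ε]

/-- The indicator of a vertex. -/
def ind (a x : V) : ZMod 2 := if a = x then 1 else 0

/-- The degrees modulo 2 of the edge set `J`. -/
def par (s t : ε → V) (J : Finset ε) (x : V) : ZMod 2 := ∑ e ∈ J, (ind (s e) x + ind (t e) x)

/-- `|J ∖ F| - |J ∩ F|` -/
def len (F J : Finset ε) : ℤ := ((J \ F).card : ℤ) - ((J ∩ F).card : ℤ)

/-- `e` has exactly one end in `X`. -/
def sep (s t : ε → V) (X : Set V) (e : ε) : Prop := ¬ (s e ∈ X ↔ t e ∈ X)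

/-- `F` is conservative: `len F J ≥ 0` for all `J ⊆ E` with all degrees even. -/
def Cons (s t : ε → V) (E F : Finset ε) : Prop :=
  ∀ J ⊆ E, (∀ x, par s t J x = 0) → 0 ≤ len F J

/-- The edges of `E` which do not have the end `v`. -/
def off (s t : ε → V) (v : V) (E : Finset ε) : Finset ε := E.filter fun e => ¬ (s e = v ∨ t e = v)

/-- Contraction of `v` and its neighbours to `v`. -/
def ctr (s t : ε → V) (v : V) (E : Finset ε) (x : V) : V :=
  if ∃ e ∈ E, (s e = v ∨ t e = v) ∧ (s e = x ∨ t e = x) then v else x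

/-- The colouring of the contracted graph. -/
def ctc (c : V → Bool) (v : V) (x : V) : Bool := if x = v then !c v else c x

end

/-- PAR (130 lines).  Algebra of edge sets.

PROOF.  `symm`, `sing`: direct (`Finset.sum_symmDiff`-like: `∑_(J ∆ J') = ∑_J + ∑_J'` in characteristic 2:
write `J ∆ J' = (J \ J') ∪ (J' \ J)`, `J = (J \ J') ∪ (J ∩ J')`).
`hand`: exchange the sums: `∑_(x ∈ S) (ind (s e) x + ind (t e) x) = [s e ∈ S] + [t e ∈ S]`, which is `1`
if exactly one end is in `S` and `0` otherwise.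
`even`: `hand` for `S = {x | c x = true}`: every `e ∈ J` is counted, so `|J|` is `0` in `ZMod 2`, and
`len F J = |J| - 2 |J ∩ F|`.
`lenS`: with `w e = 1` for `e ∉ F`, `-1` for `e ∈ F`: `len F J = ∑_J w`; `len (F ∆ C) J =
∑_(J \ C) w - ∑_(J ∩ C) w`; `len F (J ∆ C) = ∑_(J \ C) w + ∑_(C \ J) w`; `len F C = ∑_(C \ J) w + ∑_(C ∩ J) w`.
`lenD`: disjoint union. -/
structure SpecPAR : Prop where
  symm : ∀ (V : Type u) (ε : Type v) [DecidableEq V] [DecidableEq ε] (s t : ε → V)
    (J J' : Finset ε) (x : V), par s t (symmDiff J J') x = par s t J x + par s t J' x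
  sing : ∀ (V : Type u) (ε : Type v) [DecidableEq V] [DecidableEq ε] (s t : ε → V) (e : ε) (x : V),
    par s t {e} x = ind (s e) x + ind (t e) x
  hand : ∀ (V : Type u) (ε : Type v) [DecidableEq V] [DecidableEq ε] (s t : ε → V) (J : Finset ε)
    (S : Finset V), ∑ x ∈ S, par s t J x =
      ((J.filter fun e => ¬ (s e ∈ S ↔ t e ∈ S)).card : ZMod 2)
  even : ∀ (V : Type u) (ε : Type v) [Fintype V] [DecidableEq V] [DecidableEq ε] (s t : ε → V)
    (c : V → Bool) (F J : Finset ε) (_ : ∀ e ∈ J, c (s e) ≠ c (t e)) (_ : ∀ x, par s t J x = 0),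
    Even (len F J)
  lenS : ∀ (ε : Type v) [DecidableEq ε] (F C J : Finset ε),
    len (symmDiff F C) J = len F (symmDiff J C) - len F C
  lenD : ∀ (ε : Type v) [DecidableEq ε] (F J J' : Finset ε) (_ : Disjoint J J'),
    len F (J ∪ J') = len F J + len F J'

/-- SPL (120 lines, from PAR).  `K` joins `a` and `v`: it contains a `K'` which joins `a` and `v` and has
exactly one edge at `v`.

PROOF.  Let `K₀ = off s t v K` and `S = {x | ∃ K'' ⊆ K₀, ∀ y, par K'' y = ind a y + ind x y}` (finite set of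
vertices, use classical decidability).  `a ∈ S` (`K'' = ∅`, `ind a y + ind a y = 0`).  `v ∉ S`: no edge of
`K₀` is at `v`, so `par K'' v = 0`, but `ind a v + ind v v = 1`.  If `x ∈ S`, `e ∈ K₀` and `{s e, t e} = {x, y}`
then `y ∈ S` (take `K'' ∆ {e}`, PAR.symm, PAR.sing).  By PAR.hand for `K` and `S`:
`∑_(x ∈ S) (ind a x + ind v x) = 1`, so the number of edges of `K` with exactly one end in `S` is odd; let
`e` be one of them, `x ∈ S` and `y ∉ S` its ends.  `e ∉ K₀` by the above, so `e` is at `v`, `x ≠ v`, so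
`y = v`.  Take `K''` for `x` and `K' = K'' ∪ {e} = K'' ∆ {e}` (`e ∉ K₀`): `par K' = ind a + ind x + ind x +
ind v`, and `e` is the only edge of `K'` at `v`. -/
def SpecSPL : Prop :=
  ∀ (V : Type u) (ε : Type v) [Fintype V] [DecidableEq V] [DecidableEq ε] (s t : ε → V)
    (K : Finset ε) (a v : V) (_ : a ≠ v) (_ : ∀ x, par s t K x = ind a x + ind v x),
    ∃ K' ⊆ K, (∀ x, par s t K' x = ind a x + ind v x) ∧
      ∃ f ∈ K', (s f = v ∨ t f = v) ∧ ∀ e ∈ K', (s e = v ∨ t e = v) → e = f

/-- ONE (180 lines, from PAR, SPL).  The vertex at which we contract.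

PROOF.  Let `m` be the minimum of `len F K` over all `K ⊆ E` such that there are `a`, `b` with
`∀ x, par K x = ind a x + ind b x` (finite nonempty set of values).  For `f ∈ F` the set `{f}` shows
`m ≤ -1`.  Let `K`, `a`, `v` attain the minimum.  `a ≠ v`, otherwise `par K = 0` and `len F K ≥ 0`.
Claim: let `F' ⊆ E` be conservative, `len F' K₁ ≥ m` for all `K₁ ⊆ E` of the above kind (any `a'`, `b'`),
and `len F' K₂ = m` for some `K₂ ⊆ E` with `par K₂ = ind a + ind v`.  Then there is `f₀ ∈ F'` at `v`, and it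
is the only element of `F'` at `v`.
Proof of the claim: take `K' ⊆ K₂` from SPL with its edge `f₀` at `v`.  `K₂ \ K' = K₂ ∆ K'` has `par = 0`, so
`len F' (K₂ \ K') ≥ 0`, hence `len F' K' ≤ m`, so `= m`.  If `f₀ ∉ F'`: `K' \ {f₀}` is of the kind
`ind a + ind b` (`b` the other end of `f₀`) and has `len = m - 1`: contradiction.  If `f ∈ F'`, `f ≠ f₀` is
at `v`: `f ∉ K'`, `K' ∪ {f}` is of the kind `ind a + ind b` (`b` the other end of `f`) and has
`len = m - 1`: contradiction.
The claim for `F' = F` gives `f₀` (this is the `f₀` of the statement).  Let `C ⊆ E` be as in the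
statement, `len F C < 2`.  `len F C ≥ 0` and it is even (PAR.even), so `len F C = 0`.  Let
`F' = F ∆ C ⊆ E`: `len F' J = len F (J ∆ C)` for all `J` (PAR.lenS), so `F'` is conservative, and all
hypotheses of the claim hold (`K₂ = K ∆ C`).  Let `f₁` be the only element of `F'` at `v`.  `f₀ ∈ F`,
`f₀ ∉ C`, so `f₀ ∈ F'`, `f₁ = f₀`.  The given `e ∈ C` at `v` is not in `F` (otherwise `e = f₀ ∈ C`), so
`e ∈ F'`, `e = f₁ = f₀ ∉ C`: contradiction. -/
def SpecONE : Prop :=
  ∀ (V : Type u) (ε : Type v) [Fintype V] [DecidableEq V] [DecidableEq ε] (s t : ε → V)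
    (c : V → Bool) (E F : Finset ε) (_ : ∀ e ∈ E, c (s e) ≠ c (t e)) (_ : F ⊆ E)
    (_ : Cons s t E F) (_ : F.Nonempty),
    ∃ v, ∃ f₀ ∈ F, (s f₀ = v ∨ t f₀ = v) ∧ (∀ f ∈ F, (s f = v ∨ t f = v) → f = f₀) ∧
      ∀ C ⊆ E, (∀ x, par s t C x = 0) → f₀ ∉ C → (∃ e ∈ C, s e = v ∨ t e = v) → 2 ≤ len F C

/-- CTR (220 lines, from PAR).  The contraction is again bipartite and conservative.

PROOF.  Let `π = ctr s t v E`; `π v = v` (there is an edge at `v`: `f₀`); the vertices `x ≠ v` with
`π x = v` are the neighbours of `v`, they have `c x ≠ c v`.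
`col`: for `e ∈ off s t v E` and an end `x` of `e`: `x ≠ v` and `ctc c v (π x) = c x` (if `π x = v` then `c x =
!c v`).
`cons`: let `J ⊆ off s t v E` and `par (π ∘ s) (π ∘ t) J = 0`.  `par (π ∘ s) (π ∘ t) J x = ∑_(y, π y = x) par s t J y`.
So `par s t J y = 0` for `y` with `π y = y ≠ v`; also `par s t J v = 0` (no edge of `J` is at `v`).  `f₀ ∉ J`, so
`len (F.erase f₀) J = len F J`.  We show `len F J ≥ 0` by strong induction on `|J|`.  Let
`U = {y | par s t J y ≠ 0}`: all elements are neighbours of `v`.  If `U = ∅` use `Cons`.  Otherwise let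
`u₁ ∈ U` and `S = {x | ∃ K ⊆ J, par s t K = ind u₁ + ind x}`; `u₁ ∈ S`; no edge of `J` has exactly one end in
`S` (take `K ∆ {e}`), so `∑_(x ∈ S) par s t J x = 0` by PAR.hand, and there is `u₂ ∈ S ∩ U`, `u₂ ≠ u₁`; let `K`
be the set for `u₂`.  `K` is not empty.  Let `e₁`, `e₂ ∈ E` be edges joining `v` with `u₁`, `u₂`; `e₁ ≠ e₂`
and they are not in `K`.  `C = K ∪ {e₁, e₂}` has `par = 0`.  If `f₀` is one of `e₁`, `e₂`, the other one is not
in `F` (the only element of `F` at `v` is `f₀`), so `len F K = len F C ≥ 0`.  Otherwise both are not in `F`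
and `f₀ ∉ C`, so `len F K = len F C - 2 ≥ 0` by hypothesis.  `J \ K = J ∆ K` also satisfies
`par (π ∘ s) (π ∘ t) = 0` (`π u₁ = π u₂ = v`), it is smaller, so `len F (J \ K) ≥ 0`, and
`len F J = len F K + len F (J \ K)`. -/
structure SpecCTR : Prop where
  col : ∀ (V : Type u) (ε : Type v) [DecidableEq V] [DecidableEq ε] (s t : ε → V)
    (c : V → Bool) (E : Finset ε) (_ : ∀ e ∈ E, c (s e) ≠ c (t e)) (v : V),
    ∀ e ∈ off s t v E, ctc c v (ctr s t v E (s e)) ≠ ctc c v (ctr s t v E (t e))
  cons : ∀ (V : Type u) (ε : Type v) [Fintype V] [DecidableEq V] [DecidableEq ε] (s t : ε → V)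
    (c : V → Bool) (E F : Finset ε) (_ : ∀ e ∈ E, c (s e) ≠ c (t e)) (_ : F ⊆ E)
    (_ : Cons s t E F) (v : V) (f₀ : ε) (_ : f₀ ∈ F) (_ : s f₀ = v ∨ t f₀ = v)
    (_ : ∀ f ∈ F, (s f = v ∨ t f = v) → f = f₀)
    (_ : ∀ C ⊆ E, (∀ x, par s t C x = 0) → f₀ ∉ C → (∃ e ∈ C, s e = v ∨ t e = v) → 2 ≤ len F C),
    Cons (fun e => ctr s t v E (s e)) (fun e => ctr s t v E (t e)) (off s t v E) (F.erase f₀)

/-- BIP (150 lines, from ONE, CTR): Seymour's theorem for bipartite (multi)graphs.

PROOF.  Induction on `|F|`, for all `s`, `t`, `c`, `E`, `F`.  `F = ∅`: nothing to show.  Otherwise take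
`v`, `f₀` from ONE and apply the induction hypothesis to `π ∘ s`, `π ∘ t`, `ctc c v`, `off s t v E`,
`F.erase f₀` (`π = ctr s t v E`; `F.erase f₀ ⊆ off s t v E` since `f₀` is the only element of `F` at `v`) to
get `X'`.  Define `X f₀ = {v}` and `X f = {x | π x ∈ X' f}` for `f ≠ f₀`.  For `e ∈ E` at `v` both ends are
mapped to `v` by `π`, so `e` is not separated by `X f`, `f ≠ f₀`; for `e` not at `v` (that is, `e ∈ off s t v E`)
`e` is not separated by `{v}`, and separated by `X f` iff its contraction is separated by `X' f`.  An edge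
at `v` is separated by `{v}` (it has different ends, since `c (s e) ≠ c (t e)`). -/
def SpecBIP : Prop :=
  ∀ (V : Type u) (ε : Type v) [Fintype V] [DecidableEq V] [DecidableEq ε] (s t : ε → V)
    (c : V → Bool) (E F : Finset ε) (_ : ∀ e ∈ E, c (s e) ≠ c (t e)) (_ : F ⊆ E)
    (_ : Cons s t E F), ∃ X : ε → Set V,
      (∀ f ∈ F, ∀ g ∈ F, f ≠ g → ∀ e ∈ E, ¬ (sep s t (X f) e ∧ sep s t (X g) e)) ∧
      ∀ f ∈ F, ∀ g ∈ F, sep s t (X f) g ↔ g = f

/-- EVN (180 lines).  From circuits to edge sets with even degrees.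

PROOF.  Strong induction on `|J|`.  `J = ∅`: both sides are `0`.  Otherwise let `e = s(x, y) ∈ J` and let
`H = SimpleGraph.fromEdgeSet J` (`J` has no loops, so `H.edgeSet = J`, `H ≤ G`).  `e` is not a bridge of
`H`: otherwise let `S` be the set of vertices reachable from `x` in `H` without `e`; `y ∉ S`, `e` is the
only edge of `J` with exactly one end in `S`, and `∑_(z ∈ S) deg_J z = 2 |{edges inside S}| + 1` would be
odd.  So there is a cycle of `H` through `e` (`SimpleGraph.isBridge_iff_adj_and_forall_cycle_notMem`);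
map it to a cycle `C` of `G` with edges in `J`.  `J' = J \ C.edges` has even degrees (every vertex is in
exactly `0` or `2` edges of a cycle), `|J'| < |J|`.  Add the inequalities for `C` (`Admissible`) and `J'`. -/
def SpecEVN : Prop :=
  ∀ (V : Type u) [Fintype V] [DecidableEq V] (G : SimpleGraph V) (F : Set (Sym2 V))
    (_ : Admissible G F) (J : Finset (Sym2 V)) (_ : ∀ e ∈ J, e ∈ G.edgeSet)
    (_ : ∀ x, Even (J.filter fun e => x ∈ e).card),
    {e | e ∈ J ∧ e ∈ F}.ncard ≤ {e | e ∈ J ∧ e ∉ F}.ncard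

/-- APX (280 lines, from PAR, EVN, BIP).

PROOF.  Let `v`, `c` be as in `Apex`, `F` admissible (finite).  We split `v` into the two vertices
`some v` (colour `false`) and `none` (colour `true`), joined by a new edge `none`:  the vertices are
`Option V`, `ε = Option (Sym2 V)`, `c' none = true`, `c' (some x) = if x = v then false else c x`.  For
`x y : V` let `lift x y = some x` if `x ≠ v`, and `lift v y = if c y then some v else none` (the copy of `v`
to which the edge `v y` is attached).  For an edge `e` choose `x`, `y` with `e = s(x, y)` (`Quot.out`) and put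
`s (some e) = lift x y`, `t (some e) = lift y x`; `s none = some v`, `t none = none`.  `E` = the images
`some e` of the edges of `G` and `none`; `F⁺` = the images of `F` and `none`.  `c'` is proper on `E`.
`F⁺` is conservative: let `J ⊆ E`, `par J = 0`, `J₀ = {e | some e ∈ J}`.  All degrees of `J₀` in `G` are even:
for `x ≠ v` the degree is `par J (some x)` modulo 2, for `v` it is `par J (some v) + par J none`
(the edge `none` contributes `2`).  So by EVN `len F J₀ ≥ 0`.  If `none ∉ J` then `len F⁺ J = len F J₀`.  If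
`none ∈ J` then `len F⁺ J = len F J₀ - 1 ≥ -1`, and `len F⁺ J` is even (PAR.even), so it is `≥ 0`.
BIP gives `X`.  For `f ∈ F`: `X (some f)` does not separate the edge `none` (the only element of `F⁺` which it
separates is `some f`), so `some v ∈ X (some f) ↔ none ∈ X (some f)`.  Let `Y f = {x | some x ∈ X (some f)}`.
For an edge `e = s(x, y)` of `G`: `e ∈ cut G (Y f)` iff exactly one of `x`, `y` is in `Y f` iff
`sep s t (X (some f)) (some e)`.  So the `Y f` are as required. -/
def SpecAPX : Prop :=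
  ∀ (V : Type u) [Finite V] (G : SimpleGraph V) (_ : Apex G), IsSeymour G

/-! ### part B: totally odd K4 -/

/-- The vertices of a list of pairs. -/
def vl {V : Type u} : List (V × V) → List V
  | [] => []
  | p :: M => p.1 :: p.2 :: vl M

/-- OBS (250 lines).  A colouring for which all perfect matchings of the graph induced on a set
(here: the set of the vertices of `M`) have two-coloured edges.

PROOF.  `F = {s(p.1, p.2) | p ∈ M}` has `|M|` elements and is a matching.  It is admissible: for a cycle `C`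
the vertices of the edges in `C ∩ F` are `2 |C ∩ F|` different vertices of `C`, and `C` has `|C|` vertices
(`C.support.tail` has no duplicates and `C.length` elements), so `2 |C ∩ F| ≤ |C|`.
Let `X` be the family of `IsSeymour`.  For `x : V` let `n(x)` be the number of the `f ∈ F` with `x ∈ X f`, and
`d x = decide (Odd (n x))`.  Let `M'` be as in the statement, and `T` the common set of vertices.  For
`f ∈ F` the number of pairs of `M` with exactly one element in `X f` is `1` (the cut contains exactly one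
edge of `F`), so `|T ∩ X f|` is odd (the other pairs contribute `0` or `2`), so the number of pairs of `M'`
with exactly one element in `X f` is odd, so it is at least `1`.  The cuts are disjoint, so for every
`p ∈ M'` there is at most one `f` whose cut contains `s(p.1, p.2)`.  As `|M'| = |M| = |F|` there is exactly one
such `f` for every `p ∈ M'`.  So exactly one `f` has exactly one of `p.1`, `p.2` in `X f`, and
`n(p.1) + n(p.2)` is odd. -/
def SpecOBS : Prop :=
  ∀ (V : Type u) [Finite V] (G : SimpleGraph V) (_ : IsSeymour G) (M : List (V × V))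
    (_ : ∀ p ∈ M, G.Adj p.1 p.2) (_ : (vl M).Nodup), ∃ d : V → Bool, ∀ M' : List (V × V),
      (∀ p ∈ M', G.Adj p.1 p.2) → (vl M').Perm (vl M) → ∀ p ∈ M', d p.1 ≠ d p.2

/-- A walk from `a` to `b` with the interior vertices `l` (in this order). -/
def Wk {V : Type u} (r : V → V → Prop) : V → List V → V → Prop
  | a, [], b => r a b
  | a, x :: l, b => r a x ∧ Wk r x l b

/-- A path of odd length with interior `l`. -/
def OddP {V : Type u} (G : SimpleGraph V) (a : V) (l : List V) (b : V) : Prop :=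
  Wk G.Adj a l b ∧ Even l.length

/-- `G` contains a totally odd subdivision of `K_4`: the branch vertices are `b₀, .., b₃`, the paths
have odd length and are internally disjoint. -/
def TOK {V : Type u} (G : SimpleGraph V) : Prop :=
  ∃ (b₀ b₁ b₂ b₃ : V) (l₀₁ l₀₂ l₀₃ l₁₂ l₁₃ l₂₃ : List V),
    (b₀ :: b₁ :: b₂ :: b₃ :: (l₀₁ ++ (l₂₃ ++ (l₀₂ ++ (l₁₃ ++ (l₀₃ ++ l₁₂)))))).Nodup ∧
    OddP G b₀ l₀₁ b₁ ∧ OddP G b₂ l₂₃ b₃ ∧ OddP G b₀ l₀₂ b₂ ∧ OddP G b₁ l₁₃ b₃ ∧
    OddP G b₀ l₀₃ b₃ ∧ OddP G b₁ l₁₂ b₂

/-- TKN (150 lines, from OBS).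

PROOF.  For a list `l` of even length let `pairs [] = []`, `pairs (x :: y :: l) = (x, y) :: pairs l`:
`vl (pairs l) = l`.  For a path `(a, l, b)` with `l` of even length let `A = pairs (a :: (l ++ [b]))` and
`I = pairs l`: all pairs are adjacent.  The three matchings `M₁ = A₀₁ ++ A₂₃ ++ I₀₂ ++ I₁₃ ++ I₀₃ ++ I₁₂`,
`M₂ = A₀₂ ++ A₁₃ ++ I₀₁ ++ I₂₃ ++ I₀₃ ++ I₁₂`, `M₃ = A₀₃ ++ A₁₂ ++ I₀₁ ++ I₂₃ ++ I₀₂ ++ I₁₃` have the same
vertices (all vertices of the subdivision).  Let `d` be the colouring of OBS for `M₁`: all pairs of all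
`A` and all `I` are two-coloured.  Claim: then `d a ≠ d b` for each of the six paths: induction on `l`, two
entries at a time: `l = []`: `(a, b) ∈ A`.  `l = x :: y :: l'`: `(a, x) ∈ A`, `(x, y) ∈ I`, so `d y = d a`, and
`A`, `I` of the path `(y, l', b)` are contained in those of `(a, l, b)`.  So `d b₀`, `d b₁`, `d b₂` are three
different elements of `Bool`: contradiction. -/
def SpecTKN : Prop :=
  ∀ (V : Type u) [Finite V] (G : SimpleGraph V) (_ : IsSeymour G), ¬ TOK G

end Pool.Agent.Lib.MPded8ec.SG
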