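import Pool.Agent.Lib.MP_ded8ec_lc.SG.SpecA

/-!
# Seymour graphs (MP_ded8ec_lc), specification B: two disjoint breaking paths, or a vertex meeting all
# odd circuits, or a triangle

Captain helper29.  Every statement has its complete proof in the docstring.

`c` is a colouring, `R` a set of roots.  A breaking path is a path with both ends in `R`, interior
outside of `R`, whose length does not have the parity given by the colours of the ends.
-/

set_option autoImplicit false

namespace Pool.Agent.Lib.MPded8ec.SG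

universe u v

/-! ### walks as lists -/

/-- `false` iff the number of edges of the walk `(a, l, b)` is odd exactly if `a`, `b` have different
colours. -/
def sg {V : Type u} (c : V → Bool) (a : V) (l : List V) (b : V) : Bool :=
  xor (xor (c a) (c b)) (decide (Even l.length))

/-- `(a, l, b)` is a breaking path. -/
structure BP {V : Type u} (G : SimpleGraph V) (R : Finset V) (c : V → Bool) (a : V) (l : List V)
    (b : V) : Prop where
  ha : a ∈ R
  hb : b ∈ R
  wk : Wk G.Adj a l b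
  nd : (a :: (l ++ [b])).Nodup
  av : ∀ x ∈ l, x ∉ R
  br : sg c a l b = true

/-- Two disjoint breaking paths. -/
def BP2 {V : Type u} (G : SimpleGraph V) (R : Finset V) (c : V → Bool) (a : V) (l : List V)
    (b a' : V) (l' : List V) (b' : V) : Prop :=
  BP G R c a l b ∧ BP G R c a' l' b' ∧ ∀ x ∈ a :: (l ++ [b]), x ∉ a' :: (l' ++ [b'])

/-- WKL (100 lines).  Lists.
`app`: split a walk at a vertex.  `rev`: reversal (`r` symmetric).  `mono`: change of the relation.
`sgapp`: the number of edges is additive (`|l ++ x :: l'| + 1 = (|l| + 1) + (|l'| + 1)`).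
`sgrev`: obvious.  `ok`: if all edges are two-coloured then `sg = false`: induction on `l`
(`sg c a (x :: l) b = xor (sg c a [] x) (sg c x l b)` by `sgapp`, `sg c a [] x = false` if `c a ≠ c x`).
`short`: take a list `l' ≠ []` of minimal length with `Wk r a l' b` and all entries in `l`: if an entry
`z` appears twice, `l' = l₁ ++ z :: (l₂ ++ z :: l₃)`, then `l₁ ++ z :: l₃` is shorter. -/
structure SpecWKL : Prop where
  app : ∀ (V : Type u) (r : V → V → Prop) (a x b : V) (l l' : List V),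
    Wk r a (l ++ x :: l') b ↔ Wk r a l x ∧ Wk r x l' b
  rev : ∀ (V : Type u) (r : V → V → Prop) (_ : ∀ x y, r x y → r y x) (a b : V) (l : List V),
    Wk r a l b → Wk r b l.reverse a
  mono : ∀ (V : Type u) (r r' : V → V → Prop) (_ : ∀ x y, r x y → r' x y) (a b : V) (l : List V),
    Wk r a l b → Wk r' a l b
  sgapp : ∀ (V : Type u) (c : V → Bool) (a x b : V) (l l' : List V),
    sg c a (l ++ x :: l') b = xor (sg c a l x) (sg c x l' b)
  sgrev : ∀ (V : Type u) (c : V → Bool) (a b : V) (l : List V), sg c b l.reverse a = sg c a l b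
  ok : ∀ (V : Type u) (c : V → Bool) (r : V → V → Prop) (_ : ∀ x y, r x y → c x ≠ c y) (a b : V)
    (l : List V), Wk r a l b → sg c a l b = false
  short : ∀ (V : Type u) (r : V → V → Prop) (a b : V) (l : List V), l ≠ [] → Wk r a l b →
    ∃ l' : List V, l' ≠ [] ∧ (∀ x ∈ l', x ∈ l) ∧ l'.Nodup ∧ Wk r a l' b

/-! ### part C: the port graph -/

/-- TBF (250 lines): the deficiency version of Tutte's theorem.

PROOF.  Let `H⁺` be the graph on `P ⊕ Fin k`: `H` on `P`, and all vertices of `Fin k` adjacent to all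
other vertices.  A perfect matching of `H⁺` gives `μ` (partners in `P`; the vertices matched to `Fin k`
are fixed by `μ`, there are at most `k`), so there is none.  `SimpleGraph.tutte` gives a set `U` such that
the number of odd components of `H⁺ - U` is larger than `|U|`.  If some `i : Fin k` is not in `U` then
`H⁺ - U` is connected (all vertices are adjacent to `i`), so it has at most one odd component, `U = ∅`,
and `|P| + k` is odd: contradiction.  So `Fin k ⊆ U`; let `S` be the other elements of `U`,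
`|U| = |S| + k`, and `H⁺ - U` is `H - S`.  Let `f x` be a representative of the component of `x` for
`x ∉ S` (and `f x = x` for `x ∈ S`).  The number `o` of odd classes is at least `|S| + k + 1`; the sum of
the sizes of all classes is `|P| - |S|`, so `o` is `|P| - |S|` modulo 2, that is, `|S| + k` modulo 2.
So `o ≥ |S| + k + 2`. -/
def SpecTBF : Prop :=
  ∀ (P : Type u) [Fintype P] [DecidableEq P] (H : SimpleGraph P) (k : ℕ)
    (_ : Even (Fintype.card P + k))
    (_ : ¬ ∃ μ : P → P, (∀ x, μ (μ x) = x) ∧ (∀ x, μ x ≠ x → H.Adj x (μ x)) ∧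
      (Finset.univ.filter fun x => μ x = x).card ≤ k),
    ∃ (S : Finset P) (f : P → P), (∀ x y, x ∉ S → y ∉ S → H.Adj x y → f x = f y) ∧
      S.card + k + 2 ≤ (Finset.univ.filter fun q =>
        Odd (Finset.univ.filter fun x => x ∉ S ∧ f x = q).card).card

/-- A path in the union of two involutions, from a fixed point of `τ` to another one: `x 0, .., x m`. -/
structure Orb {P : Type u} (τ μ : P → P) (x : ℕ → P) (m : ℕ) : Prop where
  pos : 0 < m
  first : τ (x 0) = x 0
  last : τ (x m) = x m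
  step : ∀ i < m, x (i + 1) = τ (μ (x i))
  inj : ∀ i ≤ m, ∀ j ≤ m, i ≠ j → x i ≠ x j ∧ x i ≠ τ (x j)
  mid : ∀ i, 0 < i → i < m → τ (x i) ≠ x i

/-- ORB (220 lines).  Two involutions; `μ` has at least 4 fixed points less than `τ`.

PROOF.  Let `σ = τ ∘ μ` (a bijection, the inverse is `μ ∘ τ`).  Let `τ r = r` and let `n > 0` be the minimal
period of `r` under `σ` (`Function.minimalPeriod`; `P` is finite).  With `z ↦ σ^z r` for integers `z`:
`τ (σ^i r) = σ^(-i) r`, `μ (σ^i r) = τ (σ^(i+1) r) = σ^(-i-1) r`; `σ^i r = σ^j r` iff `n ∣ i - j`.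
If `n` is odd, `u = σ^((n-1)/2) r` is fixed by `μ`.  The map `r ↦ u` on the fixed points of `τ` with odd
`n` is injective: if `r'` has the same `u` then `r' = σ^i r`, and `τ r' = r'` gives `n ∣ 2 i`, `n ∣ i`.  So
at least `4` fixed points of `τ` have an even period.  Let `r` be one of them, `n` its period,
`x i = σ^i r`, `m = n / 2`, `r' = x m`.  `last`: `τ (x m) = σ^(-m) r = σ^m r`.  `inj`: for `i`, `j ≤ m`, `i ≠ j`:
`0 < |i - j| < n`; `x i = τ (x j) = σ^(-j) r` would give `n ∣ i + j`, `0 < i + j < n`.  `mid`: `τ (x i) = x i`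
gives `n ∣ 2 i`, `0 < 2 i < n`.  The only fixed points of `τ` in the `σ`-orbit of `r` are `r`, `r'`
(`σ^k r`, `0 ≤ k < n`, `n ∣ 2 k`).  Choose a further fixed point `r₂` of `τ` with even period, different
from `r`, `r'`: it is not in the orbit of `r`.  `y j = σ^j r₂`, in the same way; `x i = y j` or
`x i = τ (y j) = σ^(-j) r₂` would imply that `r₂` is in the orbit of `r`. -/
def SpecORB : Prop :=
  ∀ (P : Type u) [Fintype P] [DecidableEq P] (τ μ : P → P) (_ : ∀ x, τ (τ x) = x)
    (_ : ∀ x, μ (μ x) = x)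
    (_ : (Finset.univ.filter fun x => μ x = x).card + 4 ≤
      (Finset.univ.filter fun x => τ x = x).card),
    ∃ (x y : ℕ → P) (m n : ℕ), Orb τ μ x m ∧ Orb τ μ y n ∧
      ∀ i ≤ m, ∀ j ≤ n, x i ≠ y j ∧ x i ≠ τ (y j)

section

variable {V : Type u} [DecidableEq V]

/-- The ports: `(v, κ)` for `v ∉ R`, `(r, c r)` for `r ∈ R`. -/
abbrev Port (R : Finset V) (c : V → Bool) : Type u := {q : V × Bool // q.1 ∈ R → q.2 = c q.1}

/-- The port graph: `(v, κ)` and `(v, !κ)` are adjacent, `(v, κ)` and `(w, κ)` are adjacent for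
adjacent `v`, `w`. -/
def PG (G : SimpleGraph V) (R : Finset V) (c : V → Bool) : SimpleGraph (Port R c) where
  Adj p q := (p.1.1 = q.1.1 ∧ p.1.2 ≠ q.1.2) ∨ (G.Adj p.1.1 q.1.1 ∧ p.1.2 = q.1.2)
  symm := ⟨fun _ _ h => h.imp (fun h => ⟨h.1.symm, h.2.symm⟩) fun h => ⟨h.1.symm, h.2.symm⟩⟩
  loopless := ⟨fun _ h => h.elim (fun h => h.2 rfl) fun h => G.loopless.irrefl _ h.1⟩

end

/-- AUG (280 lines, from ORB, WKL).  A matching of the port graph which misses at most `|R| - 4` ports
gives two disjoint breaking paths.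

PROOF.  `τ (v, κ) = (v, !κ)` for `v ∉ R`, `τ (r, c r) = (r, c r)` for `r ∈ R`: an involution with `|R|` fixed
points.  ORB gives `x`, `m` and `y`, `n`.  Let `v_i = (x i).1.1`, `κ_i = (x i).1.2`, and let
`l = [v_1, .., v_(m-1)]` (`(List.range (m - 1)).map fun i => (x (i + 1)).1.1`); the path is
`(v_0, l, v_m)`.  For `i < m`: `q = μ (x i)` is different from `x i` (otherwise `x (i+1) = τ (x i)`, contrary
to `inj`) and from `τ (x i)` (otherwise `x (i+1) = x i`), so `x i`, `q` are adjacent in the port graph and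
belong to different vertices (if they belong to the same vertex, `q = τ (x i)`), so `G.Adj v_i q.1.1` and
`q.1.2 = κ_i`; `x (i+1) = τ q` has the vertex `v_(i+1) = q.1.1`, and `κ_(i+1) = !κ_i` if `i + 1 < m` (`mid`),
`κ_m = κ_(m-1)`.  So `κ_m = κ_0` iff `m - 1` is even, that is, iff `|l|` is even: `br`.  `v_0`, `v_m ∈ R`, the
others are not in `R` (`first`, `last`, `mid`).  `nd`: `v_i = v_j` implies `x i = x j` or `x i = τ (x j)`.
The two paths are disjoint by the same argument. -/
def SpecAUG : Prop :=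
  ∀ (V : Type u) [Fintype V] [DecidableEq V] (G : SimpleGraph V) (R : Finset V) (c : V → Bool)
    (_ : 4 ≤ R.card) (μ : Port R c → Port R c) (_ : ∀ x, μ (μ x) = x)
    (_ : ∀ x, μ x ≠ x → (PG G R c).Adj x (μ x))
    (_ : (Finset.univ.filter fun x => μ x = x).card ≤ R.card - 4),
    ∃ a l b a' l' b', BP2 G R c a l b a' l' b'

/-- `X`: vertices without a port outside of `S`; `Z`: vertices outside of `R` with both ports outside of
`S`; all other vertices have one port outside of `S`, `κ` is its colour; `g` is the class. -/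
structure Exc {V : Type u} [Fintype V] [DecidableEq V] {Q : Type v} [Fintype Q] [DecidableEq Q]
    (G : SimpleGraph V) (R : Finset V) (c : V → Bool) (X Z : Finset V) (κ : V → Bool)
    (g : V → Q) : Prop where
  mono : ∀ v w, v ∉ X → v ∉ Z → w ∉ X → w ∉ Z → G.Adj v w → κ v = κ w → g v = g w
  both : ∀ v w, v ∈ Z → w ∉ X → G.Adj v w → g v = g w
  ZX : Disjoint Z X
  ZR : Disjoint Z R
  col : ∀ r ∈ R, r ∉ X → κ r = c r
  num : X.card + ∑ q : Q, (Finset.univ.filter fun v => v ∉ X ∧ v ∉ Z ∧ g v = q).card / 2 ≤ 1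

/-- CNT (250 lines).  Counting.

PROOF.  For a vertex `v` let `o(v)` be the number of its ports which are not in `S`.  `X = {v | o(v) = 0}`,
`Z = {v | o(v) = 2}` (these are not in `R`).  For `v ∉ X ∪ Z` let `κ v` be the colour of the only port of `v`
outside of `S` and `g v` the value of `f` at this port.  For `v ∈ Z` both ports are adjacent and outside of
`S`, they have the same value of `f`, this is `g v`.  For `r ∈ R`, `r ∉ X`: `κ r = c r` (the only port).
`mono`, `both`: the property of `f` (for `v ∈ Z`, `w ∉ X` take the port of `w` outside of `S`, colour `κ'`,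
and the port `(v, κ')`).
`num`: let `m_q` be the number of `v ∉ X ∪ Z` with `g v = q`.  The number of `x ∉ S` with `f x = q` is
`m_q + 2 |{v ∈ Z | g v = q}|`, it is odd iff `m_q` is odd.  `|S| = ∑_v (number of ports of `v`) - o(v)`; with
`V₁ = {v ∉ R | o(v) = 1}`: `|S| = 2 |X \ R| + |V₁| + |X ∩ R|`, so `|S| + |R| = 2 |X \ R| + |V₁| + |X ∩ R| +
(|X ∩ R| + |R \ X|) = 2 |X| + ∑_q m_q`.  The hypothesis gives `2 |X| + ∑_q m_q ≤ |{q | m_q odd}| + 2`, and
`m_q - [m_q odd] = 2 (m_q / 2)`. -/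
def SpecCNT : Prop :=
  ∀ (V : Type u) [Fintype V] [DecidableEq V] (G : SimpleGraph V) (R : Finset V) (c : V → Bool)
    (_ : 4 ≤ R.card) (S : Finset (Port R c)) (f : Port R c → Port R c)
    (_ : ∀ x y, x ∉ S → y ∉ S → (PG G R c).Adj x y → f x = f y)
    (_ : S.card + (R.card - 4) + 2 ≤ (Finset.univ.filter fun q =>
        Odd (Finset.univ.filter fun x => x ∉ S ∧ f x = q).card).card),
    ∃ (X Z : Finset V) (κ : V → Bool) (g : V → Port R c), Exc G R c X Z κ g

/-- SEP (100 lines).

PROOF.  Let `v ∈ Z`, `q = g v`, `N = X ∪ {w | w ∉ X ∧ w ∉ Z ∧ g w = q}`.  By `num`: if `|X| = 1` the second set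
has at most `1` element, if `X = ∅` it has at most `3`.  So `|N| ≤ 3`.  `C = {w ∈ Z | g w = q}` contains `v`,
is disjoint from `N`, and a neighbour `w' ∉ N` of `w ∈ C` is in `C` (`w' ∉ X`, so `g w' = q` by `both`, and
`w' ∉ N` gives `w' ∈ Z`).  `G - N` is connected, so `C` is the complement of `N`.  `R` is disjoint from
`Z ⊇ C`, so `R ⊆ N`: contradiction to `|R| ≥ 4`. -/
def SpecSEP : Prop :=
  ∀ (V : Type u) (Q : Type v) [Fintype V] [DecidableEq V] [Fintype Q] [DecidableEq Q]
    (G : SimpleGraph V) (_ : Conn4 G) (R : Finset V) (c : V → Bool) (_ : 4 ≤ R.card)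
    (X Z : Finset V) (κ : V → Bool) (g : V → Q) (_ : Exc G R c X Z κ g), Z = ∅

/-- The colouring `κ` extends `c`, and the edges with both ends of the same colour are exactly the three
edges of the triangle `t₁ t₂ t₃`. -/
structure Tri {V : Type u} (G : SimpleGraph V) (R : Finset V) (c : V → Bool) (κ : V → Bool)
    (t₁ t₂ t₃ : V) : Prop where
  a₁₂ : G.Adj t₁ t₂
  a₁₃ : G.Adj t₁ t₃
  a₂₃ : G.Adj t₂ t₃
  k₁₂ : κ t₁ = κ t₂
  k₁₃ : κ t₁ = κ t₃
  col : ∀ r ∈ R, κ r = c r
  only : ∀ x y, G.Adj x y → κ x = κ y → (x = t₁ ∨ x = t₂ ∨ x = t₃) ∧ (y = t₁ ∨ y = t₂ ∨ y = t₃)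

/-- CLS (150 lines).

PROOF.  `m_q` = number of `v ∉ X` with `g v = q`.  If `|X| = 1`, `X = {x}`: all `m_q ≤ 1`, so there are no
adjacent `v ≠ w` outside of `X` with `κ v = κ w` (they would have the same class): `Apex` with `x`, `κ`.
If `X = ∅`: if all `m_q ≤ 1` then `κ` is a proper colouring of `G`: `Apex` with any vertex (`R` is not empty).
Otherwise there is exactly one `q` with `m_q ≥ 2`, and `m_q ≤ 3`; all edges with both ends of the same
colour are inside the class `q`.  `m_q = 2`: `Apex` with one of the two vertices.  `m_q = 3`, vertices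
`t₁`, `t₂`, `t₃`: if the three vertices are pairwise adjacent and have the same colour we have `Tri`
(`col`: `X = ∅`).  Otherwise there are at most two edges of the same colour, they have a common vertex:
`Apex` with this vertex. -/
def SpecCLS : Prop :=
  ∀ (V : Type u) (Q : Type v) [Fintype V] [DecidableEq V] [Fintype Q] [DecidableEq Q]
    (G : SimpleGraph V) (R : Finset V) (c : V → Bool) (_ : 4 ≤ R.card)
    (X : Finset V) (κ : V → Bool) (g : V → Q) (_ : Exc G R c X ∅ κ g),
    Apex G ∨ ∃ κ t₁ t₂ t₃, Tri G R c κ t₁ t₂ t₃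

/-- DIC (80 lines, from TBF, AUG, CNT, SEP, CLS).  If there is a `μ` as in AUG we are in the first case.
Otherwise TBF for the port graph and `k = |R| - 4` (`|Port| = 2 |V \ R| + |R|`), CNT, SEP, CLS. -/
def SpecDIC : Prop :=
  ∀ (V : Type u) [Fintype V] [DecidableEq V] (G : SimpleGraph V) (_ : Conn4 G) (R : Finset V)
    (c : V → Bool) (_ : 4 ≤ R.card),
    (∃ a l b a' l' b', BP2 G R c a l b a' l' b') ∨ Apex G ∨ ∃ κ t₁ t₂ t₃, Tri G R c κ t₁ t₂ t₃

/-! ### part D: subdivisions of complete bipartite graphs -/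

open Classical in
/-- The number of pairs `(x, y)` in `X × X` with `r x y`. -/
noncomputable def e2 {V : Type u} (r : V → V → Prop) (X : Finset V) : ℕ :=
  ((X ×ˢ X).filter fun p => r p.1 p.2).card

open Classical in
/-- The number of `y ∈ X` with `r x y`. -/
noncomputable def dX {V : Type u} (r : V → V → Prop) (X : Finset V) (x : V) : ℕ :=
  (X.filter fun y => r x y).card

/-- MCT (80 lines): maximal cut.

PROOF.  Choose `c` with maximal `e2 (fun x y => G.Adj x y ∧ c x ≠ c y) X` (`V` is finite).  For `x ∈ X` let `d₁` be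
the number of neighbours of `x` in `X` of the other colour, `d₀` the number of those of the same colour.
Changing the colour of `x` changes `e2` by `2 (d₀ - d₁)`, so `d₀ ≤ d₁`.  Sum over `x ∈ X`. -/
def SpecMCT : Prop :=
  ∀ (V : Type u) [Finite V] (G : SimpleGraph V) (X : Finset V), ∃ c : V → Bool,
    e2 G.Adj X ≤ 2 * e2 (fun x y => G.Adj x y ∧ c x ≠ c y) X

/-- MST (250 lines).  A connected set `U` and a dense graph on (a part of) its neighbourhood.

PROOF.  We may assume that `X` is minimal (number of elements) among the nonempty sets `X' ⊆ X` with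
`2 q |X'| ≤ e2 r X'`.  For `U ⊆ X` let `N(U) = {h ∈ X \ U | ∃ u ∈ U, r h u}`,
`Φ(U) = e2 r (X \ U) + 2 |N(U)|`.  Call `U` good if `U ⊆ X`, `U ≠ ∅`, `U` is connected (any two elements are
joined by `Relation.ReflTransGen` of `r` restricted to `U`) and `2 q (|X| - |U| + 1) ≤ Φ(U)`.  `{x}` is good:
`Φ({x}) = e2 r (X \ {x}) + 2 d(x) = e2 r X`.  Let `U` be good with the maximal number of elements and
`H = N(U)`.  `H ≠ ∅`: otherwise `e2 r (X \ U) ≥ 2 q |X \ U| + 2 q`, so `X \ U` is not empty, and it contradicts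
the minimality of `X`.  Let `h ∈ H`: `U' = U ∪ {h}` is connected, so it is not good: `Φ(U') < 2 q (|X| - |U|)`.
`e2 r (X \ U') = e2 r (X \ U) - 2 dX r (X \ U) h`, `N(U') = (H \ {h}) ∪ {y ∈ X \ U | r h y, y ∉ H}`,
`dX r (X \ U) h = dX r H h + |{y ∈ X \ U | r h y, y ∉ H}|`, so `Φ(U') = Φ(U) - 2 - 2 dX r H h`.  Hence
`2 + 2 dX r H h > 2 q`, `dX r H h ≥ q`.
Paths: for `x`, `y ∈ H` take `u`, `u' ∈ U` with `r x u`, `r y u'`, a path from `u` to `u'` in `U`, and WKL.short. -/
def SpecMST : Prop :=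
  ∀ (V : Type u) [Finite V] (r : V → V → Prop) (_ : ∀ x y, r x y → r y x) (_ : ∀ x, ¬ r x x) (q : ℕ)
    (_ : 0 < q) (X : Finset V) (_ : X.Nonempty) (_ : 2 * q * X.card ≤ e2 r X),
    ∃ U H : Finset V, U ⊆ X ∧ H ⊆ X ∧ Disjoint U H ∧ H.Nonempty ∧ (∀ h ∈ H, q ≤ dX r H h) ∧
      ∀ x ∈ H, ∀ y ∈ H, ∃ l : List V, l ≠ [] ∧ (∀ z ∈ l, z ∈ U) ∧ l.Nodup ∧ Wk r x l y

/-- Branch vertices `a i` (colour `false`) and `b j` (colour `true`) in `X` and internally disjoint
paths with interiors `L i j` for the pairs in `Y`. -/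
structure KY {V : Type u} (r : V → V → Prop) (c : V → Bool) (X : Finset V) {s : ℕ}
    (Y : Finset (Fin s × Fin s)) (a b : Fin s → V) (L : Fin s × Fin s → List V) : Prop where
  ai : Function.Injective a
  bi : Function.Injective b
  aX : ∀ i, a i ∈ X
  bX : ∀ i, b i ∈ X
  ac : ∀ i, c (a i) = false
  bc : ∀ i, c (b i) = true
  wk : ∀ p ∈ Y, Wk r (a p.1) (L p) (b p.2)
  LX : ∀ p ∈ Y, ∀ x ∈ L p, x ∈ X
  nd : ∀ p ∈ Y, (L p).Nodup
  av : ∀ p ∈ Y, ∀ x ∈ L p, ∀ i, x ≠ a i ∧ x ≠ b i
  dis : ∀ p ∈ Y, ∀ p' ∈ Y, p ≠ p' → ∀ x ∈ L p, x ∉ L p'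

/-- MIN (200 lines, from MST).  Mader's theorem.

PROOF.  Induction on `m`, for all `X`, `Y`.  If `Y = ∅` (this includes `m = 0`): let `A`, `B` be the elements
of `X` of colour `false`, `true`.  `e2 r X ≤ 2 |A| |B|`, so `s (|A| + |B|) ≤ |A| |B|`.  `B = ∅` gives
`s |A| = 0`, `X = ∅`, contradiction, so `|B| > 0`, and `s |B| ≤ |A| |B|` gives `s ≤ |A|`; in the same way
`s ≤ |B|`.  Choose injections.
Let `Y ≠ ∅`, `m = m' + 1`, `p = (i₀, j₀) ∈ Y`, `Y' = Y.erase p`.  MST for `q = 2 ^ (m' + 1) * s` gives `U`, `H`;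
`e2 r H ≥ q |H| = 2 * 2 ^ m' * s * |H|`.  Induction hypothesis for `H`, `Y'`: `a`, `b`, `L'`.  Let `l` be the list
of MST for `x = a i₀`, `y = b j₀`, `L p = l`, `L p' = L' p'` for `p' ≠ p`.  The entries of `l` are in `U`, which is
disjoint from `H`. -/
def SpecMIN : Prop :=
  ∀ (V : Type u) [Finite V] (r : V → V → Prop) (c : V → Bool) (_ : ∀ x y, r x y → r y x)
    (_ : ∀ x y, r x y → c x ≠ c y) (s : ℕ) (_ : 0 < s) (m : ℕ) (X : Finset V)
    (_ : X.Nonempty) (_ : 2 * (2 ^ m * s) * X.card ≤ e2 r X) (Y : Finset (Fin s × Fin s))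
    (_ : Y.card ≤ m), ∃ a b L, KY r c X Y a b L

/-- A subdivision of `K_(s,s)` in the graph of the two-coloured edges, branch vertices `B i` with
`i : Bool × Fin s`, of colour `i.1`; `L i j` is the interior of the path from `B i` to `B j` (`i.1 ≠ j.1`). -/
structure KS {V : Type u} (G : SimpleGraph V) (c : V → Bool) (s : ℕ) (B : Bool × Fin s → V)
    (L : Bool × Fin s → Bool × Fin s → List V) : Prop where
  inj : Function.Injective B
  col : ∀ i, c (B i) = i.1
  wk : ∀ i j, i.1 ≠ j.1 → Wk (fun x y => G.Adj x y ∧ c x ≠ c y) (B i) (L i j) (B j)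
  rev : ∀ i j, i.1 ≠ j.1 → L j i = (L i j).reverse
  nd : ∀ i j, i.1 ≠ j.1 → (L i j).Nodup
  av : ∀ i j, i.1 ≠ j.1 → ∀ x ∈ L i j, ∀ k, x ≠ B k
  dis : ∀ i j i' j', i.1 ≠ j.1 → i'.1 ≠ j'.1 → ∀ x ∈ L i j, x ∈ L i' j' →
    (i = i' ∧ j = j') ∨ (i = j' ∧ j = i')

/-- KSU (120 lines, from WKL, MIN).

PROOF.  MIN with `m = s * s`, `Y = univ`.  `B (false, i) = a i`, `B (true, j) = b j`, `L (false, i) (true, j) =
L (i, j)`, `L (true, j) (false, i) = (L (i, j)).reverse`, `[]` otherwise.  `wk`: WKL.rev. -/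
def SpecKSU : Prop :=
  ∀ (V : Type u) [Finite V] (G : SimpleGraph V) (c : V → Bool) (s : ℕ) (_ : 0 < s)
    (X : Finset V) (_ : X.Nonempty)
    (_ : 2 * (2 ^ (s * s) * s) * X.card ≤ e2 (fun x y => G.Adj x y ∧ c x ≠ c y) X),
    ∃ B L, KS G c s B L

end Pool.Agent.Lib.MPded8ec.SG
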