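import Pool.Agent.Lib.MP_ded8ec_lc.SG.SpecB

/-!
# Seymour graphs (MP_ded8ec_lc), specification C: totally odd K4 from a subdivision of `K_(12,12)`

Captain helper29.  Every statement has its complete proof in the docstring.

`B`, `L` is a subdivision `W` of `K_(s,s)` in the graph of the two-coloured edges (`KS`), `R` = the set of the
`B i`.
-/

set_option autoImplicit false

namespace Pool.Agent.Lib.MPded8ec.SG

universe u v

/-! ### part E -/

section

variable {V : Type u} {s : ℕ}

/-- `x`, `y` are neighbours on one of the paths of `W`. -/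
def WA (B : Bool × Fin s → V) (L : Bool × Fin s → Bool × Fin s → List V) (x y : V) : Prop :=
  ∃ i j, i.1 ≠ j.1 ∧ ∃ m m', B i :: (L i j ++ [B j]) = m ++ x :: y :: m'

open Classical in
/-- The number of the edges of the walk `(a, l, b)` which do not satisfy `r`. -/
noncomputable def cnt (r : V → V → Prop) : V → List V → V → ℕ
  | a, [], b => if r a b then 0 else 1
  | a, x :: l, b => (if r a x then 0 else 1) + cnt r x l b

end

/-- CNR (60 lines).  `app`: by induction on `l`.  `rev`: from `app` (`cnt r b (l.reverse) a`, `r` symmetric).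
`wk`: `cnt = 0` iff all edges satisfy `r`. -/
structure SpecCNR : Prop where
  app : ∀ (V : Type u) (r : V → V → Prop) (a x b : V) (l l' : List V),
    cnt r a (l ++ x :: l') b = cnt r a l x + cnt r x l' b
  rev : ∀ (V : Type u) (r : V → V → Prop) (_ : ∀ x y, r x y → r y x) (a b : V) (l : List V),
    cnt r b l.reverse a = cnt r a l b
  wk : ∀ (V : Type u) (r : V → V → Prop) (a b : V) (l : List V), cnt r a l b = 0 ↔ Wk r a l b

/-- NBR (180 lines).  `sym`: by `KS.rev`.  `path`: for a split `L i j = m ++ x :: m'` the walks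
`(B i, m, x)` and `(x, m', B j)` have all edges in `WA`.
`nbr`: the neighbours of an interior vertex `x` of the path `L i j = m ++ x :: m'` are the last element
of `B i :: m` and the first element of `m' ++ [B j]`.

PROOF of `nbr`.  `WA x z`: there are `i'`, `j'` such that `x`, `z` are neighbours in the list
`ℓ' = B i' :: (L i' j' ++ [B j'])`.  `x` is not a `B k`, so `x ∈ L i' j'`, and by `dis` the pair `(i', j')` is
`(i, j)` or `(j, i)`; in the second case `ℓ'` is the reverse of `ℓ = B i :: (L i j ++ [B j])`.  `ℓ` has no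
duplicates, so `x` has a unique position in it: `z` is the next or the previous element. -/
structure SpecNBR : Prop where
  sym : ∀ (V : Type u) (G : SimpleGraph V) (c : V → Bool) (s : ℕ) (B : Bool × Fin s → V)
    (L : Bool × Fin s → Bool × Fin s → List V) (_ : KS G c s B L) (x y : V),
    WA B L x y → WA B L y x
  path : ∀ (V : Type u) (s : ℕ) (B : Bool × Fin s → V)
    (L : Bool × Fin s → Bool × Fin s → List V) (i j : Bool × Fin s)
    (_ : i.1 ≠ j.1) (m m' : List V) (x : V) (_ : L i j = m ++ x :: m'),
    Wk (WA B L) (B i) m x ∧ Wk (WA B L) x m' (B j)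
  nbr : ∀ (V : Type u) (G : SimpleGraph V) (c : V → Bool) (s : ℕ) (B : Bool × Fin s → V)
    (L : Bool × Fin s → Bool × Fin s → List V) (_ : KS G c s B L) (i j : Bool × Fin s)
    (_ : i.1 ≠ j.1) (m m' : List V) (x z : V) (_ : L i j = m ++ x :: m') (_ : WA B L x z),
    (B i :: m).getLast? = some z ∨ (m' ++ [B j]).head? = some z

/-- SEG (120 lines, from NBR).  A walk in `W` which starts at the interior vertex `x` of `L i j`, away from
`B i`, and goes to a branch vertex without passing through other branch vertices, is the rest of the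
path `L i j`.

PROOF.  Induction on `m'`, for all `m`, `x`, `q`.  The first element `z` of `q ++ [B k]` is `WA`-adjacent to
`x`, and it is not the last element of `B i :: m`, so it is the first element of `m' ++ [B j]` (NBR.nbr).
`m' = []`: `z = B j`; `q = []` (otherwise `z ∈ q` is a branch vertex), so `B k = B j`.  `m' = y :: m''`:
`z = y` is not a branch vertex (`av`), so `q = y :: q'`, and we apply the induction hypothesis to
`m ++ [x]`, `y`, `q'`, `m''`: the first element of `q' ++ [B k]` is not `x` (no duplicates). -/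
def SpecSEG : Prop :=
  ∀ (V : Type u) (G : SimpleGraph V) (c : V → Bool) (s : ℕ) (B : Bool × Fin s → V)
    (L : Bool × Fin s → Bool × Fin s → List V) (_ : KS G c s B L) (i j k : Bool × Fin s)
    (_ : i.1 ≠ j.1) (m' m : List V) (x : V) (q : List V) (_ : L i j = m ++ x :: m')
    (_ : Wk (WA B L) x q (B k)) (_ : (x :: (q ++ [B k])).Nodup) (_ : ∀ y ∈ q, ∀ n, y ≠ B n)
    (_ : (B i :: m).getLast? ≠ (q ++ [B k]).head?), q = m' ∧ k = j

/-- The set of the branch vertices. -/
def RS {V : Type u} [DecidableEq V] {s : ℕ} (B : Bool × Fin s → V) : Finset V :=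
  Finset.univ.image B

/-- The neighbour of the end `b` on the path `(a, l, b)`. -/
def lastv {V : Type u} (a : V) (l : List V) : V := (a :: l).getLast (List.cons_ne_nil a l)

/-- EX1 (250 lines, from WKL, CNR, NBR, SEG).  One exchange step.  `(a, l, b)` is a breaking path, `x` a
vertex of its interior and the first vertex of `L f g` (seen from `B f`) on the two paths.  Then `B g`
is an end of `(a, l, b)` and the neighbour of this end is in `L f g`, or there is a better breaking path.

PROOF.  `l = p ++ x :: q` (`x ∈ l`).  By WKL.sgapp one of `sg c a p x`, `sg c x q b` is `true`.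
First case `sg c a p x = true`: consider the path `N = (B f, m ++ x :: p.reverse, a)`.  It is a breaking
path: walk (WKL.app, rev, mono), `sg = xor (sg (B f) m x) (sg x p.reverse a) = xor false true` (WKL.ok), no
duplicates (`m` has no duplicates, is disjoint from `x :: p`; `m` and `B f` are disjoint from `(a, l, b)`),
interior outside of `R`.  It is disjoint from `(a', l', b')`.  Its count is
`cnt (B f) m x + cnt x p.reverse a = 0 + cnt a p x` (NBR.path, CNR), and `cnt a l b = cnt a p x + cnt x q b`.
If `cnt x q b > 0` then `N` is a better path (the second alternative).  Otherwise `(x, q, b)` is a walk in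
`W`; `b ∈ R`, `b = B k`; the last element of `B f :: m` is not the first element of `q ++ [b]`, since `B f`
and `m` are disjoint from the path.  SEG: `q = m'`, `k = g`.  So `b = B g`, and the neighbour of `b` on the path,
`lastv a l`, is the last element of `x :: q = x :: m'`, which is in `L f g`.
Second case `sg c x q b = true`: the same for the reversed path `(b, l.reverse, a)`, which gives `a = B g`
and `lastv b l.reverse ∈ L f g`. -/
def SpecEX1 : Prop :=
  ∀ (V : Type u) [DecidableEq V] (G : SimpleGraph V) (c : V → Bool) (s : ℕ)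
    (B : Bool × Fin s → V) (L : Bool × Fin s → Bool × Fin s → List V) (_ : KS G c s B L)
    (a b a' b' : V) (l l' : List V) (_ : BP2 G (RS B) c a l b a' l' b') (f g : Bool × Fin s)
    (_ : f.1 ≠ g.1) (m m' : List V) (x : V) (_ : L f g = m ++ x :: m') (_ : x ∈ l)
    (_ : ∀ z ∈ m, z ∉ a :: (l ++ [b]) ∧ z ∉ a' :: (l' ++ [b']))
    (_ : B f ∉ a :: (l ++ [b]) ∧ B f ∉ a' :: (l' ++ [b'])),
    (b = B g ∧ lastv a l ∈ L f g) ∨ (a = B g ∧ lastv b l.reverse ∈ L f g) ∨
      ∃ a₁ l₁ b₁, BP2 G (RS B) c a₁ l₁ b₁ a' l' b' ∧ cnt (WA B L) a₁ l₁ b₁ < cnt (WA B L) a l b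

/-- EXC (200 lines, from EX1).  Two disjoint breaking paths such that for all indices `f` outside of a set
`D` with at most `8` elements the paths `L f g` do not meet them, except possibly in `B g`.

PROOF.  Choose two disjoint breaking paths with minimal `cnt a l b + cnt a' l' b'`.  Let `D` consist of
the four indices of the ends `a`, `b`, `a'`, `b'` (each is a `B k`) and for each of the four pairs (end
`B k`, neighbour `w` on its path: `(b, lastv a l)`, `(a, lastv b l.reverse)` and the same for the second path)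
of the index `f` with `f.1 ≠ k.1` and `w ∈ L f k`, if it exists; it is unique by `KS.dis` (`L f k`, `L f' k` with a
common element: `f = f'`; the alternative `f = k` is impossible).
Let `f ∉ D`, `f.1 ≠ g.1`.  `B f` is not an end, and the interiors of the paths are outside of `R`.  Suppose
`L f g` meets one of the two paths, let `x` be the first such vertex: `L f g = m ++ x :: m'`.  `x` is not a
branch vertex, so `x ∈ l` or `x ∈ l'`.  EX1 (in the second case for the exchanged paths; the condition
is symmetric): the third alternative contradicts minimality, the first two say that `f ∈ D`. -/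
def SpecEXC : Prop :=
  ∀ (V : Type u) [DecidableEq V] (G : SimpleGraph V) (c : V → Bool) (s : ℕ)
    (B : Bool × Fin s → V) (L : Bool × Fin s → Bool × Fin s → List V) (_ : KS G c s B L)
    (_ : ∃ a l b a' l' b', BP2 G (RS B) c a l b a' l' b'),
    ∃ a l b a' l' b', BP2 G (RS B) c a l b a' l' b' ∧ ∃ D : Finset (Bool × Fin s), D.card ≤ 8 ∧
      ∀ f, f ∉ D → (B f ∉ a :: (l ++ [b]) ∧ B f ∉ a' :: (l' ++ [b'])) ∧
        ∀ g, f.1 ≠ g.1 → ∀ x ∈ L f g, x ∉ a :: (l ++ [b]) ∧ x ∉ a' :: (l' ++ [b'])

/-- The vertices of the route from `B f` to `B i` (either `L f i`, or `L f g`, `B g`, `L g i`). -/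
def Own {V : Type u} {s : ℕ} (B : Bool × Fin s → V) (L : Bool × Fin s → Bool × Fin s → List V)
    (f g i : Bool × Fin s) (x : V) : Prop :=
  (f.1 ≠ i.1 ∧ x ∈ L f i) ∨ x ∈ L f g ∨ x = B g ∨ (g.1 ≠ i.1 ∧ x ∈ L g i)

/-- RTE (120 lines, from WKL).  `route`: `g` is on the other side than `f`, `i` is arbitrary, different from
`f`, `g`.  If `i` is on the other side than `f`: `m = L f i`.  Otherwise `m = L f g ++ B g :: L g i`.
`disj`: the routes for `f g i` and `f' g' i'` are disjoint if the six indices are different: a common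
vertex `x`: if `x = B g` then it is not in any `L`, and `B g ≠ B g'`.  Otherwise it is in the interior of two
paths of `W`, so by `dis` the pairs of indices are equal: impossible.
`dirL`: the route for `f g i` is disjoint from `L f' g'` if the pair `{f', g'}` is not `{f, i}`, `{f, g}`,
`{g, i}`: here `f'`, `g'` are such that one of them, `y`, is different from `f`, `g`, `i`. -/
structure SpecRTE : Prop where
  route : ∀ (V : Type u) (G : SimpleGraph V) (c : V → Bool) (s : ℕ) (B : Bool × Fin s → V)
    (L : Bool × Fin s → Bool × Fin s → List V) (_ : KS G c s B L) (f g i : Bool × Fin s)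
    (_ : f.1 ≠ g.1) (_ : f ≠ i) (_ : g ≠ i), ∃ m : List V,
      Wk (fun x y => G.Adj x y ∧ c x ≠ c y) (B f) m (B i) ∧ m.Nodup ∧
      ∀ x ∈ m, Own B L f g i x
  disj : ∀ (V : Type u) (G : SimpleGraph V) (c : V → Bool) (s : ℕ) (B : Bool × Fin s → V)
    (L : Bool × Fin s → Bool × Fin s → List V) (_ : KS G c s B L) (f g i f' g' i' : Bool × Fin s)
    (_ : f.1 ≠ g.1) (_ : f'.1 ≠ g'.1) (_ : [f, g, i, f', g', i'].Nodup) (x : V),
    Own B L f g i x → ¬ Own B L f' g' i' x
  dirL : ∀ (V : Type u) (G : SimpleGraph V) (c : V → Bool) (s : ℕ) (B : Bool × Fin s → V)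
    (L : Bool × Fin s → Bool × Fin s → List V) (_ : KS G c s B L) (f g i y z : Bool × Fin s)
    (_ : f.1 ≠ g.1) (_ : y.1 ≠ z.1) (_ : y ≠ f ∧ y ≠ g ∧ y ≠ i) (x : V),
    Own B L f g i x → x ∉ L y z ∧ x ∉ L z y

/-- ASM (300 lines, from WKL, RTE).  The totally odd K4.

PROOF.  There are `12 - 8` good indices (not in `D`) on each side: `f₀, .., f₃` of side `false`,
`g₀, .., g₃` of side `true`.  `a = B ia`, `b = B ib`, `a' = B ia'`, `b' = B ib'`; these four indices are different,
and different from the good ones.  Branch vertices: `b₀ = B f₀`, `b₁ = B f₁`, `b₂ = B g₀`, `b₃ = B g₁`.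
`l₀₁ = ρ₀ ++ a :: (l ++ b :: ρ₁.reverse)`, `ρ₀` the route (RTE) for `f₀ g₂ ia`, `ρ₁` the route for `f₁ g₃ ib`;
`l₂₃ = ρ₂ ++ a' :: (l' ++ b' :: ρ₃.reverse)`, `ρ₂` the route for `g₀ f₂ ia'`, `ρ₃` the route for `g₁ f₃ ib'`;
`l₀₂ = L f₀ g₀`, `l₀₃ = L f₀ g₁`, `l₁₂ = L f₁ g₀`, `l₁₃ = L f₁ g₁`.
Parity: `sg` of a route and of an `L` is `false` (WKL.ok), so `sg (B f₀) l₀₁ (B f₁) = xor false (xor true false) =
true` (WKL.sgapp, sgrev), and `c (B f₀) = c (B f₁) = false`, so `Even l₀₁.length`; the same for `l₂₃`.  For
`L f g`, `f` of side `false`, `g` of side `true`: `sg = false` and different colours, so `Even (L f g).length`.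
No duplicates: the branch vertices `B f₀, B f₁, B g₀, B g₁` are different and not in any interior (for
`l`, `l'`: interiors of breaking paths are outside of `R`).  The routes and the four `L` are pairwise
disjoint by RTE.disj, `KS.dis` and RTE.dirL (with `y` = the one of `f₀`, `f₁`, `g₀`, `g₁` which is not an index of
the route).  The vertices of the routes (`Own` for a route `f g i` with good `f`, `g`) and of the `L` are not
on the two breaking paths (property of `D`; for `L g i` with good `g`; `B g` with good `g`).  The breaking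
paths have no duplicates and are disjoint. -/
def SpecASM : Prop :=
  ∀ (V : Type u) [DecidableEq V] (G : SimpleGraph V) (c : V → Bool)
    (B : Bool × Fin 12 → V) (L : Bool × Fin 12 → Bool × Fin 12 → List V) (_ : KS G c 12 B L)
    (a b a' b' : V) (l l' : List V) (_ : BP2 G (RS B) c a l b a' l' b')
    (D : Finset (Bool × Fin 12)) (_ : D.card ≤ 8)
    (_ : ∀ f, f ∉ D → (B f ∉ a :: (l ++ [b]) ∧ B f ∉ a' :: (l' ++ [b'])) ∧
        ∀ g, f.1 ≠ g.1 → ∀ x ∈ L f g, x ∉ a :: (l ++ [b]) ∧ x ∉ a' :: (l' ++ [b'])), TOK G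

/-- FAN (120 lines): from `DL.fan` in `Pool/Agent/DL/MENG.lean` (`IsPth G s t P`: `P` is the edge set of a path
`w : G.Walk s t`; take the support `s :: (l ++ [t])` of `w`; `DL.del`).  The hypothesis of `DL.fan` for
`k = 3`, `B = {t₁, t₂, t₃}`: a set `T` with at most two elements, `b ∉ T`, leaves one `t_i`, and `b` and `t_i` are
connected in `G - T` by `Conn4`.  The three paths end in different elements of `B`, so we can number
them such that the `i`-th one ends in `t_i`. -/
def SpecFAN : Prop :=
  ∀ (V : Type u) [Fintype V] (G : SimpleGraph V) (_ : Conn4 G) (b t₁ t₂ t₃ : V)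
    (_ : [b, t₁, t₂, t₃].Nodup), ∃ l₁ l₂ l₃ : List V,
      (b :: t₁ :: t₂ :: t₃ :: (l₁ ++ (l₂ ++ l₃))).Nodup ∧
      Wk G.Adj b l₁ t₁ ∧ Wk G.Adj b l₂ t₂ ∧ Wk G.Adj b l₃ t₃

/-- TRI (100 lines, from FAN).  The colouring `κ` with the triangle: a vertex `b` of the other colour.

PROOF.  `b` is not on the triangle.  The paths of FAN use no edge of the triangle (only their last
vertex is on the triangle), so all their edges are two-coloured (`Tri.only`), and as `κ b ≠ κ t_i` they
have odd length (WKL.ok-like induction: `Even l.length`).  TOK: `b₀ = b`, `b_i = t_i`, `l₀ᵢ = l_i`, the others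
`[]`. -/
def SpecTRI : Prop :=
  ∀ (V : Type u) [Fintype V] (G : SimpleGraph V) (_ : Conn4 G) (R : Finset V) (c κ : V → Bool)
    (t₁ t₂ t₃ : V) (_ : Tri G R c κ t₁ t₂ t₃) (b : V) (_ : κ b ≠ κ t₁), TOK G

/-- The theorem. -/
def Main : Prop :=
  ∀ (V : Type u) [Fintype V] (G : SimpleGraph V) (_ : Conn4 G)
    (_ : ∃ X : Finset V, X.Nonempty ∧ ∀ x ∈ X, 3 * 2 ^ 148 ≤ {y | y ∈ X ∧ G.Adj x y}.ncard),
    IsSeymour G ↔ Apex G

/-- FIN (100 lines, from APX, TKN, DIC, MCT, KSU, EXC, ASM, TRI).

PROOF.  `←`: APX.  `→`: `e2 G.Adj X = ∑_(x ∈ X) (number of neighbours in X) ≥ 3 * 2 ^ 148 * |X|`.  MCT gives `c` with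
`e2 (..) X ≥ 3 * 2 ^ 147 * |X| = 2 * (2 ^ 144 * 12) * |X|`.  KSU for `s = 12`: `B`, `L`.  DIC for `R = RS B`
(24 elements): two breaking paths: EXC, ASM give a totally odd K4, contradiction to TKN.  `Apex`: done.
`Tri`: let `b = B i` with `i.1 ≠ κ t₁`: `κ b = c b = i.1`; TRI, TKN. -/
def SpecFIN : Prop := Main.{u}

end Pool.Agent.Lib.MPded8ec.SG
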